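import Mathlib

/-!
# Operators on cochains over `ZMod ℓ` given by weights and symbols

`w` are the weights, `c` the symbols: `c {i, j, l}` is the symbol of the triple `i, j, l`, `c {i, j}` that
of the triple of `i`, `j` and the point at infinity.
-/

namespace Pool.Agent.Lib.MP_89bcae_ag.Lr

variable {ι : Type} {ℓ : ℕ}

/-- The operator `κ ↦ (∑ w_l (h_il - g_i) (κ_i - κ_l))_i` on the functions on `S` modulo constants has no
eigenvector. -/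
def GoodR (w : ι → ZMod ℓ) (h : ι → ι → ZMod ℓ) (g : ι → ZMod ℓ) (S : Finset ι) : Prop :=
  ∀ (κ : ι → ZMod ℓ) (z μ : ZMod ℓ),
    (∀ i ∈ S, ∑ l ∈ S, w l * (h i l - g i) * (κ i - κ l) = z * κ i + μ) →
      ∀ i ∈ S, ∀ j ∈ S, κ i = κ j

/-- The operator `ε ↦ (∑ w_l (c_ijl - c_ij) (ε_ij + ε_jl + ε_li))_ij` on the antisymmetric functions of
pairs of elements of `S` modulo gradients has no eigenvector. -/
def GoodT [DecidableEq ι] (w : ι → ZMod ℓ) (c : Finset ι → ZMod ℓ) (S : Finset ι) : Prop :=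
  ∀ (ε : ι → ι → ZMod ℓ) (f : ι → ZMod ℓ) (z : ZMod ℓ),
    (∀ i ∈ S, ∀ j ∈ S, i ≠ j → ε j i = -ε i j) →
    (∀ i ∈ S, ∀ j ∈ S, i ≠ j → ∑ l ∈ S, w l * (c {i, j, l} - c {i, j}) * (ε i j + ε j l + ε l i) =
      z * ε i j + (f i - f j)) →
    ∃ b : ι → ZMod ℓ, ∀ i ∈ S, ∀ j ∈ S, i ≠ j → ε i j = b i - b j

/-- The operator `K` of the pencils. -/
def Kop (w : ι → ZMod ℓ) (h : ι → ι → ZMod ℓ) (P Q : ι → ZMod ℓ) (ω : ZMod ℓ) (S : Finset ι)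
    (x : ι → ZMod ℓ) (i : ι) : ZMod ℓ :=
  ∑ l ∈ S, w l * (h i l - P i) * (x i - x l) + ω * (Q i - P i) * x i + ∑ l ∈ S, w l * Q l * x l

/-- The operator `K - y (1 ⊗ w)` has no eigenvector. -/
def GoodK (w : ι → ZMod ℓ) (h : ι → ι → ZMod ℓ) (P Q : ι → ZMod ℓ) (ω y : ZMod ℓ)
    (S : Finset ι) : Prop :=
  ∀ (x : ι → ZMod ℓ) (z : ZMod ℓ),
    (∀ i ∈ S, Kop w h P Q ω S x i - y * ∑ l ∈ S, w l * x l = z * x i) → ∀ i ∈ S, x i = 0

end Pool.Agent.Lib.MP_89bcae_ag.Lr
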