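import Mathlib
import Pool.Agent.Lib.MP_89bcae_ag.LIndB14

/-!
# The discrete logarithm modulo `ℓ` of a prime field
-/

namespace Pool.Agent.Lib.MP_89bcae_ag.Lr

/-- two powers of a primitive root with residues as exponents -/
theorem b03_pow_val_h15 {M : Type*} [CommMonoid M] {ℓ : ℕ} [NeZero ℓ] {ζ : M} (hζ : IsPrimitiveRoot ζ ℓ)
    (i j : ZMod ℓ) : ζ ^ i.val = ζ ^ j.val ↔ i = j := by
  constructor
  · intro h
    exact ZMod.val_injective ℓ (hζ.pow_inj (ZMod.val_lt i) (ZMod.val_lt j) h)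
  · rintro rfl; rfl

theorem b03_pow_add_h15 {M : Type*} [CommMonoid M] {ℓ : ℕ} [NeZero ℓ] {ζ : M} (hζ : IsPrimitiveRoot ζ ℓ)
    (i j : ZMod ℓ) : ζ ^ (i + j).val = ζ ^ i.val * ζ ^ j.val := by
  rw [← pow_add, ZMod.val_add]
  exact (pow_eq_pow_mod (i.val + j.val) hζ.pow_eq_one).symm

/-- The `ℓ`-th power residue symbol of `ZMod q`, for `ℓ` odd. Proof: for `x ≠ 0` the element
`x ^ ((q - 1) / ℓ)` is an `ℓ`-th root of `1` (`ZMod.pow_card_sub_one_eq_one`), so it is `ζ ^ i.val` for a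
unique `i : ZMod ℓ` (`IsPrimitiveRoot.eq_pow_of_pow_eq_one`, `IsPrimitiveRoot.pow_inj`); this is `V.ν x`.
`neg_one`: `ν (-1) + ν (-1) = ν 1 = 0` and `2 ≠ 0` in `ZMod ℓ`. -/
theorem exists_val_zmod {q ℓ : ℕ} [Fact q.Prime] (hℓ : ℓ.Prime) (hℓ2 : ℓ ≠ 2) (hq : ℓ ∣ q - 1)
    {ζ : ZMod q} (hζ : IsPrimitiveRoot ζ ℓ) :
    ∃ V : Val14 (ZMod q) ℓ, ∀ (x : ZMod q) (i : ZMod ℓ), x ≠ 0 → x ^ ((q - 1) / ℓ) = ζ ^ i.val →
      V.ν x = i := by
  classical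
  have : NeZero ℓ := ⟨hℓ.ne_zero⟩
  have : Fact ℓ.Prime := ⟨hℓ⟩
  have hex : ∀ x : ZMod q, x ≠ 0 → ∃ i : ZMod ℓ, x ^ ((q - 1) / ℓ) = ζ ^ i.val := by
    intro x hx
    have h1 : (x ^ ((q - 1) / ℓ)) ^ ℓ = 1 := by
      rw [← pow_mul, Nat.div_mul_cancel hq]
      exact ZMod.pow_card_sub_one_eq_one hx
    obtain ⟨n, hn, hne⟩ := hζ.eq_pow_of_pow_eq_one h1
    refine ⟨(n : ZMod ℓ), ?_⟩
    rw [ZMod.val_natCast_of_lt hn, hne]
  let f : ZMod q → ZMod ℓ := fun x => if h : x ≠ 0 then (hex x h).choose else 0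
  have hf : ∀ (x : ZMod q) (i : ZMod ℓ), x ≠ 0 → x ^ ((q - 1) / ℓ) = ζ ^ i.val → f x = i := by
    intro x i hx hi
    have h1 : f x = (hex x hx).choose := dif_pos hx
    have h2 := (hex x hx).choose_spec
    rw [h1]
    exact (b03_pow_val_h15 hζ _ _).1 (h2.symm.trans hi)
  have hf' : ∀ x : ZMod q, x ≠ 0 → x ^ ((q - 1) / ℓ) = ζ ^ (f x).val := by
    intro x hx
    obtain ⟨i, hi⟩ := hex x hx
    rw [hf x i hx hi, hi]
  have hmul : ∀ x y, x ≠ 0 → y ≠ 0 → f (x * y) = f x + f y := by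
    intro x y hx hy
    apply hf _ _ (mul_ne_zero hx hy)
    rw [mul_pow, hf' x hx, hf' y hy, b03_pow_add_h15 hζ]
  have hone : f 1 = 0 := by
    apply hf _ _ one_ne_zero
    rw [one_pow, ZMod.val_zero, pow_zero]
  have hneg : f (-1) = 0 := by
    have h1 := hmul (-1) (-1) (neg_ne_zero.2 one_ne_zero) (neg_ne_zero.2 one_ne_zero)
    rw [neg_one_mul, neg_neg, hone] at h1
    have h2 : (2 : ZMod ℓ) * f (-1) = 0 := by rw [two_mul, ← h1]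
    rcases mul_eq_zero.1 h2 with h | h
    · exfalso
      have h3 : ((2 : ℕ) : ZMod ℓ) = 0 := by exact_mod_cast h
      rw [ZMod.natCast_eq_zero_iff] at h3
      exact hℓ2 ((Nat.prime_dvd_prime_iff_eq hℓ Nat.prime_two).1 h3)
    · exact h
  exact ⟨⟨f, hmul, hneg⟩, hf⟩

end Pool.Agent.Lib.MP_89bcae_ag.Lr
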