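import Mathlib
import Pool.Agent.Lib.MP_89bcae_ag.Lr.Defs

namespace Pool.Agent.Lib.MP_89bcae_ag.Lr

variable {ι : Type} {ℓ : ℕ}

/-- The sum of `Kop` against a function. -/
theorem kop_pair_h52 {w : ι → ZMod ℓ} {h : ι → ι → ZMod ℓ} {P Q : ι → ZMod ℓ} {ω : ZMod ℓ}
    {S : Finset ι} (y y' : ι → ZMod ℓ) :
    ∑ i ∈ S, w i * Kop w h P Q ω S y i * y' i =
      ∑ i ∈ S, ∑ l ∈ S, w i * w l * h i l * (y i - y l) * y' i
        - (∑ l ∈ S, w l) * ∑ i ∈ S, w i * P i * y i * y' i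
        + (∑ l ∈ S, w l * y l) * ∑ i ∈ S, w i * P i * y' i
        + ω * ∑ i ∈ S, w i * (Q i - P i) * y i * y' i
        + (∑ l ∈ S, w l * Q l * y l) * ∑ i ∈ S, w i * y' i := by
  have key : ∀ i ∈ S, w i * Kop w h P Q ω S y i * y' i =
      ∑ l ∈ S, w i * w l * h i l * (y i - y l) * y' i
        - (∑ l ∈ S, w l) * (w i * P i * y i * y' i)
        + (∑ l ∈ S, w l * y l) * (w i * P i * y' i)
        + ω * (w i * (Q i - P i) * y i * y' i)
        + (∑ l ∈ S, w l * Q l * y l) * (w i * y' i) := by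
    intro i _
    have e1 : ∑ l ∈ S, w l * (h i l - P i) * (y i - y l) =
        ∑ l ∈ S, w l * h i l * (y i - y l) - P i * y i * (∑ l ∈ S, w l)
          + P i * ∑ l ∈ S, w l * y l := by
      rw [Finset.mul_sum, Finset.mul_sum, ← Finset.sum_sub_distrib, ← Finset.sum_add_distrib]
      exact Finset.sum_congr rfl fun l _ => by ring
    have e2 : ∑ l ∈ S, w i * w l * h i l * (y i - y l) * y' i =
        w i * y' i * ∑ l ∈ S, w l * h i l * (y i - y l) := by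
      rw [Finset.mul_sum]
      exact Finset.sum_congr rfl fun l _ => by ring
    rw [e2]
    unfold Kop
    rw [e1]
    ring
  rw [Finset.sum_congr rfl key]
  simp only [Finset.sum_add_distrib, Finset.sum_sub_distrib, ← Finset.mul_sum]

/-- Symmetry of the first part. -/
theorem sym_part_h52 {w : ι → ZMod ℓ} {h : ι → ι → ZMod ℓ}
    {S : Finset ι} (hh : ∀ i ∈ S, ∀ l ∈ S, h i l = h l i) (y y' : ι → ZMod ℓ) :
    ∑ i ∈ S, ∑ l ∈ S, w i * w l * h i l * (y i - y l) * y' i =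
      ∑ i ∈ S, ∑ l ∈ S, w i * w l * h i l * (y' i - y' l) * y i := by
  have e : ∀ a b : ι → ZMod ℓ, ∑ i ∈ S, ∑ l ∈ S, w i * w l * h i l * (a i - a l) * b i =
      ∑ i ∈ S, ∑ l ∈ S, w i * w l * h i l * (a i * b i)
        - ∑ i ∈ S, ∑ l ∈ S, w i * w l * h i l * (a l * b i) := by
    intro a b
    rw [← Finset.sum_sub_distrib]
    refine Finset.sum_congr rfl fun i _ => ?_
    rw [← Finset.sum_sub_distrib]
    exact Finset.sum_congr rfl fun l _ => by ring
  rw [e, e]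
  congr 1
  · exact Finset.sum_congr rfl fun i _ => Finset.sum_congr rfl fun l _ => by ring
  · rw [Finset.sum_comm]
    refine Finset.sum_congr rfl fun i hi => Finset.sum_congr rfl fun l hl => ?_
    rw [hh l hl i hi]
    ring

/-- The symmetric form `B(x, x') = ∑ w_i x_i x'_i - (∑ w_i x_i) (∑ w_i x'_i) / (∑ w_i + ω)`: the
operator `Kop` is selfadjoint, and `B(x, 1) = ω (∑ w_i x_i) / (∑ w_i + ω)`. Proof of the first equation
(multiply by `W + ω`, `W = ∑ w_i`; write `(P·x) = ∑ w_i P_i x_i`, `σ(x) = ∑ w_i x_i`):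
`Kop x i = (∑ w_l h_il (x_i - x_l)) - P_i (W x_i - σ(x)) + ω (Q_i - P_i) x_i + (Q·x)`. The first part is
symmetric in `x, x'` after `∑_i w_i x'_i`: `∑_i ∑_l w_i w_l h_il (x_i - x_l) x'_i` is half of
`∑_i ∑_l w_i w_l h_il (x_i - x_l) (x'_i - x'_l)`; to avoid the division by `2`: the sum over `i, l` of
`w_i w_l h_il (x_i x'_i - x_l x'_i)` is symmetric in `x, x'` because `h` is symmetric (exchange `i, l` in
the second part: `Finset.sum_comm`). `σ(Kop x) = (W + ω) ((Q·x) - (P·x)) + (∑ w_i P_i) σ(x)` (the first part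
has sum `0` by symmetry). So
`∑ w_i (Kop x i) x'_i - σ(Kop x) σ(x') / (W + ω) = sym + (P·x') σ(x) + (P·x) σ(x') - (∑ w P) σ(x) σ(x') / (W + ω)`
is symmetric. -/
theorem form_symm {w : ι → ZMod ℓ} {h : ι → ι → ZMod ℓ} {P Q : ι → ZMod ℓ} {ω : ZMod ℓ}
    {S : Finset ι} [Fact ℓ.Prime] (hh : ∀ i ∈ S, ∀ l ∈ S, h i l = h l i)
    (hs : ∑ l ∈ S, w l + ω ≠ 0) (x x' : ι → ZMod ℓ) :
    ∑ i ∈ S, w i * Kop w h P Q ω S x i * x' i -
        (∑ i ∈ S, w i * Kop w h P Q ω S x i) * (∑ i ∈ S, w i * x' i) / (∑ l ∈ S, w l + ω) =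
      ∑ i ∈ S, w i * x i * Kop w h P Q ω S x' i -
        (∑ i ∈ S, w i * x i) * (∑ i ∈ S, w i * Kop w h P Q ω S x' i) / (∑ l ∈ S, w l + ω) := by
  have sg : ∀ y : ι → ZMod ℓ, ∑ i ∈ S, w i * Kop w h P Q ω S y i =
      (∑ l ∈ S, w l + ω) * (∑ l ∈ S, w l * Q l * y l - ∑ l ∈ S, w l * P l * y l)
        + (∑ l ∈ S, w l * P l) * ∑ l ∈ S, w l * y l := by
    intro y
    have h1 := kop_pair_h52 (w := w) (h := h) (P := P) (Q := Q) (ω := ω) (S := S) y (fun _ => 1)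
    have h2 := sym_part_h52 (w := w) (h := h) (S := S) hh y (fun _ => 1)
    simp only [mul_one, sub_self, mul_zero, zero_mul, Finset.sum_const_zero] at h1 h2
    rw [h1, h2]
    have h3 : ∑ i ∈ S, w i * (Q i - P i) * y i =
        ∑ l ∈ S, w l * Q l * y l - ∑ l ∈ S, w l * P l * y l := by
      rw [← Finset.sum_sub_distrib]
      exact Finset.sum_congr rfl fun l _ => by ring
    rw [h3]
    ring
  have hr : ∑ i ∈ S, w i * x i * Kop w h P Q ω S x' i =
      ∑ i ∈ S, w i * Kop w h P Q ω S x' i * x i :=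
    Finset.sum_congr rfl fun i _ => by ring
  rw [hr, sg x, sg x', kop_pair_h52 x x', kop_pair_h52 x' x, sym_part_h52 hh x x']
  have c1 : ∑ i ∈ S, w i * P i * x' i * x i = ∑ i ∈ S, w i * P i * x i * x' i :=
    Finset.sum_congr rfl fun i _ => by ring
  have c2 : ∑ i ∈ S, w i * (Q i - P i) * x' i * x i = ∑ i ∈ S, w i * (Q i - P i) * x i * x' i :=
    Finset.sum_congr rfl fun i _ => by ring
  rw [c1, c2]
  generalize ∑ i ∈ S, ∑ l ∈ S, w i * w l * h i l * (x' i - x' l) * x i = SA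
  generalize ∑ i ∈ S, w i * P i * x i * x' i = PP
  generalize ∑ i ∈ S, w i * (Q i - P i) * x i * x' i = QP
  field_simp
  ring

end Pool.Agent.Lib.MP_89bcae_ag.Lr
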