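import Mathlib
import Pool.Agent.Lib.MP_89bcae_ag.Lr.A01

namespace Pool.Agent.Lib.MP_89bcae_ag.Lr

variable {ι : Type} {ℓ : ℕ}

theorem pencil_aux_h20 {w : ι → ZMod ℓ} {h : ι → ι → ZMod ℓ} {P Q : ι → ZMod ℓ} {ω : ZMod ℓ}
    {S : Finset ι} [Fact ℓ.Prime] (hh : ∀ i ∈ S, ∀ l ∈ S, h i l = h l i)
    (hω : ω ≠ 0) (hs : ∑ l ∈ S, w l + ω ≠ 0) (x x' : ι → ZMod ℓ) (z s s' : ZMod ℓ)
    (hx : ∀ i ∈ S, Kop w h P Q ω S x i = z * x i + s)
    (hx' : ∀ i ∈ S, Kop w h P Q ω S x' i = z * x' i + s') :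
    s * ∑ l ∈ S, w l * x' l = s' * ∑ l ∈ S, w l * x l := by
  have key := form_symm (P := P) (Q := Q) hh hs x x'
  have e1 : ∑ i ∈ S, w i * Kop w h P Q ω S x i * x' i =
      z * ∑ i ∈ S, w i * x i * x' i + s * ∑ i ∈ S, w i * x' i := by
    rw [Finset.mul_sum, Finset.mul_sum, ← Finset.sum_add_distrib]
    refine Finset.sum_congr rfl fun i hi => ?_
    rw [hx i hi]; ring
  have e2 : ∑ i ∈ S, w i * Kop w h P Q ω S x i = z * ∑ i ∈ S, w i * x i + s * ∑ i ∈ S, w i := by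
    rw [Finset.mul_sum, Finset.mul_sum, ← Finset.sum_add_distrib]
    refine Finset.sum_congr rfl fun i hi => ?_
    rw [hx i hi]; ring
  have e3 : ∑ i ∈ S, w i * x i * Kop w h P Q ω S x' i =
      z * ∑ i ∈ S, w i * x i * x' i + s' * ∑ i ∈ S, w i * x i := by
    rw [Finset.mul_sum, Finset.mul_sum, ← Finset.sum_add_distrib]
    refine Finset.sum_congr rfl fun i hi => ?_
    rw [hx' i hi]; ring
  have e4 : ∑ i ∈ S, w i * Kop w h P Q ω S x' i = z * ∑ i ∈ S, w i * x' i + s' * ∑ i ∈ S, w i := by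
    rw [Finset.mul_sum, Finset.mul_sum, ← Finset.sum_add_distrib]
    refine Finset.sum_congr rfl fun i hi => ?_
    rw [hx' i hi]; ring
  rw [e1, e2, e3, e4] at key
  set A := ∑ i ∈ S, w i * x i * x' i
  set X := ∑ i ∈ S, w i * x i
  set X' := ∑ i ∈ S, w i * x' i
  set W := ∑ l ∈ S, w l
  have h1 : ω * (s * X' - s' * X) = 0 := by
    have h2 : (W + ω) * ((z * A + s * X') - (z * X + s * W) * X' / (W + ω)) =
        (W + ω) * ((z * A + s' * X) - X * (z * X' + s' * W) / (W + ω)) := by rw [key]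
    rw [mul_sub, mul_div_cancel₀ _ hs, mul_sub, mul_div_cancel₀ _ hs] at h2
    linear_combination h2
  rcases mul_eq_zero.mp h1 with h2 | h2
  · exact absurd h2 hω
  · exact sub_eq_zero.mp h2

/-- **The pencil lemma.** Some `y` is good. Proof: let `σ(x) = ∑ w_l x_l`, `u` the constant function `1`,
`B` the symmetric form of `form_symm`, `B(x, u) = c σ(x)` with `c = ω / (W + ω) ≠ 0`
(`∑ w_i x_i - σ(x) W / (W + ω)`). For `z : ZMod ℓ` call `y` bad at `z` if there is `x` not zero on `S` with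
`Kop x i = z x_i + y σ(x)` for all `i ∈ S` (that is the failure of `GoodK`). By `h1`, `σ(x) ≠ 0` for such
`x` (otherwise `Kop x = z x` on `S`). (a) For each `z` there is at most one bad `y`: for `x, y` and `x', y'`
(same `z`), `form_symm` gives `z B(x, x') + y σ(x) c σ(x') = z B(x, x') + y' σ(x') c σ(x)`, so `y = y'`.
(b) For the `z₀` of `h2` there is no bad `y`: with the `x₀, t` of `h2` (`σ(x₀) = 0`; `t ≠ 0` by `h1`) and a
bad `y, x`: `B(Kop x, x₀) = z₀ B(x, x₀) + y σ(x) c σ(x₀) = z₀ B(x, x₀)` and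
`B(x, Kop x₀) = z₀ B(x, x₀) + t c σ(x)`, so `t c σ(x) = 0`, a contradiction. (c) If all `y` were bad, choose
`Z y` with `y` bad at `Z y`: `Z` is injective by (a), so surjective (`Finite.injective_iff_surjective`), but
`z₀` is not in the image by (b). -/
theorem exists_goodK {w : ι → ZMod ℓ} {h : ι → ι → ZMod ℓ} {P Q : ι → ZMod ℓ} {ω : ZMod ℓ}
    {S : Finset ι} [Fact ℓ.Prime] (hh : ∀ i ∈ S, ∀ l ∈ S, h i l = h l i)
    (hω : ω ≠ 0) (hs : ∑ l ∈ S, w l + ω ≠ 0)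
    (h1 : ∀ (x : ι → ZMod ℓ) (z : ZMod ℓ), ∑ l ∈ S, w l * x l = 0 →
      (∀ i ∈ S, Kop w h P Q ω S x i = z * x i) → ∀ i ∈ S, x i = 0)
    (h2 : ∃ (x : ι → ZMod ℓ) (z t : ZMod ℓ), (∃ i ∈ S, x i ≠ 0) ∧ ∑ l ∈ S, w l * x l = 0 ∧
      ∀ i ∈ S, Kop w h P Q ω S x i = z * x i + t) :
    ∃ y, GoodK w h P Q ω y S := by
  by_contra hcon
  have hbad : ∀ y : ZMod ℓ, ∃ (x : ι → ZMod ℓ) (z : ZMod ℓ),
      (∀ i ∈ S, Kop w h P Q ω S x i = z * x i + y * ∑ l ∈ S, w l * x l) ∧ ∑ l ∈ S, w l * x l ≠ 0 := by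
    intro y
    have hy : ¬ GoodK w h P Q ω y S := fun hy => hcon ⟨y, hy⟩
    unfold GoodK at hy
    push Not at hy
    obtain ⟨x, z, hx, i, hi, hxi⟩ := hy
    have hx' : ∀ i ∈ S, Kop w h P Q ω S x i = z * x i + y * ∑ l ∈ S, w l * x l := fun i hi => by
      rw [← hx i hi]; ring
    refine ⟨x, z, hx', fun h0 => hxi (h1 x z h0 (fun i hi => ?_) i hi)⟩
    rw [hx' i hi, h0, mul_zero, add_zero]
  choose X Z hXZ hX0 using hbad
  have hinj : Function.Injective Z := by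
    intro y y' hyy
    have h3 := hXZ y'
    rw [← hyy] at h3
    have h4 := pencil_aux_h20 hh hω hs (X y) (X y') (Z y) _ _ (hXZ y) h3
    have h5 : (y - y') * ((∑ l ∈ S, w l * X y l) * ∑ l ∈ S, w l * X y' l) = 0 := by
      linear_combination h4
    rcases mul_eq_zero.mp h5 with h6 | h6
    · exact sub_eq_zero.mp h6
    · exact absurd h6 (mul_ne_zero (hX0 y) (hX0 y'))
  have hsurj : Function.Surjective Z := Finite.injective_iff_surjective.mp hinj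
  obtain ⟨x₀, z₀, t, ⟨i, hi, hxi⟩, hσ, hx₀⟩ := h2
  obtain ⟨y, rfl⟩ := hsurj z₀
  have h4 := pencil_aux_h20 hh hω hs (X y) x₀ (Z y) _ _ (hXZ y) hx₀
  rw [hσ, mul_zero] at h4
  rcases mul_eq_zero.mp h4.symm with h6 | h6
  · refine hxi (h1 x₀ (Z y) hσ (fun i hi => ?_) i hi)
    rw [hx₀ i hi, h6, add_zero]
  · exact hX0 y h6

end Pool.Agent.Lib.MP_89bcae_ag.Lr
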