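import Mathlib
import Pool.Agent.Lib.MP_89bcae_ag.Lr.Defs

namespace Pool.Agent.Lib.MP_89bcae_ag.Lr

variable {ι : Type} {ℓ : ℕ}

/-- From `GoodK` to `GoodR` with one more element `b`. Proof: let `κ, z, μ` satisfy the equations on
`insert b S` (`Finset.sum_insert hb`; the term `l = i` vanishes). For `i ∈ S`:
`∑_{l ∈ S} w_l (h_il - u_i) (κ_i - κ_l) + w_b (g_i - u_i) (κ_i - κ_b) = z κ_i + μ`, and at `b`:
`∑_{l ∈ S} w_l (g_l - y) (κ_b - κ_l) = z κ_b + μ`. Put `x = κ - κ_b` and subtract: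
`Kop w h u g (w b) S x i - y ∑ w_l x_l = z x_i` for `i ∈ S`. So `x = 0` on `S` by `hK`. -/
theorem goodR_insert [DecidableEq ι] {w : ι → ZMod ℓ} {h h' : ι → ι → ZMod ℓ}
    {g u u' : ι → ZMod ℓ} {S : Finset ι} {b : ι} (hb : b ∉ S) {y : ZMod ℓ}
    (hK : GoodK w h u g (w b) y S)
    (h1 : ∀ i ∈ S, ∀ l ∈ S, i ≠ l → h' i l = h i l) (h2 : ∀ i ∈ S, h' i b = g i)
    (h3 : ∀ i ∈ S, h' b i = g i) (h4 : ∀ i ∈ S, u' i = u i) (h5 : u' b = y) :
    GoodR w h' u' (insert b S) := by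
  intro κ z μ hκ
  have hbeq := hκ b (Finset.mem_insert_self b S)
  rw [Finset.sum_insert hb, sub_self, mul_zero, zero_add] at hbeq
  have hbeq2 : ∑ l ∈ S, w l * (g l - y) * (κ b - κ l) = z * κ b + μ := by
    rw [← hbeq]
    refine Finset.sum_congr rfl fun l hl => ?_
    rw [h3 l hl, h5]
  have hx : ∀ i ∈ S, (fun j => κ j - κ b) i = 0 := by
    apply hK (fun j => κ j - κ b) z
    intro i hi
    have hieq := hκ i (Finset.mem_insert_of_mem hi)
    rw [Finset.sum_insert hb, h2 i hi, h4 i hi] at hieq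
    have hieq2 : ∑ l ∈ S, w l * (h' i l - u i) * (κ i - κ l) =
        ∑ l ∈ S, w l * (h i l - u i) * (κ i - κ l) := by
      refine Finset.sum_congr rfl fun l hl => ?_
      by_cases hil : i = l
      · subst hil
        rw [sub_self, mul_zero, mul_zero]
      · rw [h1 i hi l hl hil]
    rw [hieq2] at hieq
    have e1 : ∑ l ∈ S, w l * (h i l - u i) * ((κ i - κ b) - (κ l - κ b)) =
        ∑ l ∈ S, w l * (h i l - u i) * (κ i - κ l) := by
      refine Finset.sum_congr rfl fun l _ => ?_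
      ring
    have e2 : ∑ l ∈ S, w l * g l * (κ l - κ b) - y * ∑ l ∈ S, w l * (κ l - κ b) =
        -∑ l ∈ S, w l * (g l - y) * (κ b - κ l) := by
      rw [Finset.mul_sum, ← Finset.sum_sub_distrib, ← Finset.sum_neg_distrib]
      refine Finset.sum_congr rfl fun l _ => ?_
      ring
    unfold Kop
    simp only [e1]
    linear_combination hieq + e2 - hbeq2
  intro i hi j hj
  have hall : ∀ i ∈ insert b S, κ i = κ b := by
    intro i hi
    rcases Finset.mem_insert.1 hi with h | h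
    · rw [h]
    · exact sub_eq_zero.1 (hx i h)
  rw [hall i hi, hall j hj]

end Pool.Agent.Lib.MP_89bcae_ag.Lr
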