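import Mathlib
import Pool.Agent.Lib.MP_89bcae_ag.Lr.A02
import Pool.Agent.Lib.MP_89bcae_ag.Lr.A07

namespace Pool.Agent.Lib.MP_89bcae_ag.Lr

variable {ι : Type} {ℓ : ℕ}

/-- choice of the parameter -/
theorem alpha_h92 [Fact ℓ.Prime] (hℓ2 : ℓ ≠ 2) {a b c : ZMod ℓ} (hb : b ≠ 0) (hc : c ≠ 0) :
    ∃ α : ZMod ℓ, α ≠ 0 ∧ 2 * c * (a + b + c) * α - (a + c) ≠ 0 := by
  have h2 : (2 : ZMod ℓ) ≠ 0 := by
    have h2' := (ZMod.natCast_eq_zero_iff 2 ℓ).not.mpr (fun hd => hℓ2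
      ((Nat.prime_dvd_prime_iff_eq (Fact.out : ℓ.Prime) Nat.prime_two).mp hd))
    exact_mod_cast h2'
  by_cases h0 : a + b + c = 0
  · refine ⟨1, one_ne_zero, ?_⟩
    intro h
    apply hb
    linear_combination h + (1 - 2 * c) * h0
  · by_cases h1 : 2 * c * (a + b + c) * 1 - (a + c) = 0
    · refine ⟨-1, neg_ne_zero.mpr one_ne_zero, ?_⟩
      intro h
      have h3 : 2 * (2 * c * (a + b + c)) = 0 := by linear_combination h1 - h
      exact mul_ne_zero h2 (mul_ne_zero (mul_ne_zero h2 hc) h0) h3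
    · exact ⟨1, one_ne_zero, h1⟩

/-- the linear algebra of hypothesis h1 of `exists_goodK` -/
theorem lin_h92 [Fact ℓ.Prime] (hℓ2 : ℓ ≠ 2) {a b c α x₁ x₂ x₃ z : ZMod ℓ} (ha : a ≠ 0) (hb : b ≠ 0)
    (hc : c ≠ 0) (hα : α ≠ 0) (hα2 : 2 * c * (a + b + c) * α - (a + c) ≠ 0)
    (hσ : a * x₁ + (b * x₂ + c * x₃) = 0) (e1 : b * α * (x₁ - x₂) + c * α * x₃ = z * x₁)
    (e2 : a * α * (x₂ - x₁) + x₂ + c * α * x₃ = z * x₂) (e3 : (a + b + 2 * c) * α * x₃ = z * x₃) :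
    x₁ = 0 ∧ x₂ = 0 ∧ x₃ = 0 := by
  have h2 : (2 : ZMod ℓ) ≠ 0 := by
    have h2' := (ZMod.natCast_eq_zero_iff 2 ℓ).not.mpr (fun hd => hℓ2
      ((Nat.prime_dvd_prime_iff_eq (Fact.out : ℓ.Prime) Nat.prime_two).mp hd))
    exact_mod_cast h2'
  by_cases h3 : x₃ = 0
  · subst h3
    have hx2 : b * x₂ = 0 := by linear_combination a * e1 + b * e2 + z * hσ
    have hx2' : x₂ = 0 := (mul_eq_zero.mp hx2).resolve_left hb
    subst hx2'
    have hx1 : a * x₁ = 0 := by linear_combination hσ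
    exact ⟨(mul_eq_zero.mp hx1).resolve_left ha, rfl, rfl⟩
  · exfalso
    have hz : (a + b + 2 * c) * α = z := mul_right_cancel₀ h3 e3
    subst hz
    have f0 : 2 * α * ((a + c) * x₁ + b * x₂) = 0 := by linear_combination -e1 + α * hσ
    have f1 : (a + c) * x₁ + b * x₂ = 0 := (mul_eq_zero.mp f0).resolve_left (mul_ne_zero h2 hα)
    have f2 : x₂ - 2 * a * α * x₁ - 2 * (b + c) * α * x₂ = 0 := by linear_combination e2 - α * hσ
    have f3 : (2 * c * (a + b + c) * α - (a + c)) * x₁ = 0 := by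
      linear_combination b * f2 - (1 - 2 * (b + c) * α) * f1
    have g1 : x₁ = 0 := (mul_eq_zero.mp f3).resolve_left hα2
    subst g1
    have g2 : b * x₂ = 0 := by linear_combination f1
    have g2' : x₂ = 0 := (mul_eq_zero.mp g2).resolve_left hb
    subst g2'
    have g3 : c * x₃ = 0 := by linear_combination hσ
    exact h3 ((mul_eq_zero.mp g3).resolve_left hc)

/-- Four elements, for `GoodR`. Proof: let `a, b, c, d` be the weights of `s₁, s₂, s₃, s₄`,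
`W = a + b + c + d`. Choose `α ≠ 0` with `2 c (a + b + c) α ≠ a + c`: if `a + b + c = 0` then
`a + c = - b ≠ 0` and `α = 1`; otherwise at most one value is excluded and `α ∈ {1, -1}` (`1 ≠ -1`).
Let `g s₁ = 0`, `g s₂ = - 1 / W`, `g s₃ = - (a + b + c - d) α / W`. Apply `exists_goodK` to
`S₀ = {s₁, s₂, s₃}`, `P = g`, `Q s₁ = Q s₂ = 0`, `Q s₃ = α`, `ω = d`, `h` the function with `h s₁ s₂ =
h s₂ s₁ = α` and zero on the other pairs of `S₀`. For `x` with `a x₁ + b x₂ + c x₃ = 0`: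
`Kop x s₁ = b α (x₁ - x₂) + c α x₃`, `Kop x s₂ = a α (x₂ - x₁) + x₂ + c α x₃`,
`Kop x s₃ = (a + b + 2 c) α x₃`. `h1`: if `Kop x = z x` and `x₃ = 0`, then `a` times the first plus `b`
times the second equation give `b x₂ = 0`, so `x = 0`; if `x₃ ≠ 0`, then `z = (a + b + 2 c) α`, and replacing
`c x₃ = - a x₁ - b x₂` the first two equations become `(a + c) x₁ + b x₂ = 0` and
`- 2 a α x₁ - 2 (b + c) α x₂ + x₂ = 0`, hence `(2 c (a + b + c) α - (a + c)) x₁ = 0`, `x₁ = 0`, `x₂ = 0`,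
`x₃ = 0`. `h2`: `x = (c, 0, - a)`, `z = (a + b) α`, `t = - 2 a c α`. Let `y` be the value given by
`exists_goodK`; `g s₄ = y` and `goodR_insert` (with `b = s₄`, `S = S₀`, `g = Q`, `u = P`). -/
theorem exists_goodR_four [DecidableEq ι] [Fact ℓ.Prime] (hℓ2 : ℓ ≠ 2) {w : ι → ZMod ℓ}
    {s₁ s₂ s₃ s₄ : ι} (h12 : s₁ ≠ s₂) (h13 : s₁ ≠ s₃) (h14 : s₁ ≠ s₄) (h23 : s₂ ≠ s₃)
    (h24 : s₂ ≠ s₄) (h34 : s₃ ≠ s₄) (hw1 : w s₁ ≠ 0) (hw2 : w s₂ ≠ 0) (hw3 : w s₃ ≠ 0)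
    (hw4 : w s₄ ≠ 0) (hW : w s₁ + w s₂ + w s₃ + w s₄ ≠ 0) :
    ∃ (α : ZMod ℓ) (g : ι → ZMod ℓ), ∀ h : ι → ι → ZMod ℓ,
      h s₁ s₂ = α → h s₂ s₁ = α → h s₃ s₄ = α → h s₄ s₃ = α → h s₁ s₃ = 0 → h s₃ s₁ = 0 →
      h s₁ s₄ = 0 → h s₄ s₁ = 0 → h s₂ s₃ = 0 → h s₃ s₂ = 0 → h s₂ s₄ = 0 → h s₄ s₂ = 0 →
      GoodR w h g {s₁, s₂, s₃, s₄} := by
  obtain ⟨α, hα, hα2⟩ := alpha_h92 hℓ2 (a := w s₁) hw2 hw3
  obtain ⟨V, hV⟩ : ∃ V : ZMod ℓ, (w s₁ + w s₂ + w s₃ + w s₄) * V = 1 := ⟨_, mul_inv_cancel₀ hW⟩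
  have hsum : ∀ f : ι → ZMod ℓ, ∑ l ∈ ({s₁, s₂, s₃} : Finset ι), f l = f s₁ + (f s₂ + f s₃) := by
    intro f
    rw [Finset.sum_insert (by simp [h12, h13]), Finset.sum_pair h23]
  obtain ⟨g0, g01, g02, g03⟩ : ∃ g0 : ι → ZMod ℓ, g0 s₁ = 0 ∧ g0 s₂ = -V ∧
      g0 s₃ = -((w s₁ + w s₂ + w s₃ - w s₄) * α * V) := by
    refine ⟨fun i => if i = s₁ then 0 else if i = s₂ then -V else
      -((w s₁ + w s₂ + w s₃ - w s₄) * α * V), ?_, ?_, ?_⟩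
    · simp
    · simp [h12.symm]
    · simp [h13.symm, h23.symm]
  obtain ⟨Q, Q1, Q2, Q3⟩ : ∃ Q : ι → ZMod ℓ, Q s₁ = 0 ∧ Q s₂ = 0 ∧ Q s₃ = α := by
    refine ⟨fun i => if i = s₃ then α else 0, ?_, ?_, ?_⟩
    · simp [h13]
    · simp [h23]
    · simp
  obtain ⟨h0, hsym, t11, t12, t13, t22, t23, t33⟩ : ∃ h0 : ι → ι → ZMod ℓ, (∀ i l, h0 i l = h0 l i) ∧
      h0 s₁ s₁ = 0 ∧ h0 s₁ s₂ = α ∧ h0 s₁ s₃ = 0 ∧ h0 s₂ s₂ = 0 ∧ h0 s₂ s₃ = 0 ∧ h0 s₃ s₃ = 0 := by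
    refine ⟨fun i l => if (i = s₁ ∧ l = s₂) ∨ (i = s₂ ∧ l = s₁) then α else 0, ?_, ?_, ?_, ?_, ?_, ?_, ?_⟩
    · intro i l
      exact if_congr (by tauto) rfl rfl
    · simp [h12]
    · simp
    · simp [h13.symm, h23.symm]
    · simp [h12.symm]
    · simp [h13.symm, h23.symm]
    · simp [h13.symm, h23.symm]
  have t21 : h0 s₂ s₁ = α := by rw [hsym, t12]
  have t31 : h0 s₃ s₁ = 0 := by rw [hsym, t13]
  have t32 : h0 s₃ s₂ = 0 := by rw [hsym, t23]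
  have K1 : ∀ x : ι → ZMod ℓ, Kop w h0 g0 Q (w s₄) {s₁, s₂, s₃} x s₁ =
      w s₂ * α * (x s₁ - x s₂) + w s₃ * α * x s₃ := by
    intro x
    unfold Kop
    rw [hsum, hsum, t11, t12, t13, g01, Q1, Q2, Q3]
    ring
  have K2 : ∀ x : ι → ZMod ℓ, w s₁ * x s₁ + (w s₂ * x s₂ + w s₃ * x s₃) = 0 →
      Kop w h0 g0 Q (w s₄) {s₁, s₂, s₃} x s₂ =
      w s₁ * α * (x s₂ - x s₁) + x s₂ + w s₃ * α * x s₃ := by
    intro x hσ
    unfold Kop
    rw [hsum, hsum, t21, t22, t23, g02, Q1, Q2, Q3]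
    linear_combination x s₂ * hV - V * hσ
  have K3 : ∀ x : ι → ZMod ℓ, w s₁ * x s₁ + (w s₂ * x s₂ + w s₃ * x s₃) = 0 →
      Kop w h0 g0 Q (w s₄) {s₁, s₂, s₃} x s₃ = (w s₁ + w s₂ + 2 * w s₃) * α * x s₃ := by
    intro x hσ
    unfold Kop
    rw [hsum, hsum, t31, t32, t33, g03, Q1, Q2, Q3]
    linear_combination (w s₁ + w s₂ + w s₃ - w s₄) * α * x s₃ * hV -
      (w s₁ + w s₂ + w s₃ - w s₄) * α * V * hσ
  have m1 : s₁ ∈ ({s₁, s₂, s₃} : Finset ι) := by simp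
  have m2 : s₂ ∈ ({s₁, s₂, s₃} : Finset ι) := by simp
  have m3 : s₃ ∈ ({s₁, s₂, s₃} : Finset ι) := by simp
  have hall : ∀ p : ι → Prop, p s₁ → p s₂ → p s₃ → ∀ i ∈ ({s₁, s₂, s₃} : Finset ι), p i := by
    intro p p1 p2 p3 i hi
    simp only [Finset.mem_insert, Finset.mem_singleton] at hi
    rcases hi with rfl | rfl | rfl
    · exact p1
    · exact p2
    · exact p3
  have hmain : ∃ y, GoodK w h0 g0 Q (w s₄) y {s₁, s₂, s₃} := by
    refine exists_goodK (fun i _ l _ => hsym i l) hw4 ?_ ?_ ?_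
    · rw [hsum]
      intro h
      apply hW
      linear_combination h
    · intro x z hσ hx
      rw [hsum] at hσ
      have e1 := hx s₁ m1
      have e2 := hx s₂ m2
      have e3 := hx s₃ m3
      rw [K1] at e1
      rw [K2 x hσ] at e2
      rw [K3 x hσ] at e3
      obtain ⟨r1, r2, r3⟩ := lin_h92 hℓ2 hw1 hw2 hw3 hα hα2 hσ e1 e2 e3
      exact hall _ r1 r2 r3
    · obtain ⟨x, x1, x2, x3⟩ : ∃ x : ι → ZMod ℓ, x s₁ = w s₃ ∧ x s₂ = 0 ∧ x s₃ = -w s₁ := by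
        refine ⟨fun i => if i = s₁ then w s₃ else if i = s₂ then 0 else -w s₁, ?_, ?_, ?_⟩
        · simp
        · simp [h12.symm]
        · simp [h13.symm, h23.symm]
      have hσ : w s₁ * x s₁ + (w s₂ * x s₂ + w s₃ * x s₃) = 0 := by
        rw [x1, x2, x3]; ring
      refine ⟨x, (w s₁ + w s₂) * α, -2 * w s₁ * w s₃ * α, ⟨s₁, m1, by rw [x1]; exact hw3⟩, ?_, ?_⟩
      · rw [hsum]; exact hσ
      · apply hall
        · rw [K1, x1, x2, x3]; ring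
        · rw [K2 x hσ, x1, x2, x3]; ring
        · rw [K3 x hσ, x3]; ring
  obtain ⟨y, hy⟩ := hmain
  refine ⟨α, fun i => if i = s₄ then y else g0 i, ?_⟩
  intro h e12 e21 e34 e43 e13 e31 e14 e41 e23 e32 e24 e42
  have hset : ({s₁, s₂, s₃, s₄} : Finset ι) = insert s₄ {s₁, s₂, s₃} := by
    ext i
    simp only [Finset.mem_insert, Finset.mem_singleton]
    tauto
  rw [hset]
  refine goodR_insert (b := s₄) (by simp [h14.symm, h24.symm, h34.symm]) hy ?_ ?_ ?_ ?_ ?_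
  · apply hall
    · apply hall
      · intro hne; exact absurd rfl hne
      · intro _; rw [e12, t12]
      · intro _; rw [e13, t13]
    · apply hall
      · intro _; rw [e21, t21]
      · intro hne; exact absurd rfl hne
      · intro _; rw [e23, t23]
    · apply hall
      · intro _; rw [e31, t31]
      · intro _; rw [e32, t32]
      · intro hne; exact absurd rfl hne
  · apply hall
    · rw [e14, Q1]
    · rw [e24, Q2]
    · rw [e34, Q3]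
  · apply hall
    · rw [e41, Q1]
    · rw [e42, Q2]
    · rw [e43, Q3]
  · apply hall
    · simp [h14]
    · simp [h24]
    · simp [h34]
  · simp

end Pool.Agent.Lib.MP_89bcae_ag.Lr
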