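import Mathlib
import Pool.Agent.Lib.MP_89bcae_ag.Lr.Defs

namespace Pool.Agent.Lib.MP_89bcae_ag.Lr

variable {ι : Type} {ℓ : ℕ}

/-- Four elements, from `GoodR` to `GoodT`. Proof: let `ε, f, z` satisfy the hypotheses and
`φ(i, j, l) = ε i j + ε j l + ε l i`, `ψ₄ = φ(1, 2, 3)`, `ψ₃ = - φ(1, 2, 4)`, `ψ₂ = φ(1, 3, 4)`,
`ψ₁ = - φ(2, 3, 4)`; their sum is `0`. In the equations the terms `l = i`, `l = j` are zero. The sum of the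
equations of the pairs `(1, 2), (2, 3), (3, 1)` is
`z ψ₄ = w₃ (g₄ - c₁₂) ψ₄ - w₄ (g₃ - c₁₂) ψ₃ + w₁ (g₄ - c₂₃) ψ₄ - w₄ (g₁ - c₂₃) ψ₁ + w₂ (g₄ - c₁₃) ψ₄
- w₄ (g₂ - c₁₃) ψ₂`; here `c₁₂ = c₃₄`, `c₂₃ = c₁₄`, `c₁₃ = c₂₄`. In the same way for each `k`:
`z ψ_k = ∑_{l ≠ k} (w_l (g_k - c_kl) ψ_k - w_k (g_l - c_kl) ψ_l)`. Put `κ_k = ψ_k / w_k`; `∑ w_l κ_l = 0`,
so `∑_l w_l (c_kl - g_k) (κ_k - κ_l) = - z κ_k - ∑_l w_l g_l κ_l`. By `hR` `κ` is constant on `S`, and it is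
zero because `W κ_k = ∑ w_l κ_l = 0`. So all the `φ` are zero; take `b i = ε i s₁` for `i ≠ s₁`,
`b s₁ = 0`. -/
theorem goodT_four [DecidableEq ι] [Fact ℓ.Prime] {w : ι → ZMod ℓ} {c : Finset ι → ZMod ℓ}
    {g : ι → ZMod ℓ} {s₁ s₂ s₃ s₄ : ι} (h12 : s₁ ≠ s₂) (h13 : s₁ ≠ s₃) (h14 : s₁ ≠ s₄)
    (h23 : s₂ ≠ s₃) (h24 : s₂ ≠ s₄) (h34 : s₃ ≠ s₄) (hw1 : w s₁ ≠ 0) (hw2 : w s₂ ≠ 0)
    (hw3 : w s₃ ≠ 0) (hw4 : w s₄ ≠ 0) (hW : w s₁ + w s₂ + w s₃ + w s₄ ≠ 0)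
    (hR : GoodR w (fun i l => c {i, l}) g {s₁, s₂, s₃, s₄})
    (c1 : c {s₁, s₂} = c {s₃, s₄}) (c2 : c {s₁, s₃} = c {s₂, s₄}) (c3 : c {s₁, s₄} = c {s₂, s₃})
    (c4 : c {s₁, s₂, s₃} = g s₄) (c5 : c {s₁, s₂, s₄} = g s₃) (c6 : c {s₁, s₃, s₄} = g s₂)
    (c7 : c {s₂, s₃, s₄} = g s₁) :
    GoodT w c {s₁, s₂, s₃, s₄} := by
  intro ε f z hanti heq
  have m1 : s₁ ∈ ({s₁, s₂, s₃, s₄} : Finset ι) := by simp
  have m2 : s₂ ∈ ({s₁, s₂, s₃, s₄} : Finset ι) := by simp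
  have m3 : s₃ ∈ ({s₁, s₂, s₃, s₄} : Finset ι) := by simp
  have m4 : s₄ ∈ ({s₁, s₂, s₃, s₄} : Finset ι) := by simp
  have e21 : ε s₂ s₁ = - ε s₁ s₂ := hanti _ m1 _ m2 h12
  have e31 : ε s₃ s₁ = - ε s₁ s₃ := hanti _ m1 _ m3 h13
  have e41 : ε s₄ s₁ = - ε s₁ s₄ := hanti _ m1 _ m4 h14
  have e32 : ε s₃ s₂ = - ε s₂ s₃ := hanti _ m2 _ m3 h23
  have e42 : ε s₄ s₂ = - ε s₂ s₄ := hanti _ m2 _ m4 h24
  have e43 : ε s₄ s₃ = - ε s₃ s₄ := hanti _ m3 _ m4 h34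
  have hsum : ∀ F : ι → ZMod ℓ,
      ∑ l ∈ ({s₁, s₂, s₃, s₄} : Finset ι), F l = F s₁ + F s₂ + F s₃ + F s₄ := by
    intro F
    rw [Finset.sum_insert (by simp [h12, h13, h14]), Finset.sum_insert (by simp [h23, h24]),
      Finset.sum_insert (by simp [h34]), Finset.sum_singleton]
    ring
  have hl : ∀ a b : ι, ({a, b, a} : Finset ι) = {a, b} := by
    intro a b; ext x; simp; tauto
  have hr : ∀ a b : ι, ({a, b, b} : Finset ι) = {a, b} := by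
    intro a b; ext x; simp
  have t132 : ({s₁, s₃, s₂} : Finset ι) = {s₁, s₂, s₃} := by ext x; simp; tauto
  have t142 : ({s₁, s₄, s₂} : Finset ι) = {s₁, s₂, s₄} := by ext x; simp; tauto
  have t143 : ({s₁, s₄, s₃} : Finset ι) = {s₁, s₃, s₄} := by ext x; simp; tauto
  have t231 : ({s₂, s₃, s₁} : Finset ι) = {s₁, s₂, s₃} := by ext x; simp; tauto
  have t241 : ({s₂, s₄, s₁} : Finset ι) = {s₁, s₂, s₄} := by ext x; simp; tauto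
  have t243 : ({s₂, s₄, s₃} : Finset ι) = {s₂, s₃, s₄} := by ext x; simp; tauto
  have t341 : ({s₃, s₄, s₁} : Finset ι) = {s₁, s₃, s₄} := by ext x; simp; tauto
  have t342 : ({s₃, s₄, s₂} : Finset ι) = {s₂, s₃, s₄} := by ext x; simp; tauto
  have E12 := heq _ m1 _ m2 h12
  have E13 := heq _ m1 _ m3 h13
  have E14 := heq _ m1 _ m4 h14
  have E23 := heq _ m2 _ m3 h23
  have E24 := heq _ m2 _ m4 h24
  have E34 := heq _ m3 _ m4 h34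
  rw [hsum, hl, hr, c4, c5, c1] at E12
  rw [hsum, hl, hr, t132, c4, c6, c2] at E13
  rw [hsum, hl, hr, t142, t143, c5, c6, c3] at E14
  rw [hsum, hl, hr, t231, c4, c7] at E23
  rw [hsum, hl, hr, t241, t243, c5, c7] at E24
  rw [hsum, hl, hr, t341, t342, c6, c7] at E34
  simp only [sub_self, mul_zero, zero_mul, zero_add, add_zero, e21, e31, e41, e32, e42, e43] at E12
  simp only [sub_self, mul_zero, zero_mul, zero_add, add_zero, e21, e31, e41, e32, e42, e43] at E13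
  simp only [sub_self, mul_zero, zero_mul, zero_add, add_zero, e21, e31, e41, e32, e42, e43] at E14
  simp only [sub_self, mul_zero, zero_mul, zero_add, add_zero, e21, e31, e41, e32, e42, e43] at E23
  simp only [sub_self, mul_zero, zero_mul, zero_add, add_zero, e21, e31, e41, e32, e42, e43] at E24
  simp only [sub_self, mul_zero, zero_mul, zero_add, add_zero, e21, e31, e41, e32, e42, e43] at E34
  have P4 : z * (ε s₁ s₂ + ε s₂ s₃ - ε s₁ s₃) =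
      (w s₃ * (g s₄ - c {s₃, s₄}) + w s₁ * (g s₄ - c {s₂, s₃}) + w s₂ * (g s₄ - c {s₂, s₄})) *
        (ε s₁ s₂ + ε s₂ s₃ - ε s₁ s₃)
      - w s₄ * (g s₃ - c {s₃, s₄}) * (-(ε s₁ s₂ + ε s₂ s₄ - ε s₁ s₄))
      - w s₄ * (g s₁ - c {s₂, s₃}) * (-(ε s₂ s₃ + ε s₃ s₄ - ε s₂ s₄))
      - w s₄ * (g s₂ - c {s₂, s₄}) * (ε s₁ s₃ + ε s₃ s₄ - ε s₁ s₄) := by
    linear_combination -(E12 + E23 - E13)
  have P3 : z * (-(ε s₁ s₂ + ε s₂ s₄ - ε s₁ s₄)) =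
      (w s₄ * (g s₃ - c {s₃, s₄}) + w s₁ * (g s₃ - c {s₂, s₄}) + w s₂ * (g s₃ - c {s₂, s₃})) *
        (-(ε s₁ s₂ + ε s₂ s₄ - ε s₁ s₄))
      - w s₃ * (g s₄ - c {s₃, s₄}) * (ε s₁ s₂ + ε s₂ s₃ - ε s₁ s₃)
      - w s₃ * (g s₁ - c {s₂, s₄}) * (-(ε s₂ s₃ + ε s₃ s₄ - ε s₂ s₄))
      - w s₃ * (g s₂ - c {s₂, s₃}) * (ε s₁ s₃ + ε s₃ s₄ - ε s₁ s₄) := by
    linear_combination (E12 + E24 - E14)
  have P2 : z * (ε s₁ s₃ + ε s₃ s₄ - ε s₁ s₄) =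
      (w s₄ * (g s₂ - c {s₂, s₄}) + w s₁ * (g s₂ - c {s₃, s₄}) + w s₃ * (g s₂ - c {s₂, s₃})) *
        (ε s₁ s₃ + ε s₃ s₄ - ε s₁ s₄)
      - w s₂ * (g s₄ - c {s₂, s₄}) * (ε s₁ s₂ + ε s₂ s₃ - ε s₁ s₃)
      - w s₂ * (g s₁ - c {s₃, s₄}) * (-(ε s₂ s₃ + ε s₃ s₄ - ε s₂ s₄))
      - w s₂ * (g s₃ - c {s₂, s₃}) * (-(ε s₁ s₂ + ε s₂ s₄ - ε s₁ s₄)) := by
    linear_combination -(E13 + E34 - E14)
  have P1 : z * (-(ε s₂ s₃ + ε s₃ s₄ - ε s₂ s₄)) =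
      (w s₄ * (g s₁ - c {s₂, s₃}) + w s₂ * (g s₁ - c {s₃, s₄}) + w s₃ * (g s₁ - c {s₂, s₄})) *
        (-(ε s₂ s₃ + ε s₃ s₄ - ε s₂ s₄))
      - w s₁ * (g s₄ - c {s₂, s₃}) * (ε s₁ s₂ + ε s₂ s₃ - ε s₁ s₃)
      - w s₁ * (g s₂ - c {s₃, s₄}) * (ε s₁ s₃ + ε s₃ s₄ - ε s₁ s₄)
      - w s₁ * (g s₃ - c {s₂, s₄}) * (-(ε s₁ s₂ + ε s₂ s₄ - ε s₁ s₄)) := by
    linear_combination (E23 + E34 - E24)
  obtain ⟨k4, hk4⟩ : ∃ k4, ε s₁ s₂ + ε s₂ s₃ - ε s₁ s₃ = w s₄ * k4 :=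
    ⟨(w s₄)⁻¹ * (ε s₁ s₂ + ε s₂ s₃ - ε s₁ s₃), by rw [mul_inv_cancel_left₀ hw4]⟩
  obtain ⟨k3, hk3⟩ : ∃ k3, -(ε s₁ s₂ + ε s₂ s₄ - ε s₁ s₄) = w s₃ * k3 :=
    ⟨(w s₃)⁻¹ * (-(ε s₁ s₂ + ε s₂ s₄ - ε s₁ s₄)), by rw [mul_inv_cancel_left₀ hw3]⟩
  obtain ⟨k2, hk2⟩ : ∃ k2, ε s₁ s₃ + ε s₃ s₄ - ε s₁ s₄ = w s₂ * k2 :=
    ⟨(w s₂)⁻¹ * (ε s₁ s₃ + ε s₃ s₄ - ε s₁ s₄), by rw [mul_inv_cancel_left₀ hw2]⟩
  obtain ⟨k1, hk1⟩ : ∃ k1, -(ε s₂ s₃ + ε s₃ s₄ - ε s₂ s₄) = w s₁ * k1 :=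
    ⟨(w s₁)⁻¹ * (-(ε s₂ s₃ + ε s₃ s₄ - ε s₂ s₄)), by rw [mul_inv_cancel_left₀ hw1]⟩
  have hsum0 : w s₁ * k1 + w s₂ * k2 + w s₃ * k3 + w s₄ * k4 = 0 := by
    rw [← hk1, ← hk2, ← hk3, ← hk4]; ring
  rw [hk1, hk2, hk3, hk4] at P1 P2 P3 P4
  -- the function `κ`
  let κ : ι → ZMod ℓ := fun i => if i = s₁ then k1 else if i = s₂ then k2 else if i = s₃ then k3
    else k4
  have κ1 : κ s₁ = k1 := by simp [κ]
  have κ2 : κ s₂ = k2 := by simp [κ, h12.symm]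
  have κ3 : κ s₃ = k3 := by simp [κ, h13.symm, h23.symm]
  have κ4 : κ s₄ = k4 := by simp [κ, h14.symm, h24.symm, h34.symm]
  have p21 : ({s₂, s₁} : Finset ι) = {s₁, s₂} := Finset.pair_comm _ _
  have p31 : ({s₃, s₁} : Finset ι) = {s₁, s₃} := Finset.pair_comm _ _
  have p41 : ({s₄, s₁} : Finset ι) = {s₁, s₄} := Finset.pair_comm _ _
  have p32 : ({s₃, s₂} : Finset ι) = {s₂, s₃} := Finset.pair_comm _ _
  have p42 : ({s₄, s₂} : Finset ι) = {s₂, s₄} := Finset.pair_comm _ _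
  have p43 : ({s₄, s₃} : Finset ι) = {s₃, s₄} := Finset.pair_comm _ _
  have hk := hR κ (-z) (-(w s₁ * g s₁ * k1 + w s₂ * g s₂ * k2 + w s₃ * g s₃ * k3 +
    w s₄ * g s₄ * k4)) (by
      intro i hi
      rw [hsum, κ1, κ2, κ3, κ4]
      simp only [Finset.mem_insert, Finset.mem_singleton] at hi
      rcases hi with hi | hi | hi | hi
      · rw [hi, κ1]
        beta_reduce
        rw [c1, c2, c3]
        apply mul_left_cancel₀ hw1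
        linear_combination P1 + w s₁ * g s₁ * hsum0
      · rw [hi, κ2]
        beta_reduce
        rw [p21, c1]
        apply mul_left_cancel₀ hw2
        linear_combination P2 + w s₂ * g s₂ * hsum0
      · rw [hi, κ3]
        beta_reduce
        rw [p31, p32, c2]
        apply mul_left_cancel₀ hw3
        linear_combination P3 + w s₃ * g s₃ * hsum0
      · rw [hi, κ4]
        beta_reduce
        rw [p41, p42, p43, c3]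
        apply mul_left_cancel₀ hw4
        linear_combination P4 + w s₄ * g s₄ * hsum0)
  have k21 : k2 = k1 := by rw [← κ1, ← κ2]; exact hk _ m2 _ m1
  have k31 : k3 = k1 := by rw [← κ1, ← κ3]; exact hk _ m3 _ m1
  have k41 : k4 = k1 := by rw [← κ1, ← κ4]; exact hk _ m4 _ m1
  have k10 : k1 = 0 := by
    have h : (w s₁ + w s₂ + w s₃ + w s₄) * k1 = 0 := by
      rw [k21, k31, k41] at hsum0
      linear_combination hsum0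
    rcases mul_eq_zero.mp h with h | h
    · exact absurd h hW
    · exact h
  rw [k21, k10, mul_zero] at hk2
  rw [k31, k10, mul_zero] at hk3
  rw [k41, k10, mul_zero] at hk4
  rw [k10, mul_zero] at hk1
  refine ⟨fun i => if i = s₁ then 0 else ε i s₁, ?_⟩
  intro i hi j hj hij
  simp only [Finset.mem_insert, Finset.mem_singleton] at hi hj
  rcases hi with hi | hi | hi | hi <;> rcases hj with hj | hj | hj | hj <;> subst hi <;> subst hj <;>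
    first
    | exact absurd rfl hij
    | (simp only [h12, h13, h14, h23, h24, h34, h12.symm, h13.symm, h14.symm, h23.symm, h24.symm,
        h34.symm, if_true, if_false, e21, e31, e41, e32, e42, e43]
       first
       | ring1
       | linear_combination hk4
       | linear_combination -hk4
       | linear_combination hk3
       | linear_combination -hk3
       | linear_combination hk2
       | linear_combination -hk2)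

end Pool.Agent.Lib.MP_89bcae_ag.Lr
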