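import Mathlib
import Pool.Agent.Lib.MP_89bcae_ag.Lr.Defs

namespace Pool.Agent.Lib.MP_89bcae_ag.Lr

variable {ι : Type} {ℓ : ℕ}

/-- The symbols exist on `S`. -/
def Ex [DecidableEq ι] (w : ι → ZMod ℓ) (S : Finset ι) : Prop :=
  ∃ (c : Finset ι → ZMod ℓ) (g : ι → ZMod ℓ), GoodT w c S ∧ GoodR w (fun i l => c {i, l}) g S

end Pool.Agent.Lib.MP_89bcae_ag.Lr
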