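import Mathlib
import Pool.Agent.Lib.MP_89bcae_ag.Lr.Ex
import Pool.Agent.Lib.MP_89bcae_ag.Lr.A11
import Pool.Agent.Lib.MP_89bcae_ag.Lr.A12

namespace Pool.Agent.Lib.MP_89bcae_ag.Lr

variable {ι : Type} {ℓ : ℕ}

/-- Four elements. Proof: `Finset.card_eq_succ` (or `Finset.card_eq_three`, ...) gives
`S = {s₁, s₂, s₃, s₄}`; `exists_goodR_four` gives `α, g`; take
`c T = if T = {s₁, s₂} ∨ T = {s₃, s₄} then α else if T = {s₁, s₂, s₃} then g s₄ else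
if T = {s₁, s₂, s₄} then g s₃ else if T = {s₁, s₃, s₄} then g s₂ else if T = {s₂, s₃, s₄} then g s₁
else 0`; `goodT_four`. -/
theorem Ex.base [DecidableEq ι] [Fact ℓ.Prime] (hℓ2 : ℓ ≠ 2) {w : ι → ZMod ℓ} {S : Finset ι}
    (hS : S.card = 4) (hw : ∀ i ∈ S, w i ≠ 0) (hs : ∑ i ∈ S, w i ≠ 0) : Ex w S := by
  obtain ⟨s₁, S', h1, rfl, hS'⟩ := Finset.card_eq_succ.1 hS
  obtain ⟨s₂, s₃, s₄, h23, h24, h34, rfl⟩ := Finset.card_eq_three.1 hS'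
  simp only [Finset.mem_insert, Finset.mem_singleton, not_or] at h1
  obtain ⟨h12, h13, h14⟩ := h1
  have hW : w s₁ + w s₂ + w s₃ + w s₄ ≠ 0 := by
    have : ∑ i ∈ ({s₁, s₂, s₃, s₄} : Finset ι), w i = w s₁ + w s₂ + w s₃ + w s₄ := by
      rw [Finset.sum_insert (by simp [h12, h13, h14]), Finset.sum_insert (by simp [h23, h24]),
        Finset.sum_insert (by simp [h34]), Finset.sum_singleton]
      ring
    rwa [this] at hs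
  obtain ⟨α, g, hg⟩ := exists_goodR_four hℓ2 h12 h13 h14 h23 h24 h34 (hw s₁ (by simp))
    (hw s₂ (by simp)) (hw s₃ (by simp)) (hw s₄ (by simp)) hW
  let c : Finset ι → ZMod ℓ := fun T =>
    if (s₁ ∈ T ∧ s₂ ∈ T ∧ s₃ ∉ T ∧ s₄ ∉ T) ∨ (s₁ ∉ T ∧ s₂ ∉ T ∧ s₃ ∈ T ∧ s₄ ∈ T) then α
    else if s₁ ∈ T ∧ s₂ ∈ T ∧ s₃ ∈ T ∧ s₄ ∉ T then g s₄
    else if s₁ ∈ T ∧ s₂ ∈ T ∧ s₃ ∉ T ∧ s₄ ∈ T then g s₃
    else if s₁ ∈ T ∧ s₂ ∉ T ∧ s₃ ∈ T ∧ s₄ ∈ T then g s₂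
    else if s₁ ∉ T ∧ s₂ ∈ T ∧ s₃ ∈ T ∧ s₄ ∈ T then g s₁
    else 0
  have hR : GoodR w (fun i l => c {i, l}) g {s₁, s₂, s₃, s₄} := by
    apply hg <;>
      simp [c, h12, h13, h14, h23, h24, h34, Ne.symm h12, Ne.symm h13, Ne.symm h14, Ne.symm h23,
        Ne.symm h24, Ne.symm h34]
  refine ⟨c, g, ?_, hR⟩
  refine goodT_four h12 h13 h14 h23 h24 h34 (hw s₁ (by simp))
    (hw s₂ (by simp)) (hw s₃ (by simp)) (hw s₄ (by simp)) hW hR ?_ ?_ ?_ ?_ ?_ ?_ ?_ <;>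
      simp [c, h12, h13, h14, h23, h24, h34, Ne.symm h12, Ne.symm h13, Ne.symm h14, Ne.symm h23,
        Ne.symm h24, Ne.symm h34]

end Pool.Agent.Lib.MP_89bcae_ag.Lr
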