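import Mathlib
import Pool.Agent.Lib.MP_89bcae_ag.Lr.Defs

namespace Pool.Agent.Lib.MP_89bcae_ag.Lr

variable {ι : Type} {ℓ : ℕ}

/-- A function without zeros and with weighted sum zero. Proof: two elements `i ≠ j` of `S`
(`Finset.one_lt_card`); take `κ = 1` on the other elements; let `R` be the sum of the other `w_l`; need
`w_i κ_i + w_j κ_j = - R` with `κ_i, κ_j ≠ 0`: `κ_i = a / w_i`, `κ_j = (- R - a) / w_j` with `a ≠ 0`,
`a ≠ - R`; such an `a` exists because `ℓ ≥ 3` (`a = 1`, or `a = -1` (if `R = -1`), `1 ≠ -1`). -/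
theorem exists_ne_zero_sum_zero [Fact ℓ.Prime] (h2 : ℓ ≠ 2) {w : ι → ZMod ℓ} {S : Finset ι}
    (hS : 2 ≤ S.card) (hw : ∀ i ∈ S, w i ≠ 0) :
    ∃ κ : ι → ZMod ℓ, (∀ i ∈ S, κ i ≠ 0) ∧ ∑ i ∈ S, w i * κ i = 0 := by
  classical
  obtain ⟨i, hi, j, hj, hij⟩ := Finset.one_lt_card.mp (show 1 < S.card by omega)
  have hwi := hw i hi
  have hwj := hw j hj
  set R : ZMod ℓ := ∑ l ∈ (S.erase i).erase j, w l with hR
  have hone : (1 : ZMod ℓ) ≠ -1 := by
    intro h
    have h3 : ((2 : ℕ) : ZMod ℓ) = 0 := by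
      push_cast
      linear_combination h
    rw [ZMod.natCast_eq_zero_iff] at h3
    have := (Nat.prime_dvd_prime_iff_eq (Fact.out : ℓ.Prime) Nat.prime_two).mp h3
    exact h2 this
  obtain ⟨a, ha0, haR⟩ : ∃ a : ZMod ℓ, a ≠ 0 ∧ -R - a ≠ 0 := by
    by_cases hR1 : R = -1
    · refine ⟨-1, by simp, ?_⟩
      rw [hR1]
      intro h
      exact hone (by linear_combination h)
    · refine ⟨1, one_ne_zero, ?_⟩
      intro h
      exact hR1 (by linear_combination -h)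
  refine ⟨fun l => if l = i then a / w i else if l = j then (-R - a) / w j else 1, ?_, ?_⟩
  · intro l _
    beta_reduce
    split_ifs with h3 h4
    · exact div_ne_zero ha0 hwi
    · exact div_ne_zero haR hwj
    · exact one_ne_zero
  · beta_reduce
    have hj' : j ∈ S.erase i := Finset.mem_erase.mpr ⟨fun h => hij h.symm, hj⟩
    rw [← Finset.add_sum_erase S _ hi, ← Finset.add_sum_erase (S.erase i) _ hj']
    have h5 : ∑ x ∈ (S.erase i).erase j,
        w x * (if x = i then a / w i else if x = j then (-R - a) / w j else 1) = R := by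
      rw [hR]
      refine Finset.sum_congr rfl (fun x hx => ?_)
      have hxj : x ≠ j := (Finset.mem_erase.mp hx).1
      have hxi : x ≠ i := (Finset.mem_erase.mp (Finset.mem_erase.mp hx).2).1
      rw [if_neg hxi, if_neg hxj, mul_one]
    rw [h5, if_pos rfl, if_neg (fun h => hij h.symm), if_pos rfl]
    field_simp
    ring

/-- Not all `g` are good. Proof: `κ` from `exists_ne_zero_sum_zero`; `g_i = (∑ w_l h_il (κ_i - κ_l)) /
(W κ_i)` with `W = ∑ w_l`; then `∑_l w_l (h_il - g_i) (κ_i - κ_l) = 0` for all `i ∈ S`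
(`∑_l w_l (κ_i - κ_l) = W κ_i - 0`), so `GoodR` (with `z = μ = 0`) would imply that `κ` is constant on `S`,
equal to some `a ≠ 0`, and `∑ w_i κ_i = W a ≠ 0`. -/
theorem exists_not_goodR [Fact ℓ.Prime] (h2 : ℓ ≠ 2) {w : ι → ZMod ℓ} (h : ι → ι → ZMod ℓ)
    {S : Finset ι} (hS : 2 ≤ S.card) (hw : ∀ i ∈ S, w i ≠ 0) (hs : ∑ l ∈ S, w l ≠ 0) :
    ∃ g : ι → ZMod ℓ, ¬ GoodR w h g S := by
  obtain ⟨κ, hκ, hsum⟩ := exists_ne_zero_sum_zero h2 hS hw
  refine ⟨fun i => (∑ l ∈ S, w l * h i l * (κ i - κ l)) / ((∑ l ∈ S, w l) * κ i), ?_⟩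
  intro hg
  have hconst := hg κ 0 0 (by
    intro i hi
    beta_reduce
    have hκi := hκ i hi
    set g : ZMod ℓ := (∑ l ∈ S, w l * h i l * (κ i - κ l)) / ((∑ l ∈ S, w l) * κ i) with hgdef
    have h3 : ∑ l ∈ S, w l * (h i l - g) * (κ i - κ l) =
        ∑ l ∈ S, w l * h i l * (κ i - κ l) - g * ((∑ l ∈ S, w l) * κ i) + g * ∑ l ∈ S, w l * κ l := by
      rw [Finset.sum_mul, Finset.mul_sum, Finset.mul_sum, ← Finset.sum_sub_distrib, ← Finset.sum_add_distrib]
      exact Finset.sum_congr rfl (fun l _ => by ring)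
    rw [h3, hsum, hgdef, div_mul_cancel₀ _ (mul_ne_zero hs hκi)]
    ring)
  have hne : S.Nonempty := Finset.card_pos.mp (by omega)
  obtain ⟨i, hi⟩ := hne
  have h4 : (∑ l ∈ S, w l) * κ i = 0 := by
    rw [← hsum, Finset.sum_mul]
    exact Finset.sum_congr rfl (fun l hl => by rw [hconst i hi l hl])
  exact (mul_ne_zero hs (hκ i hi)) h4

end Pool.Agent.Lib.MP_89bcae_ag.Lr
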