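import Mathlib
import Pool.Agent.Lib.MP_89bcae_ag.Lr.A03

namespace Pool.Agent.Lib.MP_89bcae_ag.Lr

variable {ι : Type} {ℓ : ℕ}

/-- **Walls.** Proof: let `g₁` be not good (`exists_not_goodR`). Consider for a finite set `T ⊆ S` the
function `g_T` equal to `g₁` on `T` and to `g` elsewhere (`T.piecewise g₁ g`); `GoodR` depends only on the
values on `S`. `g_∅` is good, `g_S` is not. Take `T` minimal among the subsets with `g_T` not good, or do an
induction (`Finset.induction_on`: for all `T ⊆ S`, `g_T` is good, or there is a wall). For the step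
`insert k T`, `k ∉ T`, `k ∈ S`: `g_{insert k T} = Function.update g_T k (g₁ k)`. -/
theorem exists_wall [DecidableEq ι] [Fact ℓ.Prime] (h2 : ℓ ≠ 2) {w : ι → ZMod ℓ} {h : ι → ι → ZMod ℓ}
    {g : ι → ZMod ℓ} {S : Finset ι} (hS : 2 ≤ S.card) (hw : ∀ i ∈ S, w i ≠ 0)
    (hs : ∑ l ∈ S, w l ≠ 0) (hg : GoodR w h g S) :
    ∃ (g' : ι → ZMod ℓ) (k : ι) (a : ZMod ℓ), GoodR w h g' S ∧ k ∈ S ∧
      ¬ GoodR w h (Function.update g' k (g' k + a)) S := by
  obtain ⟨g₁, hg₁⟩ := exists_not_goodR h2 h hS hw hs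
  by_contra hcon
  have hcon' : ∀ (g' : ι → ZMod ℓ) (k : ι) (a : ZMod ℓ), GoodR w h g' S → k ∈ S →
      GoodR w h (Function.update g' k (g' k + a)) S := by
    intro g' k a h1 h3
    by_contra h4
    exact hcon ⟨g', k, a, h1, h3, h4⟩
  have key : ∀ T : Finset ι, T ⊆ S → GoodR w h (T.piecewise g₁ g) S := by
    intro T
    induction T using Finset.induction_on with
    | empty =>
      intro _
      rw [Finset.piecewise_empty]
      exact hg
    | insert k T hk ih =>
      intro hT
      have h1 := ih (fun x hx => hT (Finset.mem_insert_of_mem hx))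
      have h3 := hcon' (T.piecewise g₁ g) k (g₁ k - (T.piecewise g₁ g) k) h1
        (hT (Finset.mem_insert_self _ _))
      rw [Finset.piecewise_insert]
      have e : (T.piecewise g₁ g) k + (g₁ k - (T.piecewise g₁ g) k) = g₁ k := by ring
      rw [e] at h3
      exact h3
  have h3 := key S (Finset.Subset.refl _)
  apply hg₁
  intro κ z μ hκ
  apply h3 κ z μ
  intro i hi
  rw [Finset.piecewise_eq_of_mem _ _ _ hi]
  exact hκ i hi

end Pool.Agent.Lib.MP_89bcae_ag.Lr
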