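import Mathlib
import Pool.Agent.Lib.MP_89bcae_ag.Lr.A02

namespace Pool.Agent.Lib.MP_89bcae_ag.Lr

variable {ι : Type} {ℓ : ℕ}

theorem Kop_formula_h46 {w : ι → ZMod ℓ} {h : ι → ι → ZMod ℓ} {P Q : ι → ZMod ℓ} {ω : ZMod ℓ}
    {S : Finset ι} {x : ι → ZMod ℓ} (hx : ∑ l ∈ S, w l * x l = 0) (i : ι) :
    Kop w h P Q ω S x i = ∑ l ∈ S, w l * h i l * (x i - x l) - (∑ l ∈ S, w l) * P i * x i
      + ω * (Q i - P i) * x i + ∑ l ∈ S, w l * Q l * x l := by
  unfold Kop
  have h1 : ∑ l ∈ S, w l * (h i l - P i) * (x i - x l) =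
      ∑ l ∈ S, w l * h i l * (x i - x l) - (∑ l ∈ S, w l) * P i * x i + P i * ∑ l ∈ S, w l * x l := by
    rw [Finset.sum_mul, Finset.sum_mul, Finset.mul_sum, ← Finset.sum_sub_distrib, ← Finset.sum_add_distrib]
    exact Finset.sum_congr rfl (fun l _ => by ring)
  rw [h1, hx]
  ring

theorem antisymm_sum_h46 {w : ι → ZMod ℓ} {h : ι → ι → ZMod ℓ}
    {S : Finset ι} (x : ι → ZMod ℓ) (hh : ∀ i ∈ S, ∀ l ∈ S, h i l = h l i) :
    ∑ i ∈ S, w i * ∑ l ∈ S, w l * h i l * (x i - x l) = 0 := by
  have e1 : ∑ i ∈ S, w i * ∑ l ∈ S, w l * h i l * (x i - x l) =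
      ∑ i ∈ S, ∑ l ∈ S, w i * w l * h i l * x i - ∑ i ∈ S, ∑ l ∈ S, w i * w l * h i l * x l := by
    rw [← Finset.sum_sub_distrib]
    refine Finset.sum_congr rfl (fun i _ => ?_)
    rw [Finset.mul_sum, ← Finset.sum_sub_distrib]
    exact Finset.sum_congr rfl (fun l _ => by ring)
  have e2 : ∑ i ∈ S, ∑ l ∈ S, w i * w l * h i l * x l = ∑ i ∈ S, ∑ l ∈ S, w i * w l * h i l * x i := by
    rw [Finset.sum_comm]
    refine Finset.sum_congr rfl (fun i hi => Finset.sum_congr rfl (fun l hl => ?_))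
    rw [hh l hl i hi]
    ring
  rw [e1, e2, sub_self]

/-- A wall gives a good pencil, first form. Proof: let `W = ∑ w_l`, `c₁ = W a / (W + ω)`, `P` the updated
function, `Q = g`; note `a ≠ 0` (otherwise the update is `g`), so `c₁ ≠ 0`. If `∑ w_l x_l = 0` then
`Kop x i = (∑_l w_l h_il (x_i - x_l)) - W g_i x_i - [i = k] (W + ω) c₁ x_k + G`, `G = ∑ w_l g_l x_l`.
`exists_goodK`, `h1`: if moreover `Kop x i = z x_i` on `S`: multiply by `w_i` and sum over `i`: the sum of
`w_i w_l h_il (x_i - x_l)` is `0` (`h` symmetric), so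
`- W G - (W + ω) c₁ w_k x_k + W G = 0`, `x_k = 0`; then
`∑_l w_l (h_il - g_i) (x_i - x_l) = z x_i - G`, so by `hg` `x` is constant on `S`, and it is zero because
`W x_i = ∑ w_l x_l = 0`. `h2`: `hbad` gives `κ, z, μ`, with the equation for the updated
`g'_k = g_k + a`, not constant on `S`; put `x = κ - (∑ w_l κ_l) / W`: weighted sum zero, not zero on `S`
and `(∑_l w_l h_il (x_i - x_l)) - W g'_i x_i = z x_i + μ'`; as `(W + ω) c₁ = W a`,
`Kop x i = z x_i + μ' + G`. -/
theorem exists_goodK_of_wall [DecidableEq ι] [Fact ℓ.Prime] {w : ι → ZMod ℓ} {h : ι → ι → ZMod ℓ}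
    {g : ι → ZMod ℓ} {S : Finset ι} {k : ι} {a ω : ZMod ℓ} (hh : ∀ i ∈ S, ∀ l ∈ S, h i l = h l i)
    (hW : ∑ l ∈ S, w l ≠ 0) (hω : ω ≠ 0) (hWω : ∑ l ∈ S, w l + ω ≠ 0) (hg : GoodR w h g S)
    (hk : k ∈ S) (hwk : w k ≠ 0) (hbad : ¬ GoodR w h (Function.update g k (g k + a)) S) :
    ∃ y, GoodK w h (Function.update g k (g k + (∑ l ∈ S, w l) * a / (∑ l ∈ S, w l + ω))) g ω y S := by
  have ha : a ≠ 0 := by
    rintro rfl
    apply hbad
    rw [add_zero, Function.update_eq_self]
    exact hg
  set W : ZMod ℓ := ∑ l ∈ S, w l with hWdef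
  set c₁ : ZMod ℓ := W * a / (W + ω) with hc₁
  have hc₁0 : c₁ ≠ 0 := div_ne_zero (mul_ne_zero hW ha) hWω
  have hc₁' : (W + ω) * c₁ = W * a := by
    rw [hc₁]
    field_simp
  -- the formula for `Kop`
  have hK : ∀ x : ι → ZMod ℓ, ∑ l ∈ S, w l * x l = 0 → ∀ i,
      Kop w h (Function.update g k (g k + c₁)) g ω S x i =
        ∑ l ∈ S, w l * h i l * (x i - x l) - W * g i * x i - (if i = k then W * a * x i else 0)
          + ∑ l ∈ S, w l * g l * x l := by
    intro x hx i
    rw [Kop_formula_h46 hx i]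
    by_cases hik : i = k
    · subst hik
      rw [if_pos rfl, Function.update_self, ← hc₁', ← hWdef]
      ring
    · rw [if_neg hik, Function.update_of_ne hik, ← hWdef]
      ring
  refine exists_goodK hh hω hWω ?_ ?_
  · intro x z hx hKx
    have hsum : ∑ i ∈ S, w i * Kop w h (Function.update g k (g k + c₁)) g ω S x i = 0 := by
      have : ∑ i ∈ S, w i * Kop w h (Function.update g k (g k + c₁)) g ω S x i =
          z * ∑ i ∈ S, w i * x i := by
        rw [Finset.mul_sum]
        exact Finset.sum_congr rfl (fun i hi => by rw [hKx i hi]; ring)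
      rw [this, hx, mul_zero]
    have hG : W * ∑ l ∈ S, w l * g l * x l = ∑ i ∈ S, w i * ∑ l ∈ S, w l * g l * x l := by
      rw [← Finset.sum_mul]
    have hsum2 : ∑ i ∈ S, w i * Kop w h (Function.update g k (g k + c₁)) g ω S x i =
        ∑ i ∈ S, w i * ∑ l ∈ S, w l * h i l * (x i - x l) - ∑ i ∈ S, W * (w i * g i * x i)
          - ∑ i ∈ S, (if i = k then w k * (W * a * x k) else 0) + ∑ i ∈ S, w i * ∑ l ∈ S, w l * g l * x l := by
      rw [← Finset.sum_sub_distrib, ← Finset.sum_sub_distrib, ← Finset.sum_add_distrib]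
      refine Finset.sum_congr rfl (fun i _ => ?_)
      rw [hK x hx i]
      by_cases hik : i = k
      · subst hik
        rw [if_pos rfl, if_pos rfl]
        ring
      · rw [if_neg hik, if_neg hik]
        ring
    rw [← Finset.mul_sum, ← hG] at hsum2
    rw [hsum, antisymm_sum_h46 x hh, Finset.sum_ite_eq' S k (fun _ => w k * (W * a * x k)), if_pos hk] at hsum2
    have hxk : x k = 0 := by
      have h3 : w k * (W * a * x k) = 0 := by linear_combination hsum2
      rcases mul_eq_zero.mp h3 with h4 | h4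
      · exact absurd h4 hwk
      · rcases mul_eq_zero.mp h4 with h5 | h5
        · exact absurd h5 (mul_ne_zero hW ha)
        · exact h5
    have hconst := hg x z (-(∑ l ∈ S, w l * g l * x l)) (by
      intro i hi
      have h6 := hKx i hi
      rw [hK x hx i] at h6
      have h7 : (if i = k then W * a * x i else 0) = 0 := by
        split_ifs with hik
        · rw [hik, hxk, mul_zero]
        · rfl
      rw [h7] at h6
      have h8 : ∑ l ∈ S, w l * (h i l - g i) * (x i - x l) =
          ∑ l ∈ S, w l * h i l * (x i - x l) - W * g i * x i + g i * ∑ l ∈ S, w l * x l := by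
        rw [hWdef, Finset.sum_mul, Finset.sum_mul, Finset.mul_sum, ← Finset.sum_sub_distrib, ← Finset.sum_add_distrib]
        exact Finset.sum_congr rfl (fun l _ => by ring)
      rw [h8, hx]
      linear_combination h6)
    intro i hi
    have h9 : W * x i = 0 := by
      rw [← hx, hWdef, Finset.sum_mul]
      exact Finset.sum_congr rfl (fun l hl => by rw [hconst i hi l hl])
    rcases mul_eq_zero.mp h9 with h10 | h10
    · exact absurd h10 hW
    · exact h10
  · unfold GoodR at hbad
    push Not at hbad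
    obtain ⟨κ, z, μ, hκ, i₀, hi₀, j₀, hj₀, hne⟩ := hbad
    set m : ZMod ℓ := (∑ l ∈ S, w l * κ l) / W with hm
    have hx : ∑ l ∈ S, w l * (κ l - m) = 0 := by
      have : ∑ l ∈ S, w l * (κ l - m) = ∑ l ∈ S, w l * κ l - W * m := by
        rw [hWdef, Finset.sum_mul, ← Finset.sum_sub_distrib]
        exact Finset.sum_congr rfl (fun l _ => by ring)
      rw [this, hm]
      field_simp
      ring
    refine ⟨fun l => κ l - m, z, z * m + μ + ∑ l ∈ S, w l * g l * (κ l - m), ?_, hx, ?_⟩
    · by_contra hcon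
      push Not at hcon
      have e1 := hcon i₀ hi₀
      have e2 := hcon j₀ hj₀
      beta_reduce at e1 e2
      exact hne (by linear_combination e1 - e2)
    · intro i hi
      rw [hK _ hx i]
      have h1 := hκ i hi
      have h2 : ∑ l ∈ S, w l * (h i l - Function.update g k (g k + a) i) * (κ i - κ l) =
          ∑ l ∈ S, w l * h i l * ((κ i - m) - (κ l - m)) - W * Function.update g k (g k + a) i * (κ i - m)
            + Function.update g k (g k + a) i * ∑ l ∈ S, w l * (κ l - m) := by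
        rw [hWdef, Finset.sum_mul, Finset.sum_mul, Finset.mul_sum, ← Finset.sum_sub_distrib, ← Finset.sum_add_distrib]
        exact Finset.sum_congr rfl (fun l _ => by ring)
      rw [h2, hx] at h1
      by_cases hik : i = k
      · subst hik
        rw [Function.update_self] at h1
        rw [if_pos rfl]
        linear_combination h1
      · rw [Function.update_of_ne hik] at h1
        rw [if_neg hik]
        linear_combination h1

end Pool.Agent.Lib.MP_89bcae_ag.Lr
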