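import Mathlib
import Pool.Agent.Lib.MP_89bcae_ag.Lr.Defs

namespace Pool.Agent.Lib.MP_89bcae_ag.Lr

variable {ι : Type} {ℓ : ℕ}

/-- One more element `b`, for `GoodT`. Proof: let `ε, f, z` satisfy the hypotheses on `insert b S`.
(a) For `i ≠ j` in `S` the term `l = b` of the sum is zero (`c' {i, j, b} = c {i, j} = c' {i, j}`; note
`{i, j, b} = {b, i, j}`), and the terms `l = i`, `l = j` are zero on both sides (`{i, j, i} = {i, j}` as
finsets). So the hypotheses of `hT` hold on `S` and there is `b₀` with `ε i j = b₀ i - b₀ j` for `i ≠ j` in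
`S`. (b) Then the left side of the equation for `i ≠ j` in `S` is `0` (for `l ≠ i, j` in `S` the sum
`ε i j + ε j l + ε l i` is `0`), so `z (b₀ i - b₀ j) + f i - f j = 0`: `z b₀ i + f i = m` for all `i ∈ S`
(`S` is not empty). (c) Put `κ i = ε b i + b₀ i` for `i ∈ S`. The equation for `b, i`: the terms `l = b`,
`l = i` are zero, for the other `l` in `S`, `c' {b, i, l} = c {i, l}`, `c' {b, i} = g i`,
`ε b i + ε i l + ε l b = κ i - κ l`. So
`∑ w_l (c {i, l} - g i) (κ i - κ l) = z ε b i + f b - f i = z κ i + (f b - m)`, and `κ` is constant on `S`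
by `hR`, `κ i = κ₀`. (d) Take `b₀` extended by `b ↦ κ₀` (`Function.update b₀ b κ₀`; on `S` it is `b₀`). -/
theorem goodT_insert [DecidableEq ι] {w : ι → ZMod ℓ} {c c' : Finset ι → ZMod ℓ}
    {g : ι → ZMod ℓ} {S : Finset ι} (hS : S.Nonempty) {b : ι} (hb : b ∉ S) (hT : GoodT w c S)
    (hR : GoodR w (fun i l => c {i, l}) g S)
    (h1 : ∀ i ∈ S, ∀ j ∈ S, ∀ l ∈ S, i ≠ j → j ≠ l → i ≠ l → c' {i, j, l} = c {i, j, l})
    (h2 : ∀ i ∈ S, ∀ j ∈ S, i ≠ j → c' {i, j} = c {i, j})
    (h3 : ∀ i ∈ S, ∀ j ∈ S, i ≠ j → c' {b, i, j} = c {i, j})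
    (h4 : ∀ i ∈ S, c' {b, i} = g i) :
    GoodT w c' (insert b S) := by
  intro ε f z hanti heq
  have hne : ∀ i ∈ S, b ≠ i := fun i hi h => hb (h ▸ hi)
  have e1 : ∀ i j : ι, ({i, j, i} : Finset ι) = {i, j} := by
    intro i j; ext x; simp only [Finset.mem_insert, Finset.mem_singleton]; tauto
  have e2 : ∀ i j : ι, ({i, j, j} : Finset ι) = {i, j} := by
    intro i j; ext x; simp only [Finset.mem_insert, Finset.mem_singleton]; tauto
  have e3 : ∀ i j k : ι, ({i, j, k} : Finset ι) = {k, i, j} := by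
    intro i j k; ext x; simp only [Finset.mem_insert, Finset.mem_singleton]; tauto
  have ha : ∀ i ∈ S, ∀ j ∈ S, i ≠ j → ∀ F : ι → ZMod ℓ,
      ∑ l ∈ insert b S, w l * (c' {i, j, l} - c' {i, j}) * F l =
        ∑ l ∈ S, w l * (c {i, j, l} - c {i, j}) * F l := by
    intro i hi j hj hij F
    rw [Finset.sum_insert hb, e3 i j b, h3 i hi j hj hij, h2 i hi j hj hij, sub_self, mul_zero,
      zero_mul, zero_add]
    refine Finset.sum_congr rfl fun l hl => ?_
    by_cases hli : i = l
    · subst hli
      rw [e1 i j, h2 i hi j hj hij]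
    · by_cases hlj : j = l
      · subst hlj
        rw [e2 i j, h2 i hi j hj hij]
      · rw [h1 i hi j hj l hl hij hlj hli]
  obtain ⟨b₀, hb₀⟩ := hT ε f z
    (fun i hi j hj hij => hanti i (Finset.mem_insert_of_mem hi) j (Finset.mem_insert_of_mem hj) hij)
    (fun i hi j hj hij => by
      rw [← ha i hi j hj hij (fun l => ε i j + ε j l + ε l i)]
      exact heq i (Finset.mem_insert_of_mem hi) j (Finset.mem_insert_of_mem hj) hij)
  have hb2 : ∀ i ∈ S, ∀ j ∈ S, z * b₀ i + f i = z * b₀ j + f j := by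
    intro i hi j hj
    by_cases hij : i = j
    · rw [hij]
    have h := heq i (Finset.mem_insert_of_mem hi) j (Finset.mem_insert_of_mem hj) hij
    rw [ha i hi j hj hij (fun l => ε i j + ε j l + ε l i)] at h
    have h0 : ∑ l ∈ S, w l * (c {i, j, l} - c {i, j}) * (ε i j + ε j l + ε l i) = 0 := by
      refine Finset.sum_eq_zero fun l hl => ?_
      by_cases hli : i = l
      · subst hli
        rw [e1 i j, sub_self, mul_zero, zero_mul]
      · by_cases hlj : j = l
        · subst hlj
          rw [e2 i j, sub_self, mul_zero, zero_mul]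
        · rw [hb₀ i hi j hj hij, hb₀ j hj l hl hlj, hb₀ l hl i hi (Ne.symm hli)]
          ring
    rw [h0, hb₀ i hi j hj hij] at h
    linear_combination -h
  obtain ⟨s, hs⟩ := hS
  have hκ := hR (fun i => ε b i + b₀ i) z (f b - (z * b₀ s + f s)) (by
    intro i hi
    have h := heq b (Finset.mem_insert_self b S) i (Finset.mem_insert_of_mem hi) (hne i hi)
    rw [Finset.sum_insert hb, e1 b i, sub_self, mul_zero, zero_mul, zero_add] at h
    have h' : ∑ l ∈ S, w l * (c {i, l} - g i) * ((ε b i + b₀ i) - (ε b l + b₀ l)) =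
        ∑ l ∈ S, w l * (c' {b, i, l} - c' {b, i}) * (ε b i + ε i l + ε l b) := by
      refine Finset.sum_congr rfl fun l hl => ?_
      by_cases hil : i = l
      · subst hil
        rw [e2 b i]
        ring
      · rw [h3 i hi l hl hil, h4 i hi, hb₀ i hi l hl hil,
          hanti b (Finset.mem_insert_self b S) l (Finset.mem_insert_of_mem hl) (hne l hl)]
        ring
    rw [h', h]
    have := hb2 i hi s hs
    linear_combination -this)
  refine ⟨Function.update b₀ b (ε b s + b₀ s), ?_⟩
  intro i hi j hj hij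
  rw [Finset.mem_insert] at hi hj
  rcases hi with rfl | hi
  · rcases hj with rfl | hj
    · exact absurd rfl hij
    · rw [Function.update_self, Function.update_of_ne (Ne.symm hij)]
      have := hκ j hj s hs
      linear_combination this
  · rcases hj with rfl | hj
    · rw [Function.update_self, Function.update_of_ne hij,
        hanti _ (Finset.mem_insert_self _ S) i (Finset.mem_insert_of_mem hi) (Ne.symm hij)]
      have := hκ i hi s hs
      linear_combination -this
    · rw [Function.update_of_ne (hne i hi).symm, Function.update_of_ne (hne j hj).symm]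
      exact hb₀ i hi j hj hij

end Pool.Agent.Lib.MP_89bcae_ag.Lr
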