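import Mathlib
import Pool.Agent.Lib.MP_89bcae_ag.Lr.Ex
import Pool.Agent.Lib.MP_89bcae_ag.Lr.A04
import Pool.Agent.Lib.MP_89bcae_ag.Lr.A05
import Pool.Agent.Lib.MP_89bcae_ag.Lr.A07
import Pool.Agent.Lib.MP_89bcae_ag.Lr.A08

namespace Pool.Agent.Lib.MP_89bcae_ag.Lr

variable {ι : Type} {ℓ : ℕ}

/-- One more element. Proof: `c, g` from `hE`; `exists_wall` for `h i l = c {i, l}` (symmetric:
`Finset.pair_comm`) gives `g', k, a`; `exists_goodK_of_wall` with `ω = w b` gives `y`, with
`u = Function.update g' k (...)`. Let `c' T = if b ∈ T then (if (T.erase b).card = 1 then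
∑ i ∈ T.erase b, g' i else c (T.erase b)) else c T`: `goodT_insert` (with `g'`) and `goodR_insert` (with
`g'`, `u` and `u' = Function.update u b y`). -/
theorem Ex.step [DecidableEq ι] [Fact ℓ.Prime] (hℓ2 : ℓ ≠ 2) {w : ι → ZMod ℓ} {S : Finset ι}
    (hS : 2 ≤ S.card) (hw : ∀ i ∈ S, w i ≠ 0) (hs : ∑ i ∈ S, w i ≠ 0) {b : ι} (hb : b ∉ S)
    (hwb : w b ≠ 0) (hsb : ∑ i ∈ S, w i + w b ≠ 0) (hE : Ex w S) : Ex w (insert b S) := by
  obtain ⟨c, g, hT, hR⟩ := hE
  obtain ⟨g', k, a, hg', hk, hbad⟩ := exists_wall hℓ2 hS hw hs hR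
  have hh : ∀ i ∈ S, ∀ l ∈ S, (fun i l => c {i, l}) i l = (fun i l => c {i, l}) l i := by
    intro i _ l _
    exact congrArg c (Finset.pair_comm i l)
  obtain ⟨y, hK⟩ := exists_goodK_of_wall (ω := w b) hh hs hwb hsb hg' hk (hw k hk) hbad
  have hne : S.Nonempty := ⟨k, hk⟩
  have hSb : ∀ i ∈ S, i ≠ b := fun i hi h => hb (h ▸ hi)
  let c' : Finset ι → ZMod ℓ := fun T => if b ∈ T then
    (if (T.erase b).card = 1 then ∑ i ∈ T.erase b, g' i else c (T.erase b)) else c T
  have k1 : ∀ T : Finset ι, b ∉ T → c' T = c T := fun T hT' => if_neg hT'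
  have k2 : ∀ T : Finset ι, b ∉ T → c' (insert b T) =
      if T.card = 1 then ∑ i ∈ T, g' i else c T := by
    intro T hT'
    have e : (insert b T).erase b = T := Finset.erase_insert hT'
    have : c' (insert b T) = if ((insert b T).erase b).card = 1 then
        ∑ i ∈ (insert b T).erase b, g' i else c ((insert b T).erase b) :=
      if_pos (Finset.mem_insert_self b T)
    rw [this, e]
  have k3 : ∀ i ∈ S, c' {b, i} = g' i := by
    intro i hi
    have h1 : b ∉ ({i} : Finset ι) := by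
      rw [Finset.mem_singleton]; exact fun h => hSb i hi h.symm
    rw [k2 {i} h1, if_pos (Finset.card_singleton i), Finset.sum_singleton]
  have k4 : ∀ i ∈ S, ∀ j ∈ S, b ∉ ({i, j} : Finset ι) := by
    intro i hi j hj h
    rw [Finset.mem_insert, Finset.mem_singleton] at h
    rcases h with h | h
    · exact hSb i hi h.symm
    · exact hSb j hj h.symm
  have k5 : ∀ i ∈ S, ∀ j ∈ S, i ≠ j → c' {i, j} = c {i, j} := fun i hi j hj _ =>
    k1 _ (k4 i hi j hj)
  refine ⟨c', Function.update (Function.update g' k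
    (g' k + (∑ l ∈ S, w l) * a / (∑ l ∈ S, w l + w b))) b y, ?_, ?_⟩
  · refine goodT_insert (g := g') hne hb hT hg' ?_ k5 ?_ k3
    · intro i hi j hj l hl _ _ _
      refine k1 _ ?_
      intro h
      rw [Finset.mem_insert] at h
      rcases h with h | h
      · exact hSb i hi h.symm
      · exact k4 j hj l hl h
    · intro i hi j hj hij
      rw [k2 _ (k4 i hi j hj), if_neg]
      rw [Finset.card_pair hij]
      decide
  · refine goodR_insert hb hK k5 ?_ k3 ?_ (Function.update_self _ _ _)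
    · intro i hi
      show c' {i, b} = g' i
      rw [Finset.pair_comm]
      exact k3 i hi
    · intro i hi
      exact Function.update_of_ne (hSb i hi) _ _

end Pool.Agent.Lib.MP_89bcae_ag.Lr
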