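import Mathlib
import Pool.Agent.Lib.MP_89bcae_ag.Lr.Defs

namespace Pool.Agent.Lib.MP_89bcae_ag.Lr

variable {ι : Type} {ℓ : ℕ}

/-- Two more elements `b`, `b'` with the same weight `e`, for `GoodT`. Proof: let `ε, f, z` satisfy the
hypotheses on `insert b (insert b' S)`. (a) For `i ≠ j` in `S` the terms `l = b`, `l = b'` of the sum are
zero, and the terms `l = i`, `l = j` are zero (`{i, j, i} = {i, j}` as finsets): `hT` gives `b₀` with
`ε i j = b₀ i - b₀ j` for `i ≠ j` in `S`. (b) Then the left side for `i ≠ j` in `S` is `0`, so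
`z b₀ i + f i = m` for all `i ∈ S`. (c) Put `κ i = ε b i + b₀ i`, `κ' i = ε b' i + b₀ i`, `ρ = ε b b'`.
Equation for `b, i`: `∑_{l ∈ S} w_l (c {i, l} - g i) (κ i - κ l) + e (u i - g i) (κ i - κ' i - ρ) =
z κ i + (f b - m)`; for `b', i`: `∑ w_l (c {i, l} - g i) (κ' i - κ' l) + e (u i - g i) (κ' i - κ i + ρ) =
z κ' i + (f b' - m)`; for `b, b'`: `∑_{l ∈ S} w_l (u l - y) (ρ + κ' l - κ l) = z ρ + f b - f b'`.
(d) The sum of the first two: `κ + κ'` is constant on `S` by `hR`. (e) The difference of the first two minus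
the third: `x i = κ i - κ' i - ρ` satisfies `Kop w (c {·, ·}) g u (2 e) S x i - y ∑ w_l x_l = z x i`, so
`x = 0` on `S` by `hK`: `κ i - κ' i = ρ`. As `2 ≠ 0`, `κ = κ₀` and `κ' = κ₀'` are constant on `S`, with
`κ₀ - κ₀' = ρ`. (f) Take `b₀` extended by `b ↦ κ₀`, `b' ↦ κ₀'`. -/
theorem goodT_insert₂ [DecidableEq ι] [Fact ℓ.Prime] (hℓ2 : ℓ ≠ 2) {w : ι → ZMod ℓ}
    {c c' : Finset ι → ZMod ℓ} {g u : ι → ZMod ℓ} {S : Finset ι} (hS : S.Nonempty) {b b' : ι}
    (hb : b ∉ S) (hb' : b' ∉ S) (hbb' : b ≠ b') {e y : ZMod ℓ} (hwb : w b = e) (hwb' : w b' = e)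
    (hT : GoodT w c S) (hR : GoodR w (fun i l => c {i, l}) g S)
    (hK : GoodK w (fun i l => c {i, l}) g u (2 * e) y S)
    (h1 : ∀ i ∈ S, ∀ j ∈ S, ∀ l ∈ S, i ≠ j → j ≠ l → i ≠ l → c' {i, j, l} = c {i, j, l})
    (h2 : ∀ i ∈ S, ∀ j ∈ S, i ≠ j → c' {i, j} = c {i, j})
    (h3 : ∀ i ∈ S, ∀ j ∈ S, i ≠ j → c' {b, i, j} = c {i, j})
    (h3' : ∀ i ∈ S, ∀ j ∈ S, i ≠ j → c' {b', i, j} = c {i, j})
    (h4 : ∀ i ∈ S, c' {b, i} = g i) (h4' : ∀ i ∈ S, c' {b', i} = g i)
    (h5 : ∀ i ∈ S, c' {b, b', i} = u i) (h6 : c' {b, b'} = y) :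
    GoodT w c' (insert b (insert b' S)) := by
  intro ε f z hanti heq
  have hbS' : b ∉ insert b' S := by
    rw [Finset.mem_insert, not_or]; exact ⟨hbb', hb⟩
  have mS : ∀ i ∈ S, i ∈ insert b (insert b' S) := fun i hi =>
    Finset.mem_insert_of_mem (Finset.mem_insert_of_mem hi)
  have mb : b ∈ insert b (insert b' S) := Finset.mem_insert_self _ _
  have mb' : b' ∈ insert b (insert b' S) := Finset.mem_insert_of_mem (Finset.mem_insert_self _ _)
  have nb : ∀ i ∈ S, b ≠ i := fun i hi h => hb (h ▸ hi)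
  have nb' : ∀ i ∈ S, b' ≠ i := fun i hi h => hb' (h ▸ hi)
  have two_ne : (2 : ZMod ℓ) ≠ 0 := by
    intro h0
    have h1 : ((2 : ℕ) : ZMod ℓ) = 0 := by exact_mod_cast h0
    rw [ZMod.natCast_eq_zero_iff] at h1
    exact hℓ2 ((Nat.prime_dvd_prime_iff_eq Fact.out Nat.prime_two).mp h1)
  -- finset identities
  have t1 : ∀ i j : ι, ({i, j, i} : Finset ι) = {i, j} := by
    intro i j; ext a; simp only [Finset.mem_insert, Finset.mem_singleton]; tauto
  have t2 : ∀ i j : ι, ({i, j, j} : Finset ι) = {i, j} := by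
    intro i j; ext a; simp only [Finset.mem_insert, Finset.mem_singleton]; tauto
  have t3 : ∀ i j l : ι, ({i, j, l} : Finset ι) = {l, i, j} := by
    intro i j l; ext a; simp only [Finset.mem_insert, Finset.mem_singleton]; tauto
  have t4 : ∀ i j l : ι, ({i, j, l} : Finset ι) = {i, l, j} := by
    intro i j l; ext a; simp only [Finset.mem_insert, Finset.mem_singleton]; tauto
  have t5 : ∀ i j l : ι, ({i, j, l} : Finset ι) = {j, i, l} := by
    intro i j l; ext a; simp only [Finset.mem_insert, Finset.mem_singleton]; tauto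
  -- sums over the big set
  have split : ∀ F : ι → ZMod ℓ, ∑ l ∈ insert b (insert b' S), F l = F b + (F b' + ∑ l ∈ S, F l) := by
    intro F
    rw [Finset.sum_insert hbS', Finset.sum_insert hb']
  -- (a)
  have hsub : ∀ i ∈ S, ∀ j ∈ S, i ≠ j → ∀ l ∈ S,
      w l * (c' {i, j, l} - c' {i, j}) * (ε i j + ε j l + ε l i) =
        w l * (c {i, j, l} - c {i, j}) * (ε i j + ε j l + ε l i) := by
    intro i hi j hj hij l hl
    rw [h2 i hi j hj hij]
    by_cases hil : i = l
    · subst hil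
      rw [t1, h2 i hi j hj hij]
    · by_cases hjl : j = l
      · subst hjl
        rw [t2, h2 i hi j hj hij]
      · rw [h1 i hi j hj l hl hij hjl hil]
  have eqS : ∀ i ∈ S, ∀ j ∈ S, i ≠ j →
      ∑ l ∈ S, w l * (c {i, j, l} - c {i, j}) * (ε i j + ε j l + ε l i) = z * ε i j + (f i - f j) := by
    intro i hi j hj hij
    have h := heq i (mS i hi) j (mS j hj) hij
    rw [split] at h
    rw [t3 i j b, h3 i hi j hj hij, t3 i j b', h3' i hi j hj hij, h2 i hi j hj hij] at h
    rw [sub_self, mul_zero, zero_mul, mul_zero, zero_mul, zero_add, zero_add] at h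
    rw [← h]
    refine Finset.sum_congr rfl fun l hl => ?_
    have := hsub i hi j hj hij l hl
    rw [h2 i hi j hj hij] at this
    exact this.symm
  obtain ⟨b₀, hb₀⟩ := hT ε f z (fun i hi j hj hij => hanti i (mS i hi) j (mS j hj) hij) eqS
  obtain ⟨i₀, hi₀⟩ := hS
  -- (b)
  have hm : ∀ i ∈ S, z * b₀ i + f i = z * b₀ i₀ + f i₀ := by
    intro i hi
    by_cases hii : i = i₀
    · rw [hii]
    · have h := eqS i hi i₀ hi₀ hii
      rw [hb₀ i hi i₀ hi₀ hii] at h
      have hz : ∑ l ∈ S, w l * (c {i, i₀, l} - c {i, i₀}) * (b₀ i - b₀ i₀ + ε i₀ l + ε l i) = 0 := by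
        refine Finset.sum_eq_zero fun l hl => ?_
        by_cases hil : i = l
        · subst hil
          rw [t1]; ring
        · by_cases hjl : i₀ = l
          · subst hjl
            rw [t2]; ring
          · rw [hb₀ i₀ hi₀ l hl hjl, hb₀ l hl i hi (Ne.symm hil)]; ring
      rw [hz] at h
      linear_combination -h
  set m := z * b₀ i₀ + f i₀ with hmdef
  have hanti_b : ∀ i ∈ S, ε i b = -ε b i := fun i hi => hanti b mb i (mS i hi) (nb i hi)
  have hanti_b' : ∀ i ∈ S, ε i b' = -ε b' i := fun i hi => hanti b' mb' i (mS i hi) (nb' i hi)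
  have hanti_bb : ε b' b = -ε b b' := hanti b mb b' mb' hbb'
  set κ : ι → ZMod ℓ := fun i => ε b i + b₀ i with hκ
  set κ' : ι → ZMod ℓ := fun i => ε b' i + b₀ i with hκ'
  -- (c)
  have E1 : ∀ i ∈ S, ∑ l ∈ S, w l * (c {i, l} - g i) * (κ i - κ l) +
      e * (u i - g i) * (κ i - κ' i - ε b b') = z * κ i + (f b - m) := by
    intro i hi
    have h := heq b mb i (mS i hi) (nb i hi)
    rw [split, t1, sub_self, mul_zero, zero_mul, zero_add, t4 b i b', h5 i hi, h4 i hi, hwb',
      hanti_b' i hi, hanti_bb] at h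
    have hs : ∑ l ∈ S, w l * (c' {b, i, l} - g i) * (ε b i + ε i l + ε l b) =
        ∑ l ∈ S, w l * (c {i, l} - g i) * (κ i - κ l) := by
      refine Finset.sum_congr rfl fun l hl => ?_
      by_cases hil : i = l
      · subst hil
        rw [t2, h4 i hi, sub_self, sub_self]; ring
      · rw [h3 i hi l hl hil, hanti_b l hl, hb₀ i hi l hl hil]
        simp only [hκ]; ring
    rw [hs] at h
    have hmi := hm i hi
    simp only [hκ, hκ'] at h ⊢
    linear_combination h - hmi
  have E2 : ∀ i ∈ S, ∑ l ∈ S, w l * (c {i, l} - g i) * (κ' i - κ' l) +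
      e * (u i - g i) * (κ' i - κ i + ε b b') = z * κ' i + (f b' - m) := by
    intro i hi
    have h := heq b' mb' i (mS i hi) (nb' i hi)
    rw [split, t3 b' i b, h5 i hi, h4' i hi, t1, h4' i hi, sub_self, mul_zero, zero_mul, zero_add, hwb,
      hanti_b i hi] at h
    have hs : ∑ l ∈ S, w l * (c' {b', i, l} - g i) * (ε b' i + ε i l + ε l b') =
        ∑ l ∈ S, w l * (c {i, l} - g i) * (κ' i - κ' l) := by
      refine Finset.sum_congr rfl fun l hl => ?_
      by_cases hil : i = l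
      · subst hil
        rw [t2, h4' i hi, sub_self, sub_self]; ring
      · rw [h3' i hi l hl hil, hanti_b' l hl, hb₀ i hi l hl hil]
        simp only [hκ']; ring
    rw [hs] at h
    have hmi := hm i hi
    simp only [hκ, hκ'] at h ⊢
    linear_combination h - hmi
  have E3 : ∑ l ∈ S, w l * (u l - y) * (ε b b' + κ' l - κ l) = z * ε b b' + (f b - f b') := by
    have h := heq b mb b' mb' hbb'
    rw [split, t1, sub_self, mul_zero, zero_mul, zero_add, t2, sub_self, mul_zero, zero_mul, zero_add, h6] at h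
    rw [← h]
    refine Finset.sum_congr rfl fun l hl => ?_
    rw [h5 l hl, hanti_b l hl]
    simp only [hκ, hκ']; ring
  -- (d)
  have hsum := hR (fun i => κ i + κ' i) z (f b + f b' - 2 * m) (by
    intro i hi
    have e : ∑ l ∈ S, w l * (c {i, l} - g i) * ((κ i + κ' i) - (κ l + κ' l)) =
        ∑ l ∈ S, w l * (c {i, l} - g i) * (κ i - κ l) + ∑ l ∈ S, w l * (c {i, l} - g i) * (κ' i - κ' l) := by
      rw [← Finset.sum_add_distrib]
      exact Finset.sum_congr rfl fun l hl => by ring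
    beta_reduce at e ⊢
    rw [e]
    linear_combination E1 i hi + E2 i hi)
  -- (e)
  have hx := hK (fun i => κ i - κ' i - ε b b') z (by
    intro i hi
    have e1 : ∑ l ∈ S, w l * (c {i, l} - g i) * ((κ i - κ' i - ε b b') - (κ l - κ' l - ε b b')) =
        ∑ l ∈ S, w l * (c {i, l} - g i) * (κ i - κ l) - ∑ l ∈ S, w l * (c {i, l} - g i) * (κ' i - κ' l) := by
      rw [← Finset.sum_sub_distrib]
      exact Finset.sum_congr rfl fun l hl => by ring
    have e2 : ∑ l ∈ S, w l * (u l - y) * (ε b b' + κ' l - κ l) =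
        y * ∑ l ∈ S, w l * (κ l - κ' l - ε b b') - ∑ l ∈ S, w l * u l * (κ l - κ' l - ε b b') := by
      rw [Finset.mul_sum, ← Finset.sum_sub_distrib]
      exact Finset.sum_congr rfl fun l hl => by ring
    rw [e2] at E3
    unfold Kop
    rw [e1]
    linear_combination E1 i hi - E2 i hi - E3)
  have hκc : ∀ i ∈ S, κ i = κ i₀ := by
    intro i hi
    have a1 := hsum i hi i₀ hi₀
    have a2 := hx i hi
    have a3 := hx i₀ hi₀
    beta_reduce at a1 a2 a3
    have a4 : 2 * (κ i - κ i₀) = 0 := by linear_combination a1 + a2 - a3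
    rcases mul_eq_zero.mp a4 with a5 | a5
    · exact absurd a5 two_ne
    · exact sub_eq_zero.mp a5
  have hκc' : ∀ i ∈ S, κ' i = κ' i₀ := by
    intro i hi
    have a1 := hsum i hi i₀ hi₀
    have a2 := hκc i hi
    beta_reduce at a1
    linear_combination a1 - a2
  have hρ : ε b b' = κ i₀ - κ' i₀ := by
    have a3 := hx i₀ hi₀
    beta_reduce at a3
    linear_combination -a3
  -- (f)
  refine ⟨fun i => if i = b then κ i₀ else if i = b' then κ' i₀ else b₀ i, ?_⟩
  have vb : (if b = b then κ i₀ else if b = b' then κ' i₀ else b₀ b) = κ i₀ := if_pos rfl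
  have vb' : (if b' = b then κ i₀ else if b' = b' then κ' i₀ else b₀ b') = κ' i₀ := by
    rw [if_neg (Ne.symm hbb'), if_pos rfl]
  have vS : ∀ i ∈ S, (if i = b then κ i₀ else if i = b' then κ' i₀ else b₀ i) = b₀ i := by
    intro i hi
    rw [if_neg (Ne.symm (nb i hi)), if_neg (Ne.symm (nb' i hi))]
  have qb : ∀ i ∈ S, ε b i = κ i₀ - b₀ i := by
    intro i hi
    have := hκc i hi
    rw [← this]; simp only [hκ]; ring
  have qb' : ∀ i ∈ S, ε b' i = κ' i₀ - b₀ i := by
    intro i hi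
    have := hκc' i hi
    rw [← this]; simp only [hκ']; ring
  intro i hi j hj hij
  beta_reduce
  rw [Finset.mem_insert, Finset.mem_insert] at hi hj
  rcases hi with rfl | rfl | hi
  · rcases hj with rfl | rfl | hj
    · exact absurd rfl hij
    · rw [vb, vb', hρ]
    · rw [vb, vS j hj, qb j hj]
  · rcases hj with rfl | rfl | hj
    · rw [vb, vb', hanti_bb, hρ]; ring
    · exact absurd rfl hij
    · rw [vb', vS j hj, qb' j hj]
  · rcases hj with rfl | rfl | hj
    · rw [vb, vS i hi, hanti_b i hi, qb i hi]; ring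
    · rw [vb', vS i hi, hanti_b' i hi, qb' i hi]; ring
    · rw [vS i hi, vS j hj, hb₀ i hi j hj hij]

end Pool.Agent.Lib.MP_89bcae_ag.Lr
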