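import Mathlib
import Pool.Agent.Lib.MP_89bcae_ag.Lr.Defs

namespace Pool.Agent.Lib.MP_89bcae_ag.Lr

variable {ι : Type} {ℓ : ℕ}

/-- Existence of an irreducible quadratic of the given shape. -/
theorem exists_irreducible [Fact ℓ.Prime] (h2 : ℓ ≠ 2) {W e : ZMod ℓ} (hW : W ≠ 0) (he : e ≠ 0)
    (hWe : W + 2 * e ≠ 0) :
    ∃ X Y : ZMod ℓ, ∀ Z : ZMod ℓ, Z ^ 2 - (W + e) * (X + Y) * Z + W * (W + 2 * e) * X * Y ≠ 0 := by
  have hch : ringChar (ZMod ℓ) ≠ 2 := by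
    rw [ZMod.ringChar_zmod_n]; exact h2
  obtain ⟨r, hr⟩ := FiniteField.exists_nonsquare (F := ZMod ℓ) hch
  have h20 : (2 : ZMod ℓ) ≠ 0 := Ring.two_ne_zero hch
  have hD : W * (W + 2 * e) ≠ 0 := mul_ne_zero hW hWe
  have key : ∃ p m : ZMod ℓ, ¬ IsSquare (e ^ 2 * p ^ 2 + W * (W + 2 * e) * m ^ 2) := by
    by_cases hs : IsSquare (W * (W + 2 * e))
    · obtain ⟨d, hd⟩ := hs
      have hd0 : d ≠ 0 := by
        rintro rfl
        exact hD (by rw [hd]; ring)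
      obtain ⟨a, b, hab⟩ := ZMod.sq_add_sq ℓ r
      refine ⟨a / e, b / d, ?_⟩
      have : e ^ 2 * (a / e) ^ 2 + W * (W + 2 * e) * (b / d) ^ 2 = r := by
        rw [hd, ← hab]
        field_simp
      rw [this]; exact hr
    · refine ⟨0, 1, ?_⟩
      have : e ^ 2 * 0 ^ 2 + W * (W + 2 * e) * 1 ^ 2 = W * (W + 2 * e) := by ring
      rw [this]; exact hs
  obtain ⟨p, m, hpm⟩ := key
  refine ⟨(p + m) / 2, (p - m) / 2, fun Z hZ => hpm ⟨2 * Z - (W + e) * p, ?_⟩⟩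
  have h1 : (p + m) / 2 + (p - m) / 2 = p := by field_simp; ring
  have h3 : (4 : ZMod ℓ) * ((p + m) / 2 * ((p - m) / 2)) = p ^ 2 - m ^ 2 := by
    field_simp; ring
  rw [h1] at hZ
  linear_combination (-4) * hZ + (W * (W + 2 * e)) * h3

end Pool.Agent.Lib.MP_89bcae_ag.Lr
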