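import Mathlib
import Pool.Agent.Lib.MP_89bcae_ag.Lr.A10

namespace Pool.Agent.Lib.MP_89bcae_ag.Lr

variable {ι : Type} {ℓ : ℕ}

/-- Two more elements `b`, `b'` with the same weight `e`, for `GoodR`. Proof: `X, Y` from
`exists_irreducible` for `W = ∑ w_l`; take `y - X`, `y - Y`. Let `κ, z, μ` satisfy the equations on
`insert b (insert b' S)`. For `i ∈ S` the terms `l = b`, `l = b'` are zero (`h' i b = g i = g' i`), so `κ`
is constant on `S` by `hR`, equal to `m` (`S` is not empty), and `0 = z m + μ`. Put `x = κ b - m`,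
`x' = κ b' - m`, `G = ∑ w_l g_l`, `Z = z - G + W y`. The equation at `b`:
`∑_{l ∈ S} w_l (g l - y + X) x + e X (x - x') = z x`, so `((W + e) X - Z) x = e X x'`; the equation at
`b'`: `((W + e) Y - Z) x' = e Y x`. Multiply: if `x ≠ 0` or `x' ≠ 0` then
`((W + e) X - Z) ((W + e) Y - Z) - e ^ 2 X Y = 0` (determinant), which is excluded. So `x = x' = 0`. -/
theorem exists_goodR_insert₂ [DecidableEq ι] [Fact ℓ.Prime] (hℓ2 : ℓ ≠ 2) {w : ι → ZMod ℓ}
    {h : ι → ι → ZMod ℓ} {g : ι → ZMod ℓ} {S : Finset ι} (hS : S.Nonempty) {b b' : ι}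
    (hb : b ∉ S) (hb' : b' ∉ S) (hbb' : b ≠ b') {e : ZMod ℓ} (hwb : w b = e) (hwb' : w b' = e)
    (hW : ∑ l ∈ S, w l ≠ 0) (he : e ≠ 0) (hWe : ∑ l ∈ S, w l + 2 * e ≠ 0)
    (hR : GoodR w h g S) (y : ZMod ℓ) :
    ∃ X' Y' : ZMod ℓ, ∀ (h' : ι → ι → ZMod ℓ) (g' : ι → ZMod ℓ),
      (∀ i ∈ S, ∀ l ∈ S, i ≠ l → h' i l = h i l) → (∀ i ∈ S, h' i b = g i) →
      (∀ i ∈ S, h' i b' = g i) → (∀ i ∈ S, h' b i = g i) → (∀ i ∈ S, h' b' i = g i) →
      h' b b' = y → h' b' b = y → (∀ i ∈ S, g' i = g i) → g' b = X' → g' b' = Y' →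
      GoodR w h' g' (insert b (insert b' S)) := by
  obtain ⟨X, Y, hXY⟩ := exists_irreducible (ℓ := ℓ) hℓ2 hW he hWe
  refine ⟨y - X, y - Y, ?_⟩
  intro h' g' h1 h2 h3 h4 h5 h6 h7 h8 h9 h10 κ z μ hE
  have hb1 : b ∉ insert b' S := by
    rw [Finset.mem_insert]; rintro (h | h)
    · exact hbb' h
    · exact hb h
  have hsum : ∀ f : ι → ZMod ℓ, ∑ l ∈ insert b (insert b' S), f l = f b + (f b' + ∑ l ∈ S, f l) := by
    intro f
    rw [Finset.sum_insert hb1, Finset.sum_insert hb']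
  have hS1 : ∀ i ∈ S, i ∈ insert b (insert b' S) := fun i hi =>
    Finset.mem_insert_of_mem (Finset.mem_insert_of_mem hi)
  -- equations on S
  have hEq : ∀ i ∈ S, ∑ l ∈ S, w l * (h i l - g i) * (κ i - κ l) = z * κ i + μ := by
    intro i hi
    have := hE i (hS1 i hi)
    rw [hsum, h2 i hi, h3 i hi, h8 i hi] at this
    simp only [sub_self, mul_zero, zero_mul, zero_add] at this
    rw [← this]
    refine Finset.sum_congr rfl fun l hl => ?_
    by_cases hil : i = l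
    · subst hil; simp
    · rw [h1 i hi l hl hil]
  have hc := hR κ z μ hEq
  obtain ⟨i0, hi0⟩ := hS
  have hm : ∀ i ∈ S, κ i = κ i0 := fun i hi => hc i hi i0 hi0
  have hz : z * κ i0 + μ = 0 := by
    rw [← hEq i0 hi0]
    refine Finset.sum_eq_zero fun l hl => ?_
    rw [hm l hl]; simp
  -- the equations at b and b'
  have hGW : ∀ (A x : ZMod ℓ), ∑ l ∈ S, w l * (g l - A) * x =
      (∑ l ∈ S, w l * g l) * x - (∑ l ∈ S, w l) * A * x := by
    intro A x
    rw [Finset.sum_mul, Finset.sum_mul, Finset.sum_mul, ← Finset.sum_sub_distrib]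
    exact Finset.sum_congr rfl fun l _ => by ring
  have eb : e * X * (κ b - κ b') + ((∑ l ∈ S, w l * g l) * (κ b - κ i0) -
      (∑ l ∈ S, w l) * (y - X) * (κ b - κ i0)) = z * κ b + μ := by
    have := hE b (Finset.mem_insert_self _ _)
    rw [hsum, h6, h9, hwb'] at this
    rw [← this, ← hGW]
    have h12 : ∑ l ∈ S, w l * (h' b l - (y - X)) * (κ b - κ l) =
        ∑ l ∈ S, w l * (g l - (y - X)) * (κ b - κ i0) :=
      Finset.sum_congr rfl fun l hl => by rw [h4 l hl, hm l hl]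
    rw [h12]; ring
  have eb' : e * Y * (κ b' - κ b) + ((∑ l ∈ S, w l * g l) * (κ b' - κ i0) -
      (∑ l ∈ S, w l) * (y - Y) * (κ b' - κ i0)) = z * κ b' + μ := by
    have := hE b' (Finset.mem_insert_of_mem (Finset.mem_insert_self _ _))
    rw [hsum, h7, h10, hwb] at this
    rw [← this, ← hGW]
    have h12 : ∑ l ∈ S, w l * (h' b' l - (y - Y)) * (κ b' - κ l) =
        ∑ l ∈ S, w l * (g l - (y - Y)) * (κ b' - κ i0) :=
      Finset.sum_congr rfl fun l hl => by rw [h5 l hl, hm l hl]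
    rw [h12]; ring
  have hdet := hXY (z - (∑ l ∈ S, w l * g l) + (∑ l ∈ S, w l) * y)
  have hx : κ b - κ i0 = 0 := by
    have : ((z - (∑ l ∈ S, w l * g l) + (∑ l ∈ S, w l) * y) ^ 2 -
        (∑ l ∈ S, w l + e) * (X + Y) * (z - (∑ l ∈ S, w l * g l) + (∑ l ∈ S, w l) * y) +
        (∑ l ∈ S, w l) * (∑ l ∈ S, w l + 2 * e) * X * Y) * (κ b - κ i0) = 0 := by
      linear_combination ((∑ l ∈ S, w l + e) * Y - (z - (∑ l ∈ S, w l * g l) + (∑ l ∈ S, w l) * y)) * eb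
        + e * X * eb' + (e * X + ((∑ l ∈ S, w l + e) * Y - (z - (∑ l ∈ S, w l * g l) + (∑ l ∈ S, w l) * y))) * hz
    exact (mul_eq_zero.mp this).resolve_left hdet
  have hx' : κ b' - κ i0 = 0 := by
    have : ((z - (∑ l ∈ S, w l * g l) + (∑ l ∈ S, w l) * y) ^ 2 -
        (∑ l ∈ S, w l + e) * (X + Y) * (z - (∑ l ∈ S, w l * g l) + (∑ l ∈ S, w l) * y) +
        (∑ l ∈ S, w l) * (∑ l ∈ S, w l + 2 * e) * X * Y) * (κ b' - κ i0) = 0 := by
      linear_combination ((∑ l ∈ S, w l + e) * X - (z - (∑ l ∈ S, w l * g l) + (∑ l ∈ S, w l) * y)) * eb'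
        + e * Y * eb + (e * Y + ((∑ l ∈ S, w l + e) * X - (z - (∑ l ∈ S, w l * g l) + (∑ l ∈ S, w l) * y))) * hz
    exact (mul_eq_zero.mp this).resolve_left hdet
  have hall : ∀ i ∈ insert b (insert b' S), κ i = κ i0 := by
    intro i hi
    rcases Finset.mem_insert.mp hi with rfl | hi
    · exact sub_eq_zero.mp hx
    · rcases Finset.mem_insert.mp hi with rfl | hi
      · exact sub_eq_zero.mp hx'
      · exact hm i hi
  intro i hi j hj
  rw [hall i hi, hall j hj]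

end Pool.Agent.Lib.MP_89bcae_ag.Lr
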