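import Mathlib
import Pool.Agent.Lib.MP_89bcae_ag.Lr.Ex
import Pool.Agent.Lib.MP_89bcae_ag.Lr.A04
import Pool.Agent.Lib.MP_89bcae_ag.Lr.A06
import Pool.Agent.Lib.MP_89bcae_ag.Lr.A09
import Pool.Agent.Lib.MP_89bcae_ag.Lr.A17

namespace Pool.Agent.Lib.MP_89bcae_ag.Lr

variable {ι : Type} {ℓ : ℕ}

/-- Two more elements of the same weight. Proof: `c, g` from `hE`; `exists_wall` gives `g', k, a`;
`exists_goodK_of_wall'` with `ω = 2 * w b` gives `y`, with `u = Function.update g' k (...)`;
`exists_goodR_insert₂` for `g'` and this `y` gives `X', Y'`. Let `c'` be such that the hypotheses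
`h1, ..., h6` of `goodT_insert₂` hold (with `g'` for `g`): for instance
`c' T = if b ∈ T ∧ b' ∈ T then (if T.card = 2 then y else ∑ i ∈ (T.erase b).erase b', u i) else
if b ∈ T ∨ b' ∈ T then (if T.card = 2 then ∑ i ∈ (T.erase b).erase b', g' i else
c ((T.erase b).erase b')) else c T`, and `g''` equal to `g'` on `S`, to `X'` at `b`, `Y'` at `b'`. -/
theorem Ex.step₂ [DecidableEq ι] [Fact ℓ.Prime] (hℓ2 : ℓ ≠ 2) {w : ι → ZMod ℓ} {S : Finset ι}
    (hS : 2 ≤ S.card) (hw : ∀ i ∈ S, w i ≠ 0) (hs : ∑ i ∈ S, w i ≠ 0) {b b' : ι} (hb : b ∉ S)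
    (hb' : b' ∉ S) (hbb' : b ≠ b') (hwb : w b ≠ 0) (hwb' : w b' = w b)
    (hsb : ∑ i ∈ S, w i + 2 * w b ≠ 0) (hE : Ex w S) : Ex w (insert b (insert b' S)) := by
  classical
  obtain ⟨c, g, hT, hR⟩ := hE
  have hSne : S.Nonempty := Finset.card_pos.mp (by omega)
  have h20 : (2 : ZMod ℓ) ≠ 0 := by
    have hp : ℓ.Prime := Fact.out
    intro h
    have h' : ((2 : ℕ) : ZMod ℓ) = 0 := by exact_mod_cast h
    rw [ZMod.natCast_eq_zero_iff] at h'
    exact hℓ2 ((Nat.prime_dvd_prime_iff_eq hp Nat.prime_two).mp h')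
  obtain ⟨g', k, a, hg', hk, hbad⟩ := exists_wall hℓ2 hS hw hs hR
  obtain ⟨y, hy⟩ := exists_goodK_of_wall' (ω := 2 * w b)
    (h := fun i l => c {i, l}) (fun i _ l _ => by simp only [Finset.pair_comm])
    hs (mul_ne_zero h20 hwb) hsb hg' hk (hw k hk) hbad
  set u := Function.update g' k (g' k - (∑ l ∈ S, w l) * a / (2 * w b)) with hu
  obtain ⟨X, Y, hXY⟩ := exists_goodR_insert₂ hℓ2 hSne hb hb' hbb' rfl hwb' hs hwb hsb hg' y
  have hne : ∀ i ∈ S, i ≠ b := fun i hi h => hb (h ▸ hi)
  have hne' : ∀ i ∈ S, i ≠ b' := fun i hi h => hb' (h ▸ hi)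
  let D : Finset ι → Finset ι := fun T => (T.erase b).erase b'
  let c' : Finset ι → ZMod ℓ := fun T =>
    if b ∈ T ∧ b' ∈ T then (if (D T).card = 0 then y else ∑ i ∈ D T, u i) else
    if b ∈ T ∨ b' ∈ T then (if (D T).card = 1 then ∑ i ∈ D T, g' i else c (D T)) else c T
  have hc' : ∀ T, c' T = if b ∈ T ∧ b' ∈ T then (if (D T).card = 0 then y else ∑ i ∈ D T, u i) else
    if b ∈ T ∨ b' ∈ T then (if (D T).card = 1 then ∑ i ∈ D T, g' i else c (D T)) else c T :=
    fun T => rfl
  have hDb : ∀ T : Finset ι, b ∉ T → b' ∉ T → D (insert b T) = T := by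
    intro T h1 h2
    simp only [D]
    rw [Finset.erase_insert h1, Finset.erase_eq_of_notMem h2]
  have hDb' : ∀ T : Finset ι, b ∉ T → b' ∉ T → D (insert b' T) = T := by
    intro T h1 h2
    simp only [D]
    have h3 : b ∉ insert b' T := by simp [hbb', h1]
    rw [Finset.erase_eq_of_notMem h3, Finset.erase_insert h2]
  have hDbb : ∀ T : Finset ι, b ∉ T → b' ∉ T → D (insert b (insert b' T)) = T := by
    intro T h1 h2
    simp only [D]
    rw [Finset.erase_insert (by simp [hbb', h1]), Finset.erase_insert h2]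
  have e1 : ∀ T : Finset ι, T ⊆ S → c' T = c T := by
    intro T hTS
    have h1 : b ∉ T := fun h => hb (hTS h)
    have h2 : b' ∉ T := fun h => hb' (hTS h)
    rw [hc']; simp [h1, h2]
  have e2 : ∀ T : Finset ι, T ⊆ S → T.card ≠ 1 → c' (insert b T) = c T := by
    intro T hTS hc
    have h1 : b ∉ T := fun h => hb (hTS h)
    have h2 : b' ∉ T := fun h => hb' (hTS h)
    rw [hc', hDb T h1 h2]
    have h3 : ¬ (b ∈ insert b T ∧ b' ∈ insert b T) := by simp [h2, Ne.symm hbb']
    have h4 : b ∈ insert b T ∨ b' ∈ insert b T := Or.inl (Finset.mem_insert_self _ _)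
    rw [if_neg h3, if_pos h4, if_neg hc]
  have e2' : ∀ T : Finset ι, T ⊆ S → T.card ≠ 1 → c' (insert b' T) = c T := by
    intro T hTS hc
    have h1 : b ∉ T := fun h => hb (hTS h)
    have h2 : b' ∉ T := fun h => hb' (hTS h)
    rw [hc', hDb' T h1 h2]
    have h3 : ¬ (b ∈ insert b' T ∧ b' ∈ insert b' T) := by simp [h1, hbb']
    have h4 : b ∈ insert b' T ∨ b' ∈ insert b' T := Or.inr (Finset.mem_insert_self _ _)
    rw [if_neg h3, if_pos h4, if_neg hc]
  have e3 : ∀ i ∈ S, c' {b, i} = g' i := by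
    intro i hi
    have h1 : b ∉ ({i} : Finset ι) := by simpa using (hne i hi).symm
    have h2 : b' ∉ ({i} : Finset ι) := by simpa using (hne' i hi).symm
    have h0 : ({b, i} : Finset ι) = insert b {i} := rfl
    rw [h0, hc', hDb _ h1 h2]
    have h3 : ¬ (b ∈ insert b ({i} : Finset ι) ∧ b' ∈ insert b ({i} : Finset ι)) := by
      rintro ⟨_, h⟩
      rcases Finset.mem_insert.mp h with h | h
      · exact hbb' h.symm
      · exact h2 h
    have h4 : b ∈ insert b ({i} : Finset ι) ∨ b' ∈ insert b ({i} : Finset ι) :=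
      Or.inl (Finset.mem_insert_self _ _)
    rw [if_neg h3, if_pos h4, if_pos (Finset.card_singleton i), Finset.sum_singleton]
  have e3' : ∀ i ∈ S, c' {b', i} = g' i := by
    intro i hi
    have h1 : b ∉ ({i} : Finset ι) := by simpa using (hne i hi).symm
    have h2 : b' ∉ ({i} : Finset ι) := by simpa using (hne' i hi).symm
    have h0 : ({b', i} : Finset ι) = insert b' {i} := rfl
    rw [h0, hc', hDb' _ h1 h2]
    have h3 : ¬ (b ∈ insert b' ({i} : Finset ι) ∧ b' ∈ insert b' ({i} : Finset ι)) := by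
      rintro ⟨h, _⟩
      rcases Finset.mem_insert.mp h with h | h
      · exact hbb' h
      · exact h1 h
    have h4 : b ∈ insert b' ({i} : Finset ι) ∨ b' ∈ insert b' ({i} : Finset ι) :=
      Or.inr (Finset.mem_insert_self _ _)
    rw [if_neg h3, if_pos h4, if_pos (Finset.card_singleton i), Finset.sum_singleton]
  have e5 : ∀ i ∈ S, c' {b, b', i} = u i := by
    intro i hi
    have h1 : b ∉ ({i} : Finset ι) := by simpa using (hne i hi).symm
    have h2 : b' ∉ ({i} : Finset ι) := by simpa using (hne' i hi).symm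
    have h0 : ({b, b', i} : Finset ι) = insert b (insert b' {i}) := rfl
    rw [h0, hc', hDbb _ h1 h2]
    have h3 : b ∈ insert b (insert b' ({i} : Finset ι)) ∧ b' ∈ insert b (insert b' ({i} : Finset ι)) :=
      ⟨Finset.mem_insert_self _ _, Finset.mem_insert_of_mem (Finset.mem_insert_self _ _)⟩
    rw [if_pos h3, if_neg (by rw [Finset.card_singleton]; norm_num), Finset.sum_singleton]
  have e6 : c' {b, b'} = y := by
    have h0 : ({b, b'} : Finset ι) = insert b (insert b' ∅) := by simp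
    rw [h0, hc', hDbb _ (Finset.notMem_empty _) (Finset.notMem_empty _)]
    have h3 : b ∈ insert b (insert b' (∅ : Finset ι)) ∧ b' ∈ insert b (insert b' (∅ : Finset ι)) :=
      ⟨Finset.mem_insert_self _ _, Finset.mem_insert_of_mem (Finset.mem_insert_self _ _)⟩
    rw [if_pos h3, if_pos Finset.card_empty]
  have hpairS : ∀ i ∈ S, ∀ j ∈ S, ({i, j} : Finset ι) ⊆ S := by
    intro i hi j hj x hx
    rcases Finset.mem_insert.mp hx with h | h
    · exact h ▸ hi
    · exact (Finset.mem_singleton.mp h) ▸ hj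
  have hpairc : ∀ i j : ι, i ≠ j → ({i, j} : Finset ι).card ≠ 1 := by
    intro i j hij
    rw [Finset.card_pair hij]; norm_num
  refine ⟨c', fun x => if x = b then X else if x = b' then Y else g' x, ?_, ?_⟩
  · refine goodT_insert₂ hℓ2 hSne hb hb' hbb' (e := w b) (y := y) rfl hwb' hT hg' hy
      ?_ ?_ ?_ ?_ e3 e3' e5 e6
    · intro i hi j hj l hl _ _ _
      refine e1 _ ?_
      intro x hx
      rcases Finset.mem_insert.mp hx with h | h
      · exact h ▸ hi
      · exact hpairS j hj l hl h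
    · intro i hi j hj _
      exact e1 _ (hpairS i hi j hj)
    · intro i hi j hj hij
      exact e2 _ (hpairS i hi j hj) (hpairc i j hij)
    · intro i hi j hj hij
      exact e2' _ (hpairS i hi j hj) (hpairc i j hij)
  · refine hXY _ _ ?_ ?_ ?_ ?_ ?_ ?_ ?_ ?_ ?_ ?_
    · intro i hi l hl _
      exact e1 _ (hpairS i hi l hl)
    · intro i hi
      show c' {i, b} = g' i
      rw [Finset.pair_comm]; exact e3 i hi
    · intro i hi
      show c' {i, b'} = g' i
      rw [Finset.pair_comm]; exact e3' i hi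
    · intro i hi
      exact e3 i hi
    · intro i hi
      exact e3' i hi
    · exact e6
    · show c' {b', b} = y
      rw [Finset.pair_comm]; exact e6
    · intro i hi
      simp [hne i hi, hne' i hi]
    · simp
    · simp [Ne.symm hbb']

end Pool.Agent.Lib.MP_89bcae_ag.Lr
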