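import Mathlib
import Pool.Agent.Lib.MP_89bcae_ag.Lr.A13
import Pool.Agent.Lib.MP_89bcae_ag.Lr.A15
import Pool.Agent.Lib.MP_89bcae_ag.Lr.A16

namespace Pool.Agent.Lib.MP_89bcae_ag.Lr

variable {ι : Type} {ℓ : ℕ}

/-- **Existence of symbols without eigenvectors.** Proof: strong induction on the cardinality. `4`:
`Ex.base`. Let `5 ≤ S.card`, `W = ∑ w_i ≠ 0`. If some `b ∈ S` has `w b ≠ W`: `S' = S.erase b` has
`∑ = W - w b ≠ 0`, induction and `Ex.step` (`Finset.insert_erase`). Otherwise `w b = W` for all `b ∈ S`,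
so `(n : ZMod ℓ) W = W`, `(n - 1 : ZMod ℓ) = 0` for `n = S.card`; `n ≠ 5` because `4 ≠ 0` in `ZMod ℓ`
(`ℓ ≠ 2`); so `6 ≤ n`. Let `b ≠ b'` be in `S`, `S' = (S.erase b).erase b'`: `∑ = W - 2 W = - W ≠ 0`,
`4 ≤ S'.card`, and `∑_{S'} + 2 w b = W ≠ 0`: induction and `Ex.step₂`. -/
theorem exists_good [DecidableEq ι] [Fact ℓ.Prime] (hℓ2 : ℓ ≠ 2) {w : ι → ZMod ℓ} (S : Finset ι)
    (hS : 4 ≤ S.card) (hw : ∀ i ∈ S, w i ≠ 0) (hs : ∑ i ∈ S, w i ≠ 0) : Ex w S := by
  induction hn : S.card using Nat.strong_induction_on generalizing S with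
  | _ n ih =>
    subst hn
    rcases eq_or_lt_of_le hS with h4 | h5
    · exact Ex.base hℓ2 h4.symm hw hs
    by_cases hb : ∃ b ∈ S, w b ≠ ∑ i ∈ S, w i
    · obtain ⟨b, hbS, hbw⟩ := hb
      have hsum : ∑ i ∈ S.erase b, w i + w b = ∑ i ∈ S, w i := Finset.sum_erase_add S w hbS
      have hs' : ∑ i ∈ S.erase b, w i ≠ 0 := by
        intro h0
        rw [h0, zero_add] at hsum
        exact hbw hsum
      have hc : (S.erase b).card = S.card - 1 := Finset.card_erase_of_mem hbS
      have hw' : ∀ i ∈ S.erase b, w i ≠ 0 := fun i hi => hw i (Finset.mem_of_mem_erase hi)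
      have hE : Ex w (S.erase b) := ih (S.erase b).card (by omega) (S.erase b) (by omega) hw' hs' rfl
      have h6 := Ex.step hℓ2 (by omega) hw' hs' (Finset.notMem_erase b S) (hw b hbS)
        (by rw [hsum]; exact hs) hE
      rw [Finset.insert_erase hbS] at h6
      exact h6
    · have hb' : ∀ b ∈ S, w b = ∑ i ∈ S, w i := by
        intro b hbS
        by_contra hne
        exact hb ⟨b, hbS, hne⟩
      have hW : ∑ i ∈ S, w i = (S.card : ZMod ℓ) * ∑ i ∈ S, w i := by
        conv_lhs => rw [Finset.sum_congr rfl hb']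
        rw [Finset.sum_const, nsmul_eq_mul]
      have hcard : (S.card : ZMod ℓ) = 1 := by
        have h6 : ((S.card : ZMod ℓ) - 1) * ∑ i ∈ S, w i = 0 := by
          linear_combination -hW
        rcases mul_eq_zero.mp h6 with h7 | h7
        · exact sub_eq_zero.mp h7
        · exact absurd h7 hs
      have h5' : S.card ≠ 5 := by
        intro h55
        rw [h55] at hcard
        have h4 : (2 : ZMod ℓ) * 2 = 0 := by
          have : ((5 : ℕ) : ZMod ℓ) = 5 := by norm_cast
          rw [this] at hcard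
          linear_combination hcard
        have h2 : (2 : ZMod ℓ) = 0 := by
          rcases mul_eq_zero.mp h4 with h | h <;> exact h
        have h2' : ((2 : ℕ) : ZMod ℓ) = 0 := by exact_mod_cast h2
        rw [ZMod.natCast_eq_zero_iff] at h2'
        exact hℓ2 ((Nat.prime_dvd_prime_iff_eq (Fact.out : ℓ.Prime) Nat.prime_two).mp h2')
      obtain ⟨b, hbS, b', hbS', hne⟩ := Finset.one_lt_card.mp (by omega : 1 < S.card)
      have hbe : b' ∈ S.erase b := Finset.mem_erase.mpr ⟨Ne.symm hne, hbS'⟩
      have hsum1 : ∑ i ∈ S.erase b, w i + w b = ∑ i ∈ S, w i := Finset.sum_erase_add S w hbS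
      have hsum2 : ∑ i ∈ (S.erase b).erase b', w i + w b' = ∑ i ∈ S.erase b, w i :=
        Finset.sum_erase_add (S.erase b) w hbe
      have hwb := hb' b hbS
      have hwb' := hb' b' hbS'
      have hs' : ∑ i ∈ (S.erase b).erase b', w i ≠ 0 := by
        intro h0
        apply hs
        rw [h0, hwb'] at hsum2
        rw [← hsum2, hwb] at hsum1
        linear_combination hsum1
      have hw' : ∀ i ∈ (S.erase b).erase b', w i ≠ 0 :=
        fun i hi => hw i (Finset.mem_of_mem_erase (Finset.mem_of_mem_erase hi))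
      have hc1 : (S.erase b).card = S.card - 1 := Finset.card_erase_of_mem hbS
      have hc2 : ((S.erase b).erase b').card = (S.erase b).card - 1 := Finset.card_erase_of_mem hbe
      have hE : Ex w ((S.erase b).erase b') :=
        ih ((S.erase b).erase b').card (by omega) ((S.erase b).erase b') (by omega) hw' hs' rfl
      have hww : w b' = w b := by rw [hwb, hwb']
      have h6 := Ex.step₂ hℓ2 (by omega) hw' hs' (b := b) (b' := b')
        (fun hm => (Finset.notMem_erase b S) (Finset.mem_of_mem_erase hm))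
        (Finset.notMem_erase b' _) hne (hw b hbS) hww
        (by
          have : ∑ i ∈ (S.erase b).erase b', w i + 2 * w b = ∑ i ∈ S, w i := by
            rw [← hsum1, ← hsum2, hww]; ring
          rw [this]; exact hs) hE
      rw [Finset.insert_erase hbe, Finset.insert_erase hbS] at h6
      exact h6

end Pool.Agent.Lib.MP_89bcae_ag.Lr
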