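import Mathlib
import Pool.Agent.Lib.MP_89bcae_ag.Lr.Defs
import Pool.Agent.Lib.MP_89bcae_ag.LIndW14

/-!
# Lines over a field with one homomorphism to `ZMod ℓ`: the linear algebra
-/

open Polynomial

open scoped Classical

namespace Pool.Agent.Lib.MP_89bcae_ag

universe u

variable {ι : Type} [Fintype ι] [LinearOrder ι] {k : Type u} [Field k] {v : ι ⊕ ι → k}

/-- **The criterion over `k` with one homomorphism `V` to `ZMod ℓ`.** `c₀` are the symbols of the brackets
of the lines and the line at infinity, up to `m₀` and the `μ`. Proof: as `Gen14.cut_kw` (the same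
computation with `V.ν (dd14 v i j l) = c₀ {i, j, l} + m₀ + μ_i + μ_j + μ_l`). With
`δ_ijl = c₀ {i, j, l} - c₀ {i, j}` and `φ_ijl = ε i j + ε j l + ε l i` the equation `hpow` is
`∑_{l ≠ i, j} w_l δ_ijl φ_ijl = z ε i j + f i - f j` where `z = ν(κ) - M + W μ₀`, `M = ∑ w_l μ_l`,
`W = ∑ w_l`, `μ₀ = μ none`, `f i = ν(c i) - C_i - E_i (m₀ + μ_i + 2 μ₀)`, `E_i = ∑_{l ≠ i} w_l ε i l`,
`C_i = ∑_{l ≠ i} w_l c₀ {i, l} ε i l` (checked: `V.ν (nd - nd') ` of `Gen14.sub2` is
`ν(dd) - ν(slope ij) - ν(slope il) = δ_ijl - c₀ {i, l} - m₀ - μ_i - 2 μ₀`, etc.). In `GoodT` the terms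
`l = i`, `l = j` are zero because `{i, j, i} = {i, j}`. `hT` gives `ε i j = b i - b j`; take `- b`. -/
theorem Gen14.cut_good (h : Gen14 v) {ℓ : ℕ} [Fact ℓ.Prime] (w : ι → ZMod ℓ) (V : Val14 k ℓ)
    (c₀ : Finset ι → ZMod ℓ) (m₀ : ZMod ℓ) (μ : Option ι → ZMod ℓ)
    (hV : ∀ i j l, i ≠ j → j ≠ l → i ≠ l →
      V.ν (dd14 v i j l) = c₀ {i, j, l} + m₀ + μ (some i) + μ (some j) + μ (some l))
    (hV0 : ∀ i j, i ≠ j →
      V.ν (v (Sum.inr i) - v (Sum.inr j)) = c₀ {i, j} + m₀ + μ (some i) + μ (some j) + μ none)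
    (hT : Lr.GoodT w c₀ Finset.univ)
    (ε : ι → ι → ZMod ℓ) (hε : ∀ i j, i ≠ j → ε j i = -ε i j) (κ : k) (c : ι → k)
    (hpow : ∀ i j, i ≠ j →
      ε i j * V.ν κ + (V.ν (c i) - V.ν (c j)) -
        (w i + w j) * ε i j * V.ν (v (Sum.inr i) - v (Sum.inr j)) -
        ε i j * ∑ l ∈ Finset.univ.filter (fun l => l ≠ i ∧ l ≠ j),
          w l * V.ν ((lin14 v i).eval (nd14 v i j) - (lin14 v l).eval (nd14 v i j)) +
        (∑ l ∈ Finset.univ.filter (fun l => l ≠ i ∧ l ≠ j),
            w l * ε i l * V.ν (nd14 v i j - nd14 v i l) -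
          ∑ l ∈ Finset.univ.filter (fun l => l ≠ i ∧ l ≠ j),
            w l * ε j l * V.ν (nd14 v i j - nd14 v j l)) = 0) :
    ∃ b : ι → ZMod ℓ, ∀ i j, i ≠ j → ε i j = b j - b i := by
  set E : ι → ZMod ℓ := fun i => ∑ l, w l * ε i l - w i * ε i i with hE
  set Cc : ι → ZMod ℓ := fun i => ∑ l, w l * c₀ {i, l} * ε i l - w i * c₀ {i, i} * ε i i with hCc
  set M : ZMod ℓ := ∑ l, w l * μ (some l) with hM
  set W : ZMod ℓ := ∑ l, w l with hW
  obtain ⟨b, hb⟩ := hT ε (fun i => V.ν (c i) - Cc i - E i * (m₀ + μ (some i) + 2 * μ none))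
    (V.ν κ - M + W * μ none) (fun i _ j _ hij => hε i j hij) (by
    intro i _ j _ hij
    have hν := hpow i j hij
    set s := nd14 v i j with hs
    set P := Finset.univ.filter (fun l => l ≠ i ∧ l ≠ j) with hP
    have hβ := hV0 i j hij
    have hβ0 := h.slope_ne hij
    rw [hβ] at hν
    set δ : ι → ZMod ℓ := fun l => c₀ {i, j, l} - c₀ {i, j} with hδ
    -- the left side
    have hL : ∑ l, w l * (c₀ {i, j, l} - c₀ {i, j}) * (ε i j + ε j l + ε l i) =
        ∑ l ∈ P, w l * δ l * (ε i j + ε j l + ε l i) := by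
      rw [hP, Finset.sum_filter]
      refine Finset.sum_congr rfl fun l _ => ?_
      split_ifs with hl
      · rfl
      · have h0 : c₀ {i, j, l} - c₀ {i, j} = 0 := by
          rw [sub_eq_zero]
          congr 1
          rw [not_and_or, not_not, not_not] at hl
          rcases hl with rfl | rfl
          · ext x
            simp only [Finset.mem_insert, Finset.mem_singleton]
            tauto
          · ext x
            simp only [Finset.mem_insert, Finset.mem_singleton]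
            tauto
        rw [h0, mul_zero, zero_mul]
    -- the first sum
    have hS1 : ∑ l ∈ P, w l * V.ν ((lin14 v i).eval s - (lin14 v l).eval s) =
        ∑ l ∈ P, w l * (δ l + μ (some l) - μ none) := by
      refine Finset.sum_congr rfl fun l hl => ?_
      rw [hP, Finset.mem_filter] at hl
      have h1 := h.dd_ne hij hl.2.1.symm hl.2.2.symm
      rw [h.sub1 hij, V.neg (div_ne_zero h1 hβ0), V.div h1 hβ0, hβ,
        hV i j l hij hl.2.2.symm hl.2.1.symm, hδ]
      ring
    -- the second sum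
    have hS2 : ∑ l ∈ P, w l * ε i l * V.ν (s - nd14 v i l) =
        ∑ l ∈ P, w l * ε i l * (δ l - c₀ {i, l} - m₀ - μ (some i) - 2 * μ none) := by
      refine Finset.sum_congr rfl fun l hl => ?_
      rw [hP, Finset.mem_filter] at hl
      have h4 := h.dd_ne hij hl.2.1.symm hl.2.2.symm
      have h5 := h.slope_ne hl.2.1.symm
      rw [hs, h.sub2 hij hl.2.1.symm, V.neg (div_ne_zero h4 (mul_ne_zero hβ0 h5)),
        V.div h4 (mul_ne_zero hβ0 h5), V.mul _ _ hβ0 h5, hβ, hV0 i l hl.2.1.symm,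
        hV i j l hij hl.2.2.symm hl.2.1.symm, hδ]
      ring
    have hS3 : ∑ l ∈ P, w l * ε j l * V.ν (s - nd14 v j l) =
        ∑ l ∈ P, w l * ε j l * (δ l - c₀ {j, l} - m₀ - μ (some j) - 2 * μ none) := by
      refine Finset.sum_congr rfl fun l hl => ?_
      rw [hP, Finset.mem_filter] at hl
      have h4 := h.dd_ne hij hl.2.1.symm hl.2.2.symm
      have h5 := h.slope_ne hl.2.2.symm
      rw [hs, h.sub3 hij hl.2.2.symm, V.neg (div_ne_zero h4 (mul_ne_zero hβ0 h5)),
        V.div h4 (mul_ne_zero hβ0 h5), V.mul _ _ hβ0 h5, hβ, hV0 j l hl.2.2.symm,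
        hV i j l hij hl.2.2.symm hl.2.1.symm, hδ]
      ring
    -- the sums over `P`
    have hT1 : ∑ l ∈ P, w l * (δ l + μ (some l) - μ none) = ∑ l ∈ P, w l * δ l +
        (M - w i * μ (some i) - w j * μ (some j)) - (W - w i - w j) * μ none := by
      have h1 : ∀ l ∈ P, w l * (δ l + μ (some l) - μ none) =
          w l * δ l + w l * μ (some l) - w l * μ none := fun l _ => by ring
      rw [Finset.sum_congr rfl h1, Finset.sum_sub_distrib, Finset.sum_add_distrib,
        sum_off14 (fun l => w l * μ (some l)) hij, ← Finset.sum_mul, sum_off14 w hij]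
    have hT2 : ∑ l ∈ P, w l * ε i l * (δ l - c₀ {i, l} - m₀ - μ (some i) - 2 * μ none) =
        ∑ l ∈ P, w l * ε i l * δ l - (Cc i - w j * c₀ {i, j} * ε i j) -
          (E i - w j * ε i j) * (m₀ + μ (some i) + 2 * μ none) := by
      have h1 : ∀ l ∈ P, w l * ε i l * (δ l - c₀ {i, l} - m₀ - μ (some i) - 2 * μ none) =
          w l * ε i l * δ l - w l * c₀ {i, l} * ε i l -
            w l * ε i l * (m₀ + μ (some i) + 2 * μ none) := fun l _ => by ring
      rw [Finset.sum_congr rfl h1, Finset.sum_sub_distrib, Finset.sum_sub_distrib,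
        ← Finset.sum_mul, sum_off14 (fun l => w l * ε i l) hij,
        sum_off14 (fun l => w l * c₀ {i, l} * ε i l) hij]
    have hT3 : ∑ l ∈ P, w l * ε j l * (δ l - c₀ {j, l} - m₀ - μ (some j) - 2 * μ none) =
        ∑ l ∈ P, w l * ε j l * δ l - (Cc j - w i * c₀ {i, j} * ε j i) -
          (E j - w i * ε j i) * (m₀ + μ (some j) + 2 * μ none) := by
      have h1 : ∀ l ∈ P, w l * ε j l * (δ l - c₀ {j, l} - m₀ - μ (some j) - 2 * μ none) =
          w l * ε j l * δ l - w l * c₀ {j, l} * ε j l -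
            w l * ε j l * (m₀ + μ (some j) + 2 * μ none) := fun l _ => by ring
      rw [Finset.sum_congr rfl h1, Finset.sum_sub_distrib, Finset.sum_sub_distrib,
        ← Finset.sum_mul, sum_off14 (fun l => w l * ε j l) hij,
        sum_off14 (fun l => w l * c₀ {j, l} * ε j l) hij, Finset.pair_comm i j]
      ring
    have hT4 : ∑ l ∈ P, w l * δ l * (ε i j + ε j l + ε l i) =
        ε i j * ∑ l ∈ P, w l * δ l + ∑ l ∈ P, w l * ε j l * δ l -
          ∑ l ∈ P, w l * ε i l * δ l := by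
      rw [Finset.mul_sum, ← Finset.sum_add_distrib, ← Finset.sum_sub_distrib]
      refine Finset.sum_congr rfl fun l hl => ?_
      rw [hP, Finset.mem_filter] at hl
      rw [hε i l hl.2.1.symm]
      ring
    rw [hL, hT4]
    rw [hS1, hS2, hS3, hT1, hT2, hT3] at hν
    have hj := hε i j hij
    linear_combination -hν - w i * (c₀ {i, j} + m₀ + μ (some j) + 2 * μ none) * hj)
  refine ⟨fun i => -b i, fun i j hij => ?_⟩
  rw [hb i (Finset.mem_univ i) j (Finset.mem_univ j) hij]
  ring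

end Pool.Agent.Lib.MP_89bcae_ag
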