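import Mathlib
import Pool.Agent.Lib.MP_89bcae_ag.Lr.B01
import Pool.Agent.Lib.MP_89bcae_ag.LIndX14

/-!
# Lines over a field with one homomorphism to `ZMod ℓ`: `ArrangementIndependentW`
-/

open Polynomial

open scoped Classical

set_option linter.unusedSectionVars false
set_option linter.unusedSimpArgs false
set_option linter.style.haveILetI false

namespace Pool.Agent.Lib.MP_89bcae_ag

universe u

open Sup.Lns (SS mem_SS AGeom)

variable {ι : Type} [Fintype ι] [LinearOrder ι] {k : Type u} [Field k] {v : ι ⊕ ι → k}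

/-- The criterion over `k` with one homomorphism. -/
theorem Gen14.indepW_good_k (h : Gen14 v) {ℓ : ℕ} [Fact ℓ.Prime]
    (W : ι → ℕ) (hW : ∀ i, (W i).Coprime ℓ) (V : Val14 k ℓ)
    (c₀ : Finset ι → ZMod ℓ) (m₀ : ZMod ℓ) (μ : Option ι → ZMod ℓ)
    (hV : ∀ i j l, i ≠ j → j ≠ l → i ≠ l →
      V.ν (dd14 v i j l) = c₀ {i, j, l} + m₀ + μ (some i) + μ (some j) + μ (some l))
    (hV0 : ∀ i j, i ≠ j →
      V.ν (v (Sum.inr i) - v (Sum.inr j)) = c₀ {i, j} + m₀ + μ (some i) + μ (some j) + μ none)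
    (hT : Lr.GoodT (fun i => (W i : ZMod ℓ)) c₀ Finset.univ)
    (e : ι → k → ℤ) (κ : k) (c : ι → k) (hκ : κ ≠ 0) (hc : ∀ i, c i ≠ 0)
    (hsum : ∀ i j l, i ≠ j → (ℓ : ℤ) ∣ ∑ m ∈ Finset.univ.filter
      (fun m => (lin14 v m).eval (nd14 v i j) = (lin14 v l).eval (nd14 v i j)),
        (W m : ℤ) * e m (nd14 v i j))
    (hpow : ∀ i j, i ≠ j → ∃ w : k, w ^ ℓ = κ ^ e i (nd14 v i j) * (c i / c j) ^ W j *
      (derivative (lin14 v i - lin14 v j)).eval (nd14 v i j) ^
        (-((W i : ℤ) + W j) * e i (nd14 v i j)) *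
      (∏ l ∈ Finset.univ.filter (fun l => l ≠ i ∧ l ≠ j),
        ((lin14 v i).eval (nd14 v i j) - (lin14 v l).eval (nd14 v i j)) ^
          (-(W l : ℤ) * e i (nd14 v i j))) *
      ∏ s' ∈ (SS (lin14 v)).erase (nd14 v i j),
        (nd14 v i j - s') ^ ((W j : ℤ) * (e i s' - e j s'))) :
    ∃ b : ι → ℤ, ∀ i j, i ≠ j → (ℓ : ℤ) ∣ e i (nd14 v i j) - W j * (b j - b i) := by
  have hℓ : ℓ.Prime := Fact.out
  have hcast : ∀ n : ℕ, n.Coprime ℓ → (n : ZMod ℓ) ≠ 0 := by
    intro n hn h0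
    rw [ZMod.natCast_eq_zero_iff] at h0
    exact hℓ.one_lt.ne' (Nat.Coprime.eq_one_of_dvd hn.symm h0)
  have hw : ∀ i, (W i : ZMod ℓ) ≠ 0 := fun i => hcast _ (hW i)
  -- the values modulo `ℓ`
  have hpair : ∀ i j, i ≠ j → (W i : ZMod ℓ) * ((e i (nd14 v i j) : ℤ) : ZMod ℓ) +
      (W j : ZMod ℓ) * (e j (nd14 v i j) : ℤ) = 0 := by
    intro i j hij
    have h1 := hsum i j i hij
    have h2 : Finset.univ.filter
        (fun m => (lin14 v m).eval (nd14 v i j) = (lin14 v i).eval (nd14 v i j)) = {i, j} := by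
      ext m
      rw [Finset.mem_filter, Finset.mem_insert, Finset.mem_singleton]
      constructor
      · rintro ⟨-, hm⟩
        by_cases hmi : m = i
        · exact Or.inl hmi
        · rcases h.nd_inj hij hmi ((h.eval_eq hmi _).1 hm) with hh | hh
          · exact Or.inl hh.1
          · exact Or.inr hh.1
      · rintro (rfl | rfl)
        · exact ⟨Finset.mem_univ _, rfl⟩
        · exact ⟨Finset.mem_univ _, ((h.eval_eq hij _).2 rfl).symm⟩
    rw [h2, Finset.sum_pair hij, ← ZMod.intCast_zmod_eq_zero_iff_dvd] at h1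
    push_cast at h1
    exact h1
  have hoff : ∀ i a b, a ≠ b → a ≠ i → b ≠ i → ((e i (nd14 v a b) : ℤ) : ZMod ℓ) = 0 := by
    intro i a b hab hai hbi
    have h1 := hsum a b i hab
    have h2 : Finset.univ.filter
        (fun m => (lin14 v m).eval (nd14 v a b) = (lin14 v i).eval (nd14 v a b)) = {i} := by
      ext m
      rw [Finset.mem_filter, Finset.mem_singleton]
      constructor
      · rintro ⟨-, hm⟩
        by_contra hmi
        rcases h.nd_inj hab hmi ((h.eval_eq hmi _).1 hm) with hh | hh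
        · exact hbi hh.2.symm
        · exact hai hh.2.symm
      · rintro rfl
        exact ⟨Finset.mem_univ _, rfl⟩
    rw [h2, Finset.sum_singleton, ← ZMod.intCast_zmod_eq_zero_iff_dvd] at h1
    push_cast at h1
    exact (mul_eq_zero.1 h1).resolve_left (hw i)
  set ε : ι → ι → ZMod ℓ := fun i j => ((e i (nd14 v i j) : ℤ) : ZMod ℓ) / (W j : ZMod ℓ)
    with hεdef
  have hWε : ∀ i j, (W j : ZMod ℓ) * ε i j = ((e i (nd14 v i j) : ℤ) : ZMod ℓ) := by
    intro i j
    rw [hεdef]
    beta_reduce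
    rw [mul_div_cancel₀ _ (hw j)]
  have hε : ∀ i j, i ≠ j → ε j i = -ε i j := by
    intro i j hij
    have h1 := hpair i j hij
    have h2 := hWε i j
    have h3 := hWε j i
    rw [nd14_symm i j] at h3
    rw [← h2, ← h3] at h1
    have h4 : (W i : ZMod ℓ) * (W j : ZMod ℓ) * (ε j i + ε i j) = 0 := by
      linear_combination h1
    have h5 := (mul_eq_zero.1 h4).resolve_left (mul_ne_zero (hw i) (hw j))
    linear_combination h5
  obtain ⟨b, hb⟩ := h.cut_good (fun i => (W i : ZMod ℓ)) V c₀ m₀ μ hV hV0 hT ε hε κ c (by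
    intro i j hij
    obtain ⟨w, hw'⟩ := hpow i j hij
    have hβ0 := h.slope_ne hij
    set s := nd14 v i j with hs
    set P := Finset.univ.filter (fun l => l ≠ i ∧ l ≠ j) with hP
    -- the factors are not zero
    have hder : (derivative (lin14 v i - lin14 v j)).eval s = v (Sum.inr i) - v (Sum.inr j) := by
      rw [lin14_sub]
      simp
    have hf0 : ∀ l ∈ P, (lin14 v i).eval s - (lin14 v l).eval s ≠ 0 := by
      intro l hl
      rw [hP, Finset.mem_filter] at hl
      rw [h.sub1 hij]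
      exact neg_ne_zero.2 (div_ne_zero (h.dd_ne hij hl.2.1.symm hl.2.2.symm) hβ0)
    have hf1 : ∀ l ∈ P, ((lin14 v i).eval s - (lin14 v l).eval s) ^ (-(W l : ℤ) * e i s) ≠ 0 :=
      fun l hl => zpow_ne_zero _ (hf0 l hl)
    have hf2 : ∀ s' ∈ (SS (lin14 v)).erase s,
        (s - s') ^ ((W j : ℤ) * (e i s' - e j s')) ≠ 0 := by
      intro s' hs'
      apply zpow_ne_zero
      rw [Finset.mem_erase] at hs'
      exact sub_ne_zero.2 hs'.1.symm
    rw [hder] at hw'
    have hA : κ ^ e i s ≠ 0 := zpow_ne_zero _ hκ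
    have hB0 : c i / c j ≠ 0 := div_ne_zero (hc i) (hc j)
    have hB : (c i / c j) ^ W j ≠ 0 := pow_ne_zero _ hB0
    have hC : (v (Sum.inr i) - v (Sum.inr j)) ^ (-((W i : ℤ) + W j) * e i s) ≠ 0 :=
      zpow_ne_zero _ hβ0
    have hD := Finset.prod_ne_zero_iff.2 hf1
    have hE' := Finset.prod_ne_zero_iff.2 hf2
    have hw0 : w ≠ 0 := by
      rintro rfl
      rw [zero_pow hℓ.ne_zero] at hw'
      exact (mul_ne_zero (mul_ne_zero (mul_ne_zero (mul_ne_zero hA hB) hC) hD) hE') hw'.symm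
    have hν := congrArg V.ν hw'
    rw [V.pow hw0, V.mul _ _ (mul_ne_zero (mul_ne_zero (mul_ne_zero hA hB) hC) hD) hE',
      V.mul _ _ (mul_ne_zero (mul_ne_zero hA hB) hC) hD, V.mul _ _ (mul_ne_zero hA hB) hC,
      V.mul _ _ hA hB, V.zpow hκ, V.pow hB0, V.div (hc i) (hc j), V.zpow hβ0, V.prod _ _ hf1,
      V.prod _ _ hf2] at hν
    -- the first sum
    have hS1 : ∑ l ∈ P, V.ν (((lin14 v i).eval s - (lin14 v l).eval s) ^
        (-(W l : ℤ) * e i s)) = -((W j : ZMod ℓ) * ε i j) *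
        ∑ l ∈ P, (W l : ZMod ℓ) * V.ν ((lin14 v i).eval s - (lin14 v l).eval s) := by
      rw [Finset.mul_sum]
      refine Finset.sum_congr rfl fun l hl => ?_
      rw [V.zpow (hf0 l hl), hWε i j]
      push_cast
      ring
    -- the second sum
    have hS2 : ∑ s' ∈ (SS (lin14 v)).erase s, V.ν ((s - s') ^ ((W j : ℤ) * (e i s' - e j s'))) =
        (W j : ZMod ℓ) * (∑ l ∈ P, (W l : ZMod ℓ) * ε i l * V.ν (s - nd14 v i l) -
          ∑ l ∈ P, (W l : ZMod ℓ) * ε j l * V.ν (s - nd14 v j l)) := by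
      have h1 : ∀ s' ∈ (SS (lin14 v)).erase s,
          V.ν ((s - s') ^ ((W j : ℤ) * (e i s' - e j s'))) =
          (W j : ZMod ℓ) * (((e i s' : ℤ) : ZMod ℓ) * V.ν (s - s') -
            ((e j s' : ℤ) : ZMod ℓ) * V.ν (s - s')) := by
        intro s' hs'
        rw [Finset.mem_erase] at hs'
        rw [V.zpow (sub_ne_zero.2 hs'.1.symm)]
        push_cast
        ring
      have h2 := h.sum_nodes i j hij (fun x => ((e i x : ℤ) : ZMod ℓ)) (hoff i)
        (fun x => V.ν (s - x))
      have h3 := h.sum_nodes j i hij.symm (fun x => ((e j x : ℤ) : ZMod ℓ)) (hoff j)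
        (fun x => V.ν (s - x))
      rw [nd14_symm i j] at h3
      have hPP : Finset.univ.filter (fun l => l ≠ j ∧ l ≠ i) = P := by
        rw [hP]
        ext l
        simp only [Finset.mem_filter, Finset.mem_univ, true_and]
        exact and_comm
      rw [Finset.sum_congr rfl h1, ← Finset.mul_sum, Finset.sum_sub_distrib, h2, h3, hPP]
      congr 2
      · refine Finset.sum_congr rfl fun l _ => ?_
        rw [hWε i l]
      · refine Finset.sum_congr rfl fun l _ => ?_
        rw [hWε j l]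
    rw [hS1, hS2, ZMod.natCast_self, zero_mul] at hν
    have hκε : ((e i s : ℤ) : ZMod ℓ) = (W j : ZMod ℓ) * ε i j := (hWε i j).symm
    have hexp : (((-((W i : ℤ) + W j) * e i s : ℤ)) : ZMod ℓ) =
        -((W i : ZMod ℓ) + W j) * ((W j : ZMod ℓ) * ε i j) := by
      push_cast
      rw [hκε]
    rw [hexp, hκε] at hν
    apply mul_left_cancel₀ (hw j)
    rw [mul_zero]
    linear_combination -hν)
  refine ⟨fun i => ((b i).val : ℤ), fun i j hij => ?_⟩
  rw [← ZMod.intCast_zmod_eq_zero_iff_dvd]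
  push_cast
  rw [ZMod.natCast_zmod_val, ZMod.natCast_zmod_val, ← hb i j hij, hWε i j, sub_self]

/-- **The criterion with one homomorphism.** Proof: copy `Gen14.indepW_k` and `Gen14.indepW`
(`LIndX14.lean`): in `Gen14.indepW_k` the step `h.cut_kw hm _ hw hws HV ε hε κ c (by intro V i j hij ...)`
becomes `h.cut_good _ V c₀ m₀ μ hV hV0 hT ε hε κ c (by intro i j hij ...)` with the same proof for the given
`V`. -/
theorem Gen14.indepW_good (h : Gen14 v) {ℓ : ℕ} (hℓ : ℓ.Prime) (W : ι → ℕ)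
    (hW : ∀ i, (W i).Coprime ℓ) (V : Val14 k ℓ)
    (c₀ : Finset ι → ZMod ℓ) (m₀ : ZMod ℓ) (μ : Option ι → ZMod ℓ)
    (hV : ∀ i j l, i ≠ j → j ≠ l → i ≠ l →
      V.ν (dd14 v i j l) = c₀ {i, j, l} + m₀ + μ (some i) + μ (some j) + μ (some l))
    (hV0 : ∀ i j, i ≠ j →
      V.ν (v (Sum.inr i) - v (Sum.inr j)) = c₀ {i, j} + m₀ + μ (some i) + μ (some j) + μ none)
    (hT : Lr.GoodT (fun i => (W i : ZMod ℓ)) c₀ Finset.univ)
    (F : Type u) [Field F] [Algebra k F] :
    Superelliptic.ArrangementIndependentW ℓ k F W (lin14 v) := by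
  haveI : Fact ℓ.Prime := ⟨hℓ⟩
  intro e κ c hκ hκm hc hsum hpow
  have hinj : Function.Injective (algebraMap k F) := (algebraMap k F).injective
  have hbot : IntermediateField.adjoin k (Superelliptic.nodes k F (lin14 v)) = ⊥ := by
    rw [IntermediateField.adjoin_eq_bot_iff, h.nodes_eq F]
    rintro _ ⟨x, -, rfl⟩
    exact IntermediateField.algebraMap_mem _ x
  rw [hbot] at hκm hc hpow
  obtain ⟨κ', rfl⟩ := IntermediateField.mem_bot.1 hκm
  choose c' hc' using fun i => IntermediateField.mem_bot.1 (hc i).2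
  have hκ' : κ' ≠ 0 := by
    rintro rfl
    exact hκ (map_zero _)
  have hc0 : ∀ i, c' i ≠ 0 := by
    intro i h0
    apply (hc i).1
    rw [← hc' i, h0, map_zero]
  obtain ⟨b, hb⟩ := h.indepW_good_k W hW V c₀ m₀ μ hV hV0 hT (fun i x => e i (algebraMap k F x)) κ' c' hκ' hc0
    (by
      intro i j l hij
      have h1 := hsum (algebraMap k F (nd14 v i j))
        ⟨i, j, hij, (h.aeval_eq hij _).2 rfl⟩ l
      have h2 : Finset.univ.filter (fun m => aeval (algebraMap k F (nd14 v i j)) (lin14 v m) =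
          aeval (algebraMap k F (nd14 v i j)) (lin14 v l)) = Finset.univ.filter
          (fun m => (lin14 v m).eval (nd14 v i j) = (lin14 v l).eval (nd14 v i j)) := by
        ext m
        rw [Finset.mem_filter, Finset.mem_filter, aeval_map14, aeval_map14, hinj.eq_iff]
      rw [h2] at h1
      exact h1)
    (by
      intro i j hij
      obtain ⟨w, hw, hwe⟩ := hpow i j (algebraMap k F (nd14 v i j)) hij
        ((h.aeval_eq hij _).2 rfl)
      obtain ⟨w', rfl⟩ := IntermediateField.mem_bot.1 hw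
      refine ⟨w', hinj ?_⟩
      rw [map_pow, hwe]
      have hset : {s' ∈ Superelliptic.nodes k F (lin14 v) | s' ≠ algebraMap k F (nd14 v i j)} =
          ((((SS (lin14 v)).erase (nd14 v i j)).image (algebraMap k F) : Finset F) : Set F) := by
        ext s'
        rw [Finset.coe_image, Finset.coe_erase, Set.mem_ofPred_eq, h.nodes_eq F]
        constructor
        · rintro ⟨⟨x, hx, rfl⟩, hne⟩
          exact ⟨x, ⟨hx, fun he => hne (by rw [he])⟩, rfl⟩
        · rintro ⟨x, ⟨hx, hne⟩, rfl⟩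
          exact ⟨⟨x, hx, rfl⟩, fun he => hne (hinj he)⟩
      have hP : ∀ P : Finset ι, (∀ l, l ∈ P ↔ l ≠ i ∧ l ≠ j) →
          ∏ l ∈ P, (aeval (algebraMap k F (nd14 v i j)) (lin14 v i) -
            aeval (algebraMap k F (nd14 v i j)) (lin14 v l)) ^
              (-(W l : ℤ) * e i (algebraMap k F (nd14 v i j))) =
          ∏ l ∈ Finset.univ.filter (fun l => l ≠ i ∧ l ≠ j),
            (algebraMap k F ((lin14 v i).eval (nd14 v i j)) -
              algebraMap k F ((lin14 v l).eval (nd14 v i j))) ^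
              (-(W l : ℤ) * e i (algebraMap k F (nd14 v i j))) := by
        intro P hP
        refine Finset.prod_congr ?_ fun l _ => ?_
        · ext l
          rw [hP, Finset.mem_filter]
          exact ⟨fun hh => ⟨Finset.mem_univ l, hh⟩, fun hh => hh.2⟩
        · rw [aeval_map14, aeval_map14]
      rw [hset, finprod_mem_coe_finset, Finset.prod_image fun x _ y _ hxy => hinj hxy,
        hP, aeval_map14]
      · simp only [map_mul, map_prod, map_zpow₀, map_pow, map_div₀, map_sub, hc']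
      · intro l
        simp)
  refine ⟨b, fun i j s hij hs => ?_⟩
  rw [(h.aeval_eq hij s).1 hs]
  exact hb i j hij

end Pool.Agent.Lib.MP_89bcae_ag
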