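import Mathlib
import Pool.Agent.Lib.MP_89bcae_ag.LprM8
import Pool.Agent.Lib.MP_89bcae_ag.Tow.M11

/-!
# An automorphism with given symbols of the brackets
-/

namespace Pool.Agent.Lib.MP_89bcae_ag.Lr

open Superelliptic

theorem valOne_h33 {p : ℕ} (hp : p.Prime) {z : ℤ} (h1 : (p : ℤ) ∣ z) (h2 : ¬ (p : ℤ) ^ 2 ∣ z) :
    padicValInt p z = 1 := by
  have : Fact p.Prime := ⟨hp⟩
  have h5 := (padicValInt_dvd_iff (p := p) 1 z).1 (by rwa [pow_one])
  have h6 : ¬ 2 ≤ padicValInt p z := fun h6 => h2 ((padicValInt_dvd_iff (p := p) 2 _).2 (Or.inr h6))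
  rcases h5 with h5 | h5
  · exact absurd (h5 ▸ dvd_zero _) h2
  · omega

theorem bracketPerm_h33 {ι : Type} [DecidableEq ι] (v : ι × Fin 3 → ℤ) {i j l x y z : ι}
    (hij : i ≠ j) (hjl : j ≠ l) (hil : i ≠ l) (h : ({i, j, l} : Finset ι) = {x, y, z}) :
    bracket v i j l = bracket v x y z ∨ bracket v i j l = -bracket v x y z := by
  have hi : i = x ∨ i = y ∨ i = z := by
    have : i ∈ ({x, y, z} : Finset ι) := h ▸ (by simp)
    simpa using this
  have hj : j = x ∨ j = y ∨ j = z := by
    have : j ∈ ({x, y, z} : Finset ι) := h ▸ (by simp)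
    simpa using this
  have hl : l = x ∨ l = y ∨ l = z := by
    have : l ∈ ({x, y, z} : Finset ι) := h ▸ (by simp)
    simpa using this
  clear h
  unfold bracket
  rw [Matrix.det_fin_three, Matrix.det_fin_three]
  rcases hi with rfl | rfl | rfl <;> rcases hj with rfl | rfl | rfl <;>
    rcases hl with rfl | rfl | rfl <;>
    first
      | exact absurd rfl hij
      | exact absurd rfl hjl
      | exact absurd rfl hil
      | (left; simp; ring1)
      | (right; simp; ring1)
      | (left; simp)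

theorem exists_prime_h33 {ι : Type} [DecidableEq ι] {v : ι × Fin 3 → ℤ}
    (hv : HasPrivatePrimes v) (T : {T : Finset ι // T.card = 3}) :
    ∃ p : ℕ, p.Prime ∧ ∀ i j l : ι, i ≠ j → j ≠ l → i ≠ l →
      padicValInt p (bracket v i j l) = if ({i, j, l} : Finset ι) = T.1 then 1 else 0 := by
  obtain ⟨T, hT⟩ := T
  obtain ⟨x, y, z, hxy, hxz, hyz, rfl⟩ := Finset.card_eq_three.1 hT
  obtain ⟨p, hp, h1, h2, h3⟩ := hv x y z hxy hyz hxz
  refine ⟨p, hp, fun i j l hij hjl hil => ?_⟩
  split_ifs with h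
  · apply valOne_h33 hp
    · rcases bracketPerm_h33 v hij hjl hil h with h4 | h4
      · rw [h4]; exact h1
      · rw [h4]; exact (dvd_neg).2 h1
    · rcases bracketPerm_h33 v hij hjl hil h with h4 | h4
      · rw [h4]; exact h2
      · rw [h4, dvd_neg]; exact h2
  · apply padicValInt.eq_zero_of_not_dvd
    apply h3 i j l hij hjl hil
    intro h4
    apply h
    apply Finset.coe_injective
    push_cast
    exact h4

/-- Proof: for `T : Finset ι` of the form `{i, j, l}` (three different elements) let `p T` be the private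
prime of `bracket v i j l` (`hasPrivatePrimes_iff8`, `OnlyPbr14`). `Sup.exists_U_of_lam` for `k := K`,
`K := ⊥`, `lam x = ∑ T ∈ Finset.univ.filter (·.card = 3), C T * (normVal14 K (p T) ℓ).ν x'` where
`x = algebraMap K F x'` (`Function.invFun`, or `IntermediateField.mem_bot`), and `T` the image of the
brackets. By `normVal14_int` the value at `bracket v i j l` is
`∑ T, C T * padicValInt (p T) (bracket v i j l)`, which is `C {i, j, l}` because
`padicValInt (p T) (bracket v i j l)` is `1` for `T = {i, j, l}` and `0` otherwise (see the end of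
`prjIndepN14` in `LPrjN14.lean` for the same computation). -/
theorem exists_U_lines {ι : Type} [Fintype ι] [LinearOrder ι] {v : ι × Fin 3 → ℤ}
    (hv : HasPrivatePrimes v) {ℓ : ℕ} (hℓ : ℓ.Prime) (K F : Type) [Field K] [Algebra ℚ K]
    [IsCyclotomicExtension {ℓ} ℚ K] [Field F] [Algebra K F] [IsAlgClosure K F] {ζ : K}
    (hζ : IsPrimitiveRoot ζ ℓ) (C : Finset ι → ZMod ℓ) :
    ∃ U : F ≃ₐ[K] F, ∀ i j l : ι, i ≠ j → j ≠ l → i ≠ l →
      Sup.kap ℓ (algebraMap K F ζ) U (algebraMap K F (bracket v i j l : K)) = C {i, j, l} := by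
  classical
  have : NeZero ℓ := ⟨hℓ.ne_zero⟩
  have : CharZero K := charZero_of_injective_algebraMap (algebraMap ℚ K).injective
  have : IsAlgClosed F := IsAlgClosure.isAlgClosed K
  have : Algebra.IsAlgebraic K F := IsAlgClosure.isAlgebraic
  choose p hp hpv using exists_prime_h33 hv
  have hpf : ∀ T, Fact (p T).Prime := fun T => ⟨hp T⟩
  have hinj : Function.Injective (algebraMap K F) := (algebraMap K F).injective
  set lam : F → ZMod ℓ := fun x => ∑ T : {T : Finset ι // T.card = 3},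
    C T.1 * (normVal14 K (p T) ℓ).ν (Function.invFun (algebraMap K F) x) with hlam
  have hlamK : ∀ y : K, lam (algebraMap K F y) = ∑ T : {T : Finset ι // T.card = 3},
      C T.1 * (normVal14 K (p T) ℓ).ν y := by
    intro y
    simp only [hlam]
    rw [Function.leftInverse_invFun hinj y]
  have hbne : ∀ i j l : ι, i ≠ j → j ≠ l → i ≠ l → bracket v i j l ≠ 0 := by
    intro i j l hij hjl hil h
    obtain ⟨q, -, -, h2, -⟩ := hv i j l hij hjl hil
    apply h2
    rw [h]
    exact dvd_zero _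
  set TT : Finset F := ((Finset.univ : Finset (ι × ι × ι)).filter
    (fun t => t.1 ≠ t.2.1 ∧ t.2.1 ≠ t.2.2 ∧ t.1 ≠ t.2.2)).image
    (fun t => algebraMap K F (bracket v t.1 t.2.1 t.2.2 : K)) with hTT
  obtain ⟨U, -, hU⟩ := Sup.exists_U_of_lam (k := K) (F := F) hℓ
    (Nat.cast_ne_zero.2 hℓ.ne_zero) hζ ⊥ lam (by
      intro x hx y hy hx0 hy0
      obtain ⟨x', rfl⟩ := IntermediateField.mem_bot.1 hx
      obtain ⟨y', rfl⟩ := IntermediateField.mem_bot.1 hy
      have hx' : x' ≠ 0 := fun h => hx0 (by rw [h, map_zero])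
      have hy' : y' ≠ 0 := fun h => hy0 (by rw [h, map_zero])
      rw [← map_mul, hlamK, hlamK, hlamK, ← Finset.sum_add_distrib]
      refine Finset.sum_congr rfl fun T _ => ?_
      rw [(normVal14 K (p T) ℓ).mul x' y' hx' hy', mul_add]) TT (by
      intro x hx
      rw [hTT, Finset.mem_image] at hx
      obtain ⟨t, ht, rfl⟩ := hx
      rw [Finset.mem_filter] at ht
      refine ⟨IntermediateField.mem_bot.2 ⟨_, rfl⟩, ?_⟩
      rw [map_ne_zero_iff _ hinj]
      exact Int.cast_ne_zero.2 (hbne _ _ _ ht.2.1 ht.2.2.1 ht.2.2.2))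
  refine ⟨U, fun i j l hij hjl hil => ?_⟩
  rw [hU _ (by
    rw [hTT, Finset.mem_image]
    exact ⟨(i, j, l), Finset.mem_filter.2 ⟨Finset.mem_univ _, hij, hjl, hil⟩, rfl⟩), hlamK]
  have hcard : ({i, j, l} : Finset ι).card = 3 := Finset.card_eq_three.2 ⟨i, j, l, hij, hil, hjl, rfl⟩
  rw [Finset.sum_eq_single (⟨{i, j, l}, hcard⟩ : {T : Finset ι // T.card = 3})]
  · rw [normVal14_int hℓ, hpv _ i j l hij hjl hil, if_pos rfl]
    simp
  · intro T _ hT
    rw [normVal14_int hℓ, hpv _ i j l hij hjl hil, if_neg]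
    · simp
    · intro h
      apply hT
      exact Subtype.ext h.symm
  · intro h
    exact absurd (Finset.mem_univ _) h

end Pool.Agent.Lib.MP_89bcae_ag.Lr
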