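import Mathlib
import Pool.Agent.Lib.MP_89bcae_ag.Lr.B03
import Pool.Agent.Lib.MP_89bcae_ag.Lr.B04
import Pool.Agent.Lib.MP_89bcae_ag.Re.N17

/-!
# Prime fields in which the brackets have given symbols
-/

namespace Pool.Agent.Lib.MP_89bcae_ag.Lr

open Superelliptic

/-- **Primes with given symbols of the brackets.** Proof: `K = CyclotomicField ℓ ℚ` (a number field),
`F = AlgebraicClosure K`, `ζ` a primitive root in `K`, `U` from `exists_U_lines`; `Re.exists_reduction` for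
`T` the finite set of the `(bracket v i j l : K)` (all `i, j, l` different); `hT` from `hC`. It gives `q`,
`A`, `Φ`, `c ≠ 0`; let `ζ' = (Φ ζ) ^ c.val`, a primitive root of order `ℓ` (`IsPrimitiveRoot.pow_of_coprime`).
For `z = (bracket v i j l : K)`: `Φ z = (bracket v i j l : ZMod q)` (`map_intCast`, the subring `A` contains
the integers) is not zero and its power is `(Φ ζ) ^ (c * C {i, j, l}).val = ζ' ^ (C {i, j, l}).val`
(exponents modulo `ℓ`: `pow_eq_pow_mod`/`IsPrimitiveRoot.pow_eq_one`; `ZMod.val_mul`). Then `V` is that of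
`exists_val_zmod` for `ζ'`. -/
theorem exists_prime_lines {ι : Type} [Fintype ι] [LinearOrder ι] {v : ι × Fin 3 → ℤ}
    (hv : HasPrivatePrimes v) {ℓ : ℕ} (hℓ : ℓ.Prime) (hℓ2 : ℓ ≠ 2) (C : Finset ι → ZMod ℓ)
    (hC : ∃ i j l : ι, i ≠ j ∧ j ≠ l ∧ i ≠ l ∧ C {i, j, l} ≠ 0) (N : ℕ) :
    ∃ (q : ℕ) (_ : Fact q.Prime) (ζ : ZMod q) (V : Val14 (ZMod q) ℓ), N < q ∧
      IsPrimitiveRoot ζ ℓ ∧ ∀ i j l : ι, i ≠ j → j ≠ l → i ≠ l →
        ((bracket v i j l : ℤ) : ZMod q) ≠ 0 ∧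
          V.ν ((bracket v i j l : ℤ) : ZMod q) = C {i, j, l} := by
  classical
  have : Fact ℓ.Prime := ⟨hℓ⟩
  have : NeZero ℓ := ⟨hℓ.ne_zero⟩
  have : IsCyclotomicExtension {ℓ} ℚ (CyclotomicField ℓ ℚ) :=
    CyclotomicField.isCyclotomicExtension ℓ ℚ
  have hζ : IsPrimitiveRoot (IsCyclotomicExtension.zeta ℓ ℚ (CyclotomicField ℓ ℚ)) ℓ :=
    IsCyclotomicExtension.zeta_spec ℓ ℚ (CyclotomicField ℓ ℚ)
  generalize IsCyclotomicExtension.zeta ℓ ℚ (CyclotomicField ℓ ℚ) = ζ at hζ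
  obtain ⟨U, hU⟩ := exists_U_lines hv hℓ (CyclotomicField ℓ ℚ)
    (AlgebraicClosure (CyclotomicField ℓ ℚ)) hζ C
  have hne : ∀ i j l : ι, i ≠ j → j ≠ l → i ≠ l → bracket v i j l ≠ 0 := by
    intro i j l h1 h2 h3 h0
    obtain ⟨p, -, -, hp2, -⟩ := hv i j l h1 h2 h3
    exact hp2 (h0 ▸ dvd_zero _)
  have hneK : ∀ i j l : ι, i ≠ j → j ≠ l → i ≠ l →
      ((bracket v i j l : ℤ) : CyclotomicField ℓ ℚ) ≠ 0 :=
    fun i j l h1 h2 h3 => Int.cast_ne_zero.2 (hne i j l h1 h2 h3)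
  let T : Finset (CyclotomicField ℓ ℚ) :=
    ((Finset.univ : Finset (ι × ι × ι)).filter
      (fun t => t.1 ≠ t.2.1 ∧ t.2.1 ≠ t.2.2 ∧ t.1 ≠ t.2.2)).image
      (fun t => ((bracket v t.1 t.2.1 t.2.2 : ℤ) : CyclotomicField ℓ ℚ))
  have hmem : ∀ i j l : ι, i ≠ j → j ≠ l → i ≠ l →
      ((bracket v i j l : ℤ) : CyclotomicField ℓ ℚ) ∈ T := by
    intro i j l h1 h2 h3
    exact Finset.mem_image.2 ⟨(i, j, l), by simp [h1, h2, h3], rfl⟩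
  obtain ⟨i₀, j₀, l₀, h1, h2, h3, h4⟩ := hC
  obtain ⟨q, hq, A, Φ, c, hζA, hNq, hdvd, hc, hprim, hT⟩ :=
    Re.exists_reduction hℓ (CyclotomicField ℓ ℚ) (AlgebraicClosure (CyclotomicField ℓ ℚ)) hζ U T
      ⟨_, hmem i₀ j₀ l₀ h1 h2 h3, hneK i₀ j₀ l₀ h1 h2 h3, by rw [hU i₀ j₀ l₀ h1 h2 h3]; exact h4⟩ N
  have hcop : Nat.Coprime c.val ℓ := by
    refine ((Nat.Prime.coprime_iff_not_dvd hℓ).2 ?_).symm
    intro hd
    apply hc
    have h5 : c.val = 0 := Nat.eq_zero_of_dvd_of_lt hd (ZMod.val_lt c)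
    exact (ZMod.val_eq_zero c).1 h5
  have hζ' : IsPrimitiveRoot ((Φ ⟨ζ, hζA⟩) ^ c.val) ℓ := hprim.pow_of_coprime c.val hcop
  obtain ⟨V, hV⟩ := exists_val_zmod hℓ hℓ2 hdvd hζ'
  refine ⟨q, hq, (Φ ⟨ζ, hζA⟩) ^ c.val, V, hNq, hζ', ?_⟩
  intro i j l h1 h2 h3
  obtain ⟨hz, hrest⟩ := hT _ (hmem i j l h1 h2 h3)
  obtain ⟨h0, hpow⟩ := hrest (hneK i j l h1 h2 h3)
  have hΦ : Φ ⟨((bracket v i j l : ℤ) : CyclotomicField ℓ ℚ), hz⟩ =
      ((bracket v i j l : ℤ) : ZMod q) := by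
    have h5 : (⟨((bracket v i j l : ℤ) : CyclotomicField ℓ ℚ), hz⟩ : A) =
        ((bracket v i j l : ℤ) : A) := Subtype.ext (by push_cast; rfl)
    rw [h5, map_intCast]
  rw [hΦ] at h0 hpow
  refine ⟨h0, hV _ _ h0 ?_⟩
  rw [hpow, hU i j l h1 h2 h3, ZMod.val_mul, ← pow_mul]
  exact (pow_eq_pow_mod _ hprim.pow_eq_one).symm

end Pool.Agent.Lib.MP_89bcae_ag.Lr
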