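import Mathlib
import Pool.Agent.Lib.MP_89bcae_ag.Lr.Defs

namespace Pool.Agent.Lib.MP_89bcae_ag.Lr

variable {ι : Type} {ℓ : ℕ}

/-- The symbols are not all zero. Proof: let `s₁, s₂, s₃` be different elements of `S`
(`Finset.two_lt_card`). If all `c {i, j, l}` and `c {i, j}` for `i, j, l` different elements of `S` are
zero, then the hypotheses of `hT` hold for `f = 0`, `z = 0` and `ε` with `ε s₁ s₂ = 1`, `ε s₂ s₁ = -1`,
zero elsewhere: in the sum the terms `l = i`, `l = j` are zero (`{i, j, i} = {i, j}`), the others by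
assumption. So `ε i j = b i - b j`: `b s₁ = b s₃ = b s₂`, but `ε s₁ s₂ = 1`, a contradiction. -/
theorem GoodT.exists_ne [DecidableEq ι] [Fact ℓ.Prime] {w : ι → ZMod ℓ} {c : Finset ι → ZMod ℓ}
    {S : Finset ι} (hT : GoodT w c S) (hS : 3 ≤ S.card) :
    (∃ i ∈ S, ∃ j ∈ S, ∃ l ∈ S, i ≠ j ∧ j ≠ l ∧ i ≠ l ∧ c {i, j, l} ≠ 0) ∨
      ∃ i ∈ S, ∃ j ∈ S, i ≠ j ∧ c {i, j} ≠ 0 := by
  by_contra hcon
  push Not at hcon
  obtain ⟨h1, h2⟩ := hcon
  obtain ⟨s1, m1, s2, m2, s3, m3, n12, n13, n23⟩ := Finset.two_lt_card.1 (show 2 < S.card by omega)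
  obtain ⟨b, hb⟩ := hT (fun i j => if i = s1 ∧ j = s2 then 1 else if i = s2 ∧ j = s1 then -1 else 0)
    (fun _ => 0) 0 (by
      intro i _ j _ hij
      by_cases a1 : i = s1 ∧ j = s2
      · obtain ⟨rfl, rfl⟩ := a1
        simp [hij, hij.symm]
      · by_cases a2 : i = s2 ∧ j = s1
        · obtain ⟨rfl, rfl⟩ := a2
          simp [hij, hij.symm]
        · have a3 : ¬ (j = s1 ∧ i = s2) := fun h => a2 ⟨h.2, h.1⟩
          have a4 : ¬ (j = s2 ∧ i = s1) := fun h => a1 ⟨h.2, h.1⟩
          simp only [if_neg a1, if_neg a2, if_neg a3, if_neg a4, neg_zero]) (by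
      intro i hi j hj hij
      rw [zero_mul, sub_zero, add_zero]
      apply Finset.sum_eq_zero
      intro l hl
      have h0 : c {i, j, l} - c {i, j} = 0 := by
        by_cases a1 : l = i
        · subst a1
          have : ({l, j, l} : Finset ι) = {l, j} := by
            ext x
            simp only [Finset.mem_insert, Finset.mem_singleton]
            tauto
          rw [this, sub_self]
        · by_cases a2 : l = j
          · subst a2
            have : ({i, l, l} : Finset ι) = {i, l} := by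
              ext x
              simp only [Finset.mem_insert, Finset.mem_singleton]
              tauto
            rw [this, sub_self]
          · rw [h1 i hi j hj l hl hij (Ne.symm a2) (Ne.symm a1), h2 i hi j hj hij, sub_zero]
      rw [h0, mul_zero, zero_mul])
  have e1 := hb s1 m1 s2 m2 n12
  have e2 := hb s1 m1 s3 m3 n13
  have e3 := hb s2 m2 s3 m3 n23
  have f2 : ¬ (s1 = s1 ∧ s3 = s2) := fun h => n23 h.2.symm
  have f2' : ¬ (s1 = s2 ∧ s3 = s1) := fun h => n12 h.1
  have f3 : ¬ (s2 = s1 ∧ s3 = s2) := fun h => n12 h.1.symm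
  have f3' : ¬ (s2 = s2 ∧ s3 = s1) := fun h => n13 h.2.symm
  rw [if_pos ⟨rfl, rfl⟩] at e1
  rw [if_neg f2, if_neg f2'] at e2
  rw [if_neg f3, if_neg f3'] at e3
  have e4 : (1 : ZMod ℓ) = 0 := by
    rw [e1]
    have : b s1 - b s2 = (b s1 - b s3) - (b s2 - b s3) := by ring
    rw [this, ← e2, ← e3, sub_zero]
  exact one_ne_zero e4

end Pool.Agent.Lib.MP_89bcae_ag.Lr
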