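import Mathlib
import Pool.Agent.Lib.MP_89bcae_ag.DefsR8
import Pool.Agent.Lib.MP_89bcae_ag.LprM8
import Pool.Agent.Lib.MP_89bcae_ag.Lr.B02

/-!
# Lines of the projective plane over a field: the arithmetic condition in the charts
-/

open Polynomial

open scoped Classical

set_option linter.unusedSectionVars false
set_option linter.unusedSimpArgs false
set_option linter.style.haveILetI false

namespace Pool.Agent.Lib.MP_89bcae_ag.Lr

open Superelliptic

variable {ι : Type} [Fintype ι] [LinearOrder ι] {k : Type} [Field k]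

/-- **The arithmetic condition in the charts, with one homomorphism.** Proof: as `prjIndepN14`
(`LPrjN14.lean`), directly over `k`: `cr : Option I → Fin 3 → k`, `cr x j = Over.lineCoeff v g (opt14 i₀ I x) j`,
`dt14 (cr x) (cr y) (cr z) = g.det * (pbr14 v _ _ _ : k)` (`dt14_mul`, `bracket_eq8`), all `scl14 cr x ≠ 0`,
`Over.linePoly v g i = lin14 (aff14 cr) i` by definition, `gen_of_isArrangement14`. As in `hv_chart14`, for
different `x, y, z : Option I`:
`V.ν (brk14 (aff14 cr) x y z) = V.ν g.det - V.ν (scl14 cr x) - V.ν (scl14 cr y) - V.ν (scl14 cr z) +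
V.ν (bracket ..)`. `Gen14.indepW_good` with `m₀ = V.ν g.det`, `μ x = - V.ν (scl14 cr x)`: `hV` is the case
`some i, some j, some l` (`brk14` is `dd14`, see `cut_kw`), `hV0` the case `some i, some j, none`
(`brk14_none`). -/
theorem indepW_lines {ℓ : ℕ} (hℓ : ℓ.Prime) {v : ι × Fin 3 → ℤ}
    (hb : ∀ x y z : ι, x ≠ y → y ≠ z → x ≠ z → ((bracket v x y z : ℤ) : k) ≠ 0)
    {g : Matrix (Fin 3) (Fin 3) k} {i₀ : ι} {I : Finset ι} (hi₀ : i₀ ∉ I) (hI : 2 ≤ I.card)
    (hg : Over.IsChart v g i₀ I) (W : I → ℕ) (hW : ∀ i, (W i).Coprime ℓ)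
    (harr : IsArrangement fun i : I => Over.linePoly v g i)
    (V : Val14 k ℓ) (c₀ : Finset I → ZMod ℓ)
    (hV : ∀ i j l : I, i ≠ j → j ≠ l → i ≠ l →
      V.ν ((bracket v i j l : ℤ) : k) = c₀ {i, j, l})
    (hV0 : ∀ i j : I, i ≠ j → V.ν ((bracket v i j i₀ : ℤ) : k) = c₀ {i, j})
    (hT : GoodT (fun i => (W i : ZMod ℓ)) c₀ Finset.univ) (F : Type) [Field F] [Algebra k F] :
    ArrangementIndependentW ℓ k F W (fun i : I => Over.linePoly v g i) := by
  haveI : Fact ℓ.Prime := ⟨hℓ⟩
  -- the coefficients in the chart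
  set cr : Option I → Fin 3 → k := fun x j => Over.lineCoeff v g (opt14 i₀ I x) j with hcr
  have hcrs : ∀ x, cr x = fun j => ∑ l, ((v (opt14 i₀ I x, l) : ℤ) : k) * g l j := by
    intro x
    rfl
  set B : Option I → Option I → Option I → k := fun x y z =>
    ((bracket v (opt14 i₀ I x) (opt14 i₀ I y) (opt14 i₀ I z) : ℤ) : k) with hBdef
  have hB : ∀ x y z, dt14 (cr x) (cr y) (cr z) = g.det * B x y z := by
    intro x y z
    rw [hcrs x, hcrs y, hcrs z, dt14_mul, hBdef]
    beta_reduce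
    rw [bracket_eq8]
    congr 1
    unfold dt14 pbr14
    push_cast
    ring
  have h0 : cr none 0 = 0 := hg.at_infinity.1
  have h1 : cr none 1 = 0 := hg.at_infinity.2
  have hdet0 : g.det ≠ 0 := hg.det_ne_zero
  have hs : ∀ x, scl14 cr x ≠ 0 := by
    rintro (_ | i)
    · change -cr none 2 ≠ 0
      rw [neg_ne_zero]
      intro h2
      obtain ⟨x, hx, y, hy, hxy⟩ := Finset.one_lt_card.1 (show 1 < I.card by omega)
      have h3 := hB none (some ⟨x, hx⟩) (some ⟨y, hy⟩)
      have h4 : dt14 (cr none) (cr (some ⟨x, hx⟩)) (cr (some ⟨y, hy⟩)) = 0 := by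
        unfold dt14
        rw [h0, h1, h2]
        ring
      rw [h4] at h3
      have h5 := (mul_eq_zero.1 h3.symm).resolve_left hdet0
      exact hb i₀ x y (fun h => hi₀ (h ▸ hx)) hxy (fun h => hi₀ (h ▸ hy)) h5
    · exact hg.ne_zero i i.2
  have hinj := opt14_injective hi₀
  have hBne : ∀ x y z : Option I, x ≠ y → y ≠ z → x ≠ z → B x y z ≠ 0 := by
    intro x y z hxy hyz hxz
    exact hb _ _ _ (fun h => hxy (hinj h)) (fun h => hyz (hinj h)) (fun h => hxz (hinj h))
  have key : ∀ x y z : Option I, x ≠ y → y ≠ z → x ≠ z →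
      V.ν (brk14 (aff14 cr) x y z) = V.ν (B x y z) + V.ν g.det + (-V.ν (scl14 cr x)) +
        (-V.ν (scl14 cr y)) + (-V.ν (scl14 cr z)) := by
    intro x y z hxy hyz hxz
    have hne := hBne x y z hxy hyz hxz
    have h2 := brk_chart14 cr h0 h1 hs x y z
    rw [hB] at h2
    have hS : scl14 cr x * scl14 cr y * scl14 cr z ≠ 0 :=
      mul_ne_zero (mul_ne_zero (hs x) (hs y)) (hs z)
    have hDB : g.det * B x y z ≠ 0 := mul_ne_zero hdet0 hne
    have hb' : brk14 (aff14 cr) x y z ≠ 0 := by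
      intro h3
      rw [h3, zero_mul] at h2
      exact neg_ne_zero.2 hDB h2.symm
    have h3 := congrArg V.ν h2
    rw [V.mul _ _ hb' hS, V.neg hDB, V.mul _ _ hdet0 hne,
      V.mul _ _ (mul_ne_zero (hs x) (hs y)) (hs z), V.mul _ _ (hs x) (hs y)] at h3
    linear_combination h3
  have harr' : IsArrangement (lin14 (aff14 cr)) := harr
  have hsome : ∀ {i j : I}, i ≠ j → (some i : Option I) ≠ some j := fun h h' => h (Option.some_injective _ h')
  have main := (gen_of_isArrangement14 harr').indepW_good hℓ W hW V c₀ (V.ν g.det)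
    (fun x => -V.ν (scl14 cr x)) ?_ ?_ hT F
  · exact main
  · intro i j l hij hjl hil
    have h2 := key (some i) (some j) (some l) (hsome hij) (hsome hjl) (hsome hil)
    have h3 : V.ν (B (some i) (some j) (some l)) = c₀ {i, j, l} := hV i j l hij hjl hil
    rw [h3] at h2
    exact h2
  · intro i j hij
    have h2 := key (some i) (some j) none (hsome hij) (by simp) (by simp)
    have h3 : V.ν (B (some i) (some j) none) = c₀ {i, j} := hV0 i j hij
    rw [h3, brk14_none] at h2
    exact h2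

end Pool.Agent.Lib.MP_89bcae_ag.Lr
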