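import Mathlib
import Pool.Agent.Lib.MP_89bcae_ag.Lr.B07

/-!
# Lines of the projective plane over a field: existence of charts for subsets of the lines
-/

open Polynomial

open scoped Classical

set_option linter.unusedSectionVars false
set_option linter.style.haveILetI false

namespace Pool.Agent.Lib.MP_89bcae_ag.Lr

open Superelliptic

variable {ι : Type} [Fintype ι] [LinearOrder ι] {k : Type} [Field k]

lemma prod_pairs_h16 {T R : Type} [Fintype T] [LinearOrder T] [CommMonoid R] (f : T → T → R) :
    (∏ i, ∏ j ∈ Finset.univ.filter (fun j => i < j), f i j) =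
      ∏ q ∈ (Finset.univ : Finset (T × T)).filter (fun q => q.1 < q.2), f q.1 q.2 := by
  rw [← Finset.univ_product_univ, Finset.prod_filter, Finset.prod_product]
  refine Finset.prod_congr rfl fun i _ => ?_
  rw [Finset.prod_filter]

lemma dvd_pairs_h16 {T U R : Type} [Fintype T] [LinearOrder T] [Fintype U] [LinearOrder U] [CommMonoid R]
    (φ : T → U) (hφ : ∀ i j, i < j → φ i < φ j) (f : U → U → R) :
    (∏ i, ∏ j ∈ Finset.univ.filter (fun j => i < j), f (φ i) (φ j)) ∣
      ∏ i, ∏ j ∈ Finset.univ.filter (fun j => i < j), f i j := by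
  have hinj : Function.Injective φ := by
    intro a b hab
    rcases lt_trichotomy a b with hlt | heq | hgt
    · exact absurd hab (hφ a b hlt).ne
    · exact heq
    · exact absurd hab (hφ b a hgt).ne'
  rw [prod_pairs_h16 (fun i j => f (φ i) (φ j)), prod_pairs_h16 f]
  have e : (∏ q ∈ (Finset.univ : Finset (T × T)).filter (fun q => q.1 < q.2), f (φ q.1) (φ q.2)) =
      ∏ q ∈ ((Finset.univ : Finset (T × T)).filter (fun q => q.1 < q.2)).map
        ⟨Prod.map φ φ, Function.Injective.prodMap hinj hinj⟩, f q.1 q.2 := by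
    rw [Finset.prod_map]
    rfl
  rw [e]
  apply Finset.prod_dvd_prod_of_subset
  intro q hq
  obtain ⟨a, ha, rfl⟩ := Finset.mem_map.1 hq
  exact Finset.mem_filter.2 ⟨Finset.mem_univ _, hφ _ _ (Finset.mem_filter.1 ha).2⟩

/-- Proof: `g` of `exists_chart_over`; `IsChart` for the subset `I` of `Finset.univ.erase i₀` is clear; the
product of the differences for `I` divides the product for `Finset.univ.erase i₀` (write both as products
over pairs `q.1 < q.2` as in `gen_of_isArrangement14` (`LPrjB14.lean`), map the pairs of `I` injectively: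
`Finset.prod_dvd_prod_of_subset` after `Finset.prod_image`/`Finset.prod_map`), and `Polynomial.Separable.of_dvd`.
(Or with `gen_of_isArrangement14` and `Gen14.isArrangement`: `Gen14` for the family of the affine
coefficients restricts to subfamilies; both polynomials are `lin14` of `Sum.elim ...`.) -/
theorem exists_chart_subset {v : ι × Fin 3 → ℤ}
    (h : ∀ x y z : ι, x ≠ y → y ≠ z → x ≠ z → ((bracket v x y z : ℤ) : k) ≠ 0)
    (hc : 3 ≤ Fintype.card ι) {i₀ : ι}
    (hk : ∀ S : Finset k, S.card ≤ Fintype.card ι + Fintype.card ι ^ 4 → ∃ s, s ∉ S)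
    {I : Finset ι} (hi₀ : i₀ ∉ I) :
    ∃ g : Matrix (Fin 3) (Fin 3) k, Over.IsChart v g i₀ I ∧
      IsArrangement (fun i : I => Over.linePoly v g i) := by
  obtain ⟨g, hg, harr⟩ := exists_chart_over h hc i₀ hk
  have hsub : ∀ i ∈ I, i ∈ (Finset.univ.erase i₀ : Finset ι) := fun i hi =>
    Finset.mem_erase.2 ⟨fun he => hi₀ (he ▸ hi), Finset.mem_univ i⟩
  refine ⟨g, ⟨hg.det_ne_zero, hg.at_infinity, fun i hi => hg.ne_zero i (hsub i hi)⟩, ?_, ?_⟩
  · refine harr.separable.of_dvd ?_
    exact dvd_pairs_h16 (fun i : I => (⟨i.1, hsub i.1 i.2⟩ : (Finset.univ.erase i₀ : Finset ι)))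
      (fun i j hij => hij) (fun i j => Over.linePoly v g i - Over.linePoly v g j)
  · intro i j hij
    exact harr.natDegree_ne_zero ⟨i.1, hsub i.1 i.2⟩ ⟨j.1, hsub j.1 j.2⟩
      (fun he => hij (Subtype.ext (Subtype.mk.inj he)))

end Pool.Agent.Lib.MP_89bcae_ag.Lr
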