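import Mathlib
import Pool.Agent.Lib.MP_89bcae_ag.Lr.A14
import Pool.Agent.Lib.MP_89bcae_ag.Lr.B06

/-!
# Symbols for the lines of the projective plane
-/

open scoped Classical

set_option linter.unusedSectionVars false

namespace Pool.Agent.Lib.MP_89bcae_ag.Lr

variable {ι : Type} [Fintype ι] [LinearOrder ι]

/-- Symbols for the lines. Proof: `exists_good` for the type `I`, `S = Finset.univ`
(`∑ i, (W i : ZMod ℓ) ≠ 0`, `(W i : ZMod ℓ) ≠ 0` from the coprimality) gives `c` and `GoodT w c univ`.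
Take `C T = c ((T.erase i₀).subtype (· ∈ I))`. Then `C {i, j, l} = c {i, j, l}` for `i, j, l : I` and
`C {i, j, i₀} = c {i, j}` for `i ≠ j` (`i₀ ∉ I`). The last statement from `GoodT.exists_ne`. -/
theorem exists_symbols {ℓ : ℕ} (hℓ : ℓ.Prime) (hℓ2 : ℓ ≠ 2) {i₀ : ι} {I : Finset ι} (hi₀ : i₀ ∉ I)
    (hI : 4 ≤ I.card) (W : I → ℕ) (hW : ∀ i, (W i).Coprime ℓ) (hs : (∑ i, W i).Coprime ℓ) :
    ∃ (C : Finset ι → ZMod ℓ) (c : Finset I → ZMod ℓ),
      GoodT (fun i => (W i : ZMod ℓ)) c Finset.univ ∧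
      (∀ i j l : I, i ≠ j → j ≠ l → i ≠ l → C {(i : ι), (j : ι), (l : ι)} = c {i, j, l}) ∧
      (∀ i j : I, i ≠ j → C {(i : ι), (j : ι), i₀} = c {i, j}) ∧
      ∃ i j l : ι, i ≠ j ∧ j ≠ l ∧ i ≠ l ∧ C {i, j, l} ≠ 0 := by
  have : Fact ℓ.Prime := ⟨hℓ⟩
  have hne : ∀ n : ℕ, n.Coprime ℓ → (n : ZMod ℓ) ≠ 0 := by
    intro n hn h0
    rw [ZMod.natCast_eq_zero_iff] at h0
    have := Nat.Coprime.symm hn
    exact hℓ.one_lt.ne' (Nat.Coprime.eq_one_of_dvd this h0)
  have hcard : 4 ≤ (Finset.univ : Finset I).card := by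
    rw [Finset.card_univ, Fintype.card_coe]
    exact hI
  have hex := exists_good (ι := I) (ℓ := ℓ) hℓ2 (w := fun i => (W i : ZMod ℓ)) Finset.univ hcard
    (fun i _ => hne _ (hW i)) (by
      have h := hne _ hs
      rw [Nat.cast_sum] at h
      exact h)
  obtain ⟨c, g, hT, hR⟩ := hex
  have hi : ∀ i : I, (i : ι) ≠ i₀ := fun i h => hi₀ (h ▸ i.2)
  have h1 : ∀ i j l : I, c ((({(i : ι), (j : ι), (l : ι)} : Finset ι).erase i₀).subtype (· ∈ I)) = c {i, j, l} := by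
    intro i j l
    congr 1
    ext x
    simp only [Finset.mem_subtype, Finset.mem_erase, Finset.mem_insert, Finset.mem_singleton, Subtype.ext_iff]
    exact ⟨fun h => h.2, fun h => ⟨hi x, h⟩⟩
  have h2 : ∀ i j : I, c ((({(i : ι), (j : ι), i₀} : Finset ι).erase i₀).subtype (· ∈ I)) = c {i, j} := by
    intro i j
    congr 1
    ext x
    simp only [Finset.mem_subtype, Finset.mem_erase, Finset.mem_insert, Finset.mem_singleton, Subtype.ext_iff]
    constructor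
    · rintro ⟨-, h | h | h⟩
      · exact Or.inl h
      · exact Or.inr h
      · exact absurd h (hi x)
    · rintro (h | h)
      · exact ⟨hi x, Or.inl h⟩
      · exact ⟨hi x, Or.inr (Or.inl h)⟩
  refine ⟨fun T => c ((T.erase i₀).subtype (· ∈ I)), c, hT, fun i j l _ _ _ => h1 i j l,
    fun i j _ => h2 i j, ?_⟩
  rcases hT.exists_ne (by omega) with ⟨i, -, j, -, l, -, hij, hjl, hil, hc⟩ | ⟨i, -, j, -, hij, hc⟩
  · refine ⟨i, j, l, fun h => hij (Subtype.ext h), fun h => hjl (Subtype.ext h), fun h => hil (Subtype.ext h), ?_⟩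
    rw [← h1 i j l] at hc
    exact hc
  · refine ⟨i, j, i₀, fun h => hij (Subtype.ext h), hi j, hi i, ?_⟩
    rw [← h2 i j] at hc
    exact hc

end Pool.Agent.Lib.MP_89bcae_ag.Lr
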