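import Mathlib
import Pool.Agent.Lib.MP_89bcae_ag.BrgN8
import Pool.Agent.Lib.MP_89bcae_ag.Wl.GA10
import Pool.Agent.Lib.MP_89bcae_ag.Lr.B12
import Pool.Agent.Lib.MP_89bcae_ag.Lr.B05
import Pool.Agent.Lib.MP_89bcae_ag.Lr.B08
import Pool.Agent.Lib.MP_89bcae_ag.Lr.B10

/-!
# Lines of the projective plane: the finite fields without Tate classes
-/

open Polynomial

open scoped Classical

set_option linter.unusedSectionVars false
set_option linter.style.haveILetI false

namespace Pool.Agent.Lib.MP_89bcae_ag.Lr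

open Superelliptic

variable {ι : Type} [Fintype ι] [LinearOrder ι]

/-- **Finite fields without Tate classes.** Proof: `C, c` from `exists_symbols`; `exists_prime_lines` for
`C` and the bound `max N (max ℓ (card ι + card ι ^ 4))` gives `q, ζ, V`. The charts: `exists_chart_subset`
(a finset of `ZMod q` with less than `q` elements is not everything: `ZMod.card`,
`Finset.exists_mem_notMem_of_card_lt_card`). The second part: `indepW_lines`, `Wt.Lns.arrangementW`
(`(ℓ : ZMod q) ≠ 0` because `0 < ℓ < q`) and `tateClassesTorsionN8`. -/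
theorem exists_prime_hasNoTateClasses {ℓ : ℕ} (hℓ : ℓ.Prime) (hℓ2 : ℓ ≠ 2) {v : ι × Fin 3 → ℤ}
    (hv : HasPrivatePrimes v) {i₀ : ι} {I : Finset ι} (hi₀ : i₀ ∉ I) (hI : 4 ≤ I.card)
    (W : I → ℕ) (hW : ∀ i, (W i).Coprime ℓ) (hs : (∑ i, W i).Coprime ℓ) (N : ℕ) :
    ∃ (q : ℕ) (_ : Fact q.Prime), N < q ∧ Over.HasNoTateClasses ℓ (ZMod q) v i₀ I W := by
  obtain ⟨C, c, hT, hC1, hC2, hC3⟩ := exists_symbols hℓ hℓ2 hi₀ hI W hW hs
  obtain ⟨q, hq, ζ, V, hqN, hζ, hV⟩ := exists_prime_lines hv hℓ hℓ2 C hC3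
    (max N (max ℓ (Fintype.card ι + Fintype.card ι ^ 4)))
  have hNq : N < q := lt_of_le_of_lt (le_max_left _ _) hqN
  have hℓq : ℓ < q := lt_of_le_of_lt ((le_max_left _ _).trans (le_max_right _ _)) hqN
  have hιq : Fintype.card ι + Fintype.card ι ^ 4 < q :=
    lt_of_le_of_lt ((le_max_right _ _).trans (le_max_right _ _)) hqN
  have hb : ∀ x y z : ι, x ≠ y → y ≠ z → x ≠ z → ((bracket v x y z : ℤ) : ZMod q) ≠ 0 :=
    fun x y z h1 h2 h3 => (hV x y z h1 h2 h3).1
  have hcard : 3 ≤ Fintype.card ι := by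
    have h := Finset.card_le_univ I
    omega
  have hℓ0 : (ℓ : ZMod q) ≠ 0 := by
    intro h
    rw [ZMod.natCast_eq_zero_iff] at h
    exact absurd (Nat.le_of_dvd hℓ.pos h) (not_le.mpr hℓq)
  refine ⟨q, hq, hNq, ?_, ?_⟩
  · refine exists_chart_subset hb hcard (fun S hS => ?_) hi₀
    have h1 : S.card < (Finset.univ : Finset (ZMod q)).card := by
      rw [Finset.card_univ, ZMod.card]
      exact lt_of_le_of_lt hS hιq
    obtain ⟨s, -, hs'⟩ := Finset.exists_mem_notMem_of_card_lt_card h1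
    exact ⟨s, hs'⟩
  · intro F L Ω _ _ _ _ _ _ _ _ _ g hg harr k' hk'
    haveI := hk'
    have hind : ArrangementIndependentW ℓ (ZMod q) F W (fun i : I => Over.linePoly v g i) := by
      refine indepW_lines hℓ hb hi₀ (le_trans (by norm_num) hI) hg W hW harr V c ?_ ?_ hT F
      · intro i j l h1 h2 h3
        exact (hV i j l (Subtype.coe_injective.ne h1) (Subtype.coe_injective.ne h2)
          (Subtype.coe_injective.ne h3)).2.trans (hC1 i j l h1 h2 h3)
      · intro i j h1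
        have hi : (i : ι) ≠ i₀ := fun h => hi₀ (h ▸ i.2)
        have hj : (j : ι) ≠ i₀ := fun h => hi₀ (h ▸ j.2)
        exact (hV i j i₀ (Subtype.coe_injective.ne h1) hj hi).2.trans (hC2 i j h1)
    exact tateClassesTorsionN8
      (Wt.Lns.arrangementW F L Ω hℓ hℓ0 hζ W hW hs _ harr hind k')

end Pool.Agent.Lib.MP_89bcae_ag.Lr
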