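import Mathlib
import Pool.Agent.Lib.MP_89bcae_ag.Lr.B09

/-!
# The final theorem
-/

open Polynomial Filter Topology

open scoped Classical

set_option linter.unusedSectionVars false
set_option linter.style.haveILetI false

namespace Pool.Agent.Lib.MP_89bcae_ag.Lr

open Superelliptic

/-- Over `ℚ` the two definitions agree. -/
theorem isChart_over_iff {ι : Type} (v : ι × Fin 3 → ℤ) (g : Matrix (Fin 3) (Fin 3) ℚ) (i₀ : ι)
    (I : Finset ι) : Over.IsChart v g i₀ I ↔ IsChart v g i₀ I :=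
  ⟨fun h => ⟨h.det_ne_zero, h.at_infinity, h.ne_zero⟩,
    fun h => ⟨h.det_ne_zero, h.at_infinity, h.ne_zero⟩⟩

theorem linePoly_over {ι : Type} (v : ι × Fin 3 → ℤ) (g : Matrix (Fin 3) (Fin 3) ℚ) (i : ι) :
    Over.linePoly v g i = linePoly v g i := rfl

theorem bracket_ne_zero {ι : Type} {v : ι × Fin 3 → ℤ} (hv : HasPrivatePrimes v) {x y z : ι}
    (hxy : x ≠ y) (hyz : y ≠ z) (hxz : x ≠ z) : bracket v x y z ≠ 0 := by
  obtain ⟨p, -, -, h, -⟩ := hv x y z hxy hyz hxz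
  intro h0
  apply h
  rw [h0]
  exact dvd_zero _

/-- **The criterion at all primes and the density one theorem.** -/
theorem lineCoversR (m : ℕ) :
    (∀ v : Fin m × Fin 3 → ℤ, HasPrivatePrimes v → ∀ ℓ : ℕ, ℓ.Prime →
      ∀ (i₀ : Fin m) (I : Finset (Fin m)), i₀ ∉ I → 4 ≤ I.card →
      ∀ W : I → ℕ, (∀ i, (W i).Coprime ℓ) → (∑ i, W i).Coprime ℓ →
        Over.HasNoTateClasses ℓ ℚ v i₀ I W ∧
        (ℓ ≠ 2 → ∀ N : ℕ, ∃ (q : ℕ) (_ : Fact q.Prime), N < q ∧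
          Over.HasNoTateClasses ℓ (ZMod q) v i₀ I W)) ∧
    Tendsto (fun H : ℕ => ({v : Fin m × Fin 3 → ℤ | (∀ i, |v i| ≤ H) ∧
      HasPrivatePrimes v}.ncard : ℝ) / (2 * H + 1) ^ (3 * m)) atTop (𝓝 1) := by
  refine ⟨fun v hv ℓ hℓ i₀ I hi₀ hI W hW hs => ⟨⟨?_, ?_⟩, fun hℓ2 N => ?_⟩, ?_⟩
  · -- charts
    have hc : 3 ≤ Fintype.card (Fin m) := by
      have h1 := Finset.card_le_univ I
      omega
    exact exists_chart_subset (k := ℚ) (fun x y z hxy hyz hxz =>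
      Int.cast_ne_zero.2 (bracket_ne_zero hv hxy hyz hxz)) hc
      (fun S _ => Infinite.exists_notMem_finset S) hi₀
  · intro F L Ω _ _ _ _ _ _ _ _ _ g hg harr k' hk'
    have hm : 3 ≤ m := by
      have h1 := Finset.card_le_univ I
      rw [Fintype.card_fin] at h1
      omega
    exact ((lineCovers8 F L Ω m hm).1 v hv).2 ℓ hℓ i₀ g I ((isChart_over_iff v g i₀ I).1 hg)
      harr hI W hW hs k' hk'
  · exact exists_prime_hasNoTateClasses hℓ hℓ2 hv hi₀ hI W hW hs N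
  · have hcard : Fintype.card (Fin m × Fin 3) = 3 * m := by
      rw [Fintype.card_prod, Fintype.card_fin, Fintype.card_fin, mul_comm]
    have hd := prjDensity14 (ι := Fin m) 1 0
    rw [hcard] at hd
    refine density_monoN14 (3 * m) hcard (fun v hv => ?_) hd
    rw [hasPrivatePrimes_iff8]
    intro x y z hxy hyz hxz
    obtain ⟨p, hp, -, -, hpo⟩ := hv x y z hxy hyz hxz
    exact ⟨p, hp, hpo⟩

end Pool.Agent.Lib.MP_89bcae_ag.Lr
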